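import Mathlib
import Pool.Agent.Helper89.SX.Defs2

/-!
# SX-A1: first consequences of the axioms

Hints.
* `mem_B`: `T` normalises `U`; the set `T U` is a subgroup (`Subgroup.mul_normal`-like arguments, or
  `Subgroup.sup_eq_closure` and closure induction, or `Subgroup.mem_sup_of_normal_right`).
* `N_conj_T`: `ν (n t n⁻¹) = 1`.  `exists_rep`: `cs.wordProd_surjective`, product of the `s_i` along
  a word (`List` induction), `Fr (s i) = s i`.
* SL₂ identities: `up a * wt = lo a⁻¹ * dg (-a) * up (-a⁻¹)` for a unit `a`,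
  `wt⁻¹ * lo a * wt = up (-a)`, `map (iterateFrobenius F p e) (up a) = up (a ^ p ^ e)`.
* `conj_lo`: `n φ(lo a) n⁻¹ = (n s_i) φ(up (-a)) (n s_i)⁻¹` and `conj_pos` for `n s_i`.
* `s_not_mem_B`: `s_i ∈ N ∩ B = T` gives `cs.simple i = 1`, but its length is `1`.
* `Fr_injective`: `Fr_fixed` (`Fr^[m] g = g` and `Fr g = Fr h`; take a common multiple of the
  periods).
-/

set_option autoImplicit false

namespace Pool.Agent.Helper89.SX

open Matrix MonoidAlgebra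

theorem up_mul_wt {F : Type*} [Field F] (a : Fˣ) :
    up (a : F) * wt = lo ((a⁻¹ : Fˣ) : F) * dg (-a) * up (-((a⁻¹ : Fˣ) : F)) := by
  have ha : (a : F) ≠ 0 := a.ne_zero
  ext i j
  fin_cases i <;> fin_cases j <;>
    simp [up, wt, lo, dg, Matrix.mul_apply, Fin.sum_univ_two, ha]

private theorem lo_mul_wt {F : Type*} [Field F] (a : F) : lo a * wt = wt * up (-a) := by
  ext i j
  fin_cases i <;> fin_cases j <;>
    simp [up, wt, lo, Matrix.mul_apply, Fin.sum_univ_two]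

private theorem dg_mul_up {F : Type*} [Field F] (c : Fˣ) (a : F) :
    dg c * up a = up ((c : F) ^ 2 * a) * dg c := by
  have hc : (c : F) ≠ 0 := c.ne_zero
  ext i j
  fin_cases i <;> fin_cases j <;>
    simp [up, dg, Matrix.mul_apply, Fin.sum_univ_two]
  field_simp

theorem wt_inv_lo_wt {F : Type*} [Field F] (a : F) : wt⁻¹ * lo a * wt = up (-a) := by
  rw [mul_assoc, lo_mul_wt, inv_mul_cancel_left]

private theorem map_up {F : Type*} [Field F] (f : F →+* F) (a : F) :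
    SpecialLinearGroup.map f (up a) = up (f a) := by
  ext i j
  fin_cases i <;> fin_cases j <;> simp [up]

private theorem map_lo {F : Type*} [Field F] (f : F →+* F) (a : F) :
    SpecialLinearGroup.map f (lo a) = lo (f a) := by
  ext i j
  fin_cases i <;> fin_cases j <;> simp [lo]

private theorem map_wt {F : Type*} [Field F] (f : F →+* F) :
    SpecialLinearGroup.map f (wt : SpecialLinearGroup (Fin 2) F) = wt := by
  ext i j
  fin_cases i <;> fin_cases j <;> simp [wt]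

namespace Datum

variable {p : ℕ} [Fact p.Prime] {F : Type*} [Field F] [CharP F p] {G : Type*} [Group G]
  {I : Type*} {C : CoxeterMatrix I} {W : Type*} [Group W] {cs : CoxeterSystem C W}
  (D : Datum p F G cs)

private theorem conj_U_aux {t u : G} (ht : t ∈ D.T) (hu : u ∈ D.U) : t⁻¹ * u * t ∈ D.U := by
  have h := D.conj_U t⁻¹ (D.T.inv_mem ht) u hu
  rwa [inv_inv] at h

theorem mem_B {g : G} : g ∈ D.B ↔ ∃ t ∈ D.T, ∃ u ∈ D.U, g = t * u := by
  constructor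
  · let H : Subgroup G :=
      { carrier := {g | ∃ t ∈ D.T, ∃ u ∈ D.U, g = t * u}
        one_mem' := ⟨1, D.T.one_mem, 1, D.U.one_mem, (mul_one 1).symm⟩
        mul_mem' := by
          rintro _ _ ⟨t, ht, u, hu, rfl⟩ ⟨t', ht', u', hu', rfl⟩
          exact ⟨t * t', D.T.mul_mem ht ht', t'⁻¹ * u * t' * u',
            D.U.mul_mem (D.conj_U_aux ht' hu) hu', by group⟩
        inv_mem' := by
          rintro _ ⟨t, ht, u, hu, rfl⟩
          exact ⟨t⁻¹, D.T.inv_mem ht, t * u⁻¹ * t⁻¹, D.conj_U t ht _ (D.U.inv_mem hu), by group⟩ }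
    have h : D.B ≤ H := by
      unfold B
      refine sup_le ?_ ?_
      · intro t ht
        exact ⟨t, ht, 1, D.U.one_mem, (mul_one t).symm⟩
      · intro u hu
        exact ⟨1, D.T.one_mem, u, hu, (one_mul u).symm⟩
    exact fun hg => h hg
  · rintro ⟨t, ht, u, hu, rfl⟩
    exact D.B.mul_mem (Subgroup.mem_sup_left ht) (Subgroup.mem_sup_right hu)

theorem conj_U' {t u : G} (ht : t ∈ D.T) (hu : u ∈ D.U) : t⁻¹ * u * t ∈ D.U :=
  D.conj_U_aux ht hu

theorem N_conj_T (n : D.N) {t : G} (ht : t ∈ D.T) : (n : G) * t * (n : G)⁻¹ ∈ D.T := by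
  let t' : D.N := ⟨t, D.T_le_N ht⟩
  have h1 : D.ν t' = 1 := (D.ν_eq_one t').2 ht
  have h2 : D.ν (n * t' * n⁻¹) = 1 := by
    rw [map_mul, map_mul, h1, mul_one, ← map_mul, mul_inv_cancel, map_one]
  exact (D.ν_eq_one (n * t' * n⁻¹)).1 h2

theorem N_mem_B {n : G} (hn : n ∈ D.N) (h : n ∈ D.B) : n ∈ D.T := by
  obtain ⟨t, ht, u, hu, rfl⟩ := D.mem_B.1 h
  exact D.N_inf_B t ht u hu hn

theorem ν_eq_iff (n n' : D.N) : D.ν n = D.ν n' ↔ ∃ t ∈ D.T, (n' : G) = n * t := by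
  constructor
  · intro h
    have h1 : D.ν (n⁻¹ * n') = 1 := by rw [map_mul, ← h, ← map_mul, inv_mul_cancel, map_one]
    exact ⟨((n⁻¹ * n' : D.N) : G), (D.ν_eq_one _).1 h1, by simp⟩
  · rintro ⟨t, ht, h⟩
    have h1 : n' = n * ⟨t, D.T_le_N ht⟩ := Subtype.ext h
    have h2 : D.ν ⟨t, D.T_le_N ht⟩ = 1 := (D.ν_eq_one _).2 ht
    rw [h1, map_mul, h2, mul_one]

theorem s_mem_N (i : I) : D.s i ∈ D.N := D.φ_wt i

theorem s_not_mem_B (i : I) : D.s i ∉ D.B := by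
  intro h
  have h1 : D.s i ∈ D.T := D.N_mem_B (D.s_mem_N i) h
  have h2 : D.ν ⟨D.φ i wt, D.φ_wt i⟩ = 1 := (D.ν_eq_one _).2 h1
  rw [D.ν_wt i] at h2
  have h3 := cs.length_simple i
  rw [h2, cs.length_one] at h3
  exact absurd h3 (by norm_num)

theorem Fr_up (i : I) (a : F) : D.Fr (D.φ i (up a)) = D.φ i (up (a ^ D.q)) := by
  rw [D.Fr_φ, map_up, iterateFrobenius_def]
  rfl

theorem Fr_lo (i : I) (a : F) : D.Fr (D.φ i (lo a)) = D.φ i (lo (a ^ D.q)) := by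
  rw [D.Fr_φ, map_lo, iterateFrobenius_def]
  rfl

theorem Fr_s (i : I) : D.Fr (D.s i) = D.s i := by
  unfold s
  rw [D.Fr_φ, map_wt]

theorem Fr_mem_T {t : G} (ht : t ∈ D.T) : D.Fr t ∈ D.T := by
  obtain ⟨c, hc⟩ := D.torus.surjective ⟨t, ht⟩
  have h : t = D.torus c := by rw [hc]
  rw [h, D.Fr_torus]
  exact (D.torus _).2

theorem Fr_mem_B {b : G} (hb : b ∈ D.B) : D.Fr b ∈ D.B := by
  obtain ⟨t, ht, u, hu, rfl⟩ := D.mem_B.1 hb
  rw [map_mul]
  exact D.mem_B.2 ⟨_, D.Fr_mem_T ht, _, D.Fr_U u hu, rfl⟩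

theorem Fr_injective : Function.Injective D.Fr := by
  intro g h hgh
  obtain ⟨m₁, hm₁, h₁⟩ := D.Fr_fixed g
  obtain ⟨m₂, hm₂, h₂⟩ := D.Fr_fixed h
  have e₁ : D.Fr^[m₁ * m₂] g = g := Function.IsPeriodicPt.mul_const h₁ m₂
  have e₂ : D.Fr^[m₁ * m₂] h = h := Function.IsPeriodicPt.const_mul h₂ m₁
  obtain ⟨k, hk⟩ : ∃ k, m₁ * m₂ = k + 1 :=
    ⟨m₁ * m₂ - 1, (Nat.succ_pred_eq_of_pos (Nat.mul_pos hm₁ hm₂)).symm⟩
  rw [hk, Function.iterate_succ_apply] at e₁ e₂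
  rw [← e₁, ← e₂, hgh]

theorem exists_rep (w : W) : ∃ n : D.N, D.ν n = w ∧ D.Fr (n : G) = n := by
  have key : ∀ ω : List I, ∃ n : D.N, D.ν n = cs.wordProd ω ∧ D.Fr (n : G) = n := by
    intro ω
    induction ω with
    | nil =>
      refine ⟨1, ?_, ?_⟩
      · rw [map_one, cs.wordProd_nil]
      · rw [Subgroup.coe_one, map_one]
    | cons i ω ih =>
      obtain ⟨n, hn, hn'⟩ := ih
      refine ⟨⟨D.φ i wt, D.φ_wt i⟩ * n, ?_, ?_⟩
      · rw [map_mul, D.ν_wt, hn, cs.wordProd_cons]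
      · rw [Subgroup.coe_mul, map_mul, hn']
        exact congrArg (· * (n : G)) (D.Fr_s i)
  obtain ⟨ω, hω⟩ := cs.wordProd_surjective w
  obtain ⟨n, hn, hn'⟩ := key ω
  exact ⟨n, hn.trans hω, hn'⟩

theorem up_mul_s (i : I) (a : Fˣ) :
    D.φ i (up (a : F)) * D.s i =
      D.φ i (lo ((a⁻¹ : Fˣ) : F)) * D.φ i (dg (-a)) * D.φ i (up (-((a⁻¹ : Fˣ) : F))) := by
  unfold s
  rw [← map_mul, up_mul_wt, map_mul, map_mul]

theorem s_inv_lo_s (i : I) (a : F) : (D.s i)⁻¹ * D.φ i (lo a) * D.s i = D.φ i (up (-a)) := by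
  unfold s
  rw [← map_inv, ← map_mul, ← map_mul, wt_inv_lo_wt]

theorem conj_lo (n : D.N) (i : I) (h : cs.IsRightDescent (D.ν n) i) (a : F) :
    (n : G) * D.φ i (lo a) * (n : G)⁻¹ ∈ D.U := by
  let n' : D.N := n * ⟨D.φ i wt, D.φ_wt i⟩
  have h1 : D.ν n' = D.ν n * cs.simple i := by rw [map_mul, D.ν_wt]
  have h2 : ¬ cs.IsRightDescent (D.ν n') i := by
    rw [h1]
    exact cs.isRightDescent_iff_not_isRightDescent_mul.1 h
  have h3 := D.conj_pos n' i h2 (-a)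
  have h4 : D.φ i (lo a) = D.s i * D.φ i (up (-a)) * (D.s i)⁻¹ := by
    rw [← D.s_inv_lo_s]
    group
  have h5 : (n' : G) = (n : G) * D.s i := rfl
  rw [h5] at h3
  have h6 : (n : G) * D.φ i (lo a) * (n : G)⁻¹ =
      (n : G) * D.s i * D.φ i (up (-a)) * ((n : G) * D.s i)⁻¹ := by
    rw [h4]
    group
  rw [h6]
  exact h3

/-- `dg c` acts on the root subgroup by the square of `c`. -/
theorem dg_conj_up (i : I) (c : Fˣ) (a : F) :
    D.φ i (dg c) * D.φ i (up a) * (D.φ i (dg c))⁻¹ = D.φ i (up ((c : F) ^ 2 * a)) := by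
  rw [← map_mul, dg_mul_up, map_mul, mul_inv_cancel_right]

end Datum

end Pool.Agent.Helper89.SX
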