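import Mathlib
import Pool.Agent.Helper89.SX.St.A1

/-!
# SX-A1b: Bruhat decomposition and the relative position

Proofs.
* (right step) for `n ∈ N`, `b ∈ B`: write `b = t u`, `u = φ(up a) u'` with `s_i⁻¹ u' s_i ∈ U`
  (`split`), so `n b s_i = (n t n⁻¹) n φ(up a) s_i (s_i⁻¹ u' s_i)`.  If `i` is not a right descent
  of `ν n` then `n φ(up a) n⁻¹ ∈ U` and the result is in `B n s_i B`.  In general (`i` a descent):
  if `a = 0` it is in `B n s_i B`; if `a ≠ 0`, `up_mul_s` and `conj_lo` give an element of `B n B`.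
* `exists_Rel`: the set of all `g` with `Rel g w` for some `w` contains `1` and is stable under
  right multiplication by `T`, `U`, `s_i`; use `generated` (`Subgroup.closure_induction_right` or
  similar; the generating set is stable under inverses up to `T`: `s_i⁻¹ = s_i t`; alternatively
  show that the set is stable under right multiplication by `s_i⁻¹` too).
* `Rel_unique`: if `n' = b n b'` (all in the obvious sets) then `ν n = ν n'`: induction on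
  `ℓ(ν n)` with `ℓ(ν n) ≤ ℓ(ν n')`.  If `ℓ(ν n) = 0`: `N_mem_B`.  Otherwise let `i` be a right
  descent of `ν n`, `n₁ = n s_i⁻¹`; `n₁ = b⁻¹ n' b'⁻¹ s_i⁻¹ ∈ B n' B ∪ B n' s_i B` by the right step,
  so by induction `ν n₁ = ν n'` (impossible, lengths) or `ν n₁ = ν n' s_i`, hence `ν n = ν n'`.
-/

set_option autoImplicit false

namespace Pool.Agent.Helper89.SX

open Matrix MonoidAlgebra

namespace Datum

variable {p : ℕ} [Fact p.Prime] {F : Type*} [Field F] [CharP F p] {G : Type*} [Group G]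
  {I : Type*} {C : CoxeterMatrix I} {W : Type*} [Group W] {cs : CoxeterSystem C W}
  (D : Datum p F G cs)

private theorem A1b_T_le_B {t : G} (ht : t ∈ D.T) : t ∈ D.B :=
  (le_sup_left : D.T ≤ D.T ⊔ D.U) ht

private theorem A1b_U_le_B {u : G} (hu : u ∈ D.U) : u ∈ D.B :=
  (le_sup_right : D.U ≤ D.T ⊔ D.U) hu

private theorem A1b_s_inv (i : I) : ∃ t ∈ D.T, (D.s i)⁻¹ = D.s i * t := by
  refine ⟨(D.s i)⁻¹ * (D.s i)⁻¹, ?_, by group⟩
  have h1 : D.ν (⟨D.s i, D.s_mem_N i⟩⁻¹ * ⟨D.s i, D.s_mem_N i⟩⁻¹ : D.N) = 1 := by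
    rw [map_mul, map_inv]
    have h2 : D.ν ⟨D.s i, D.s_mem_N i⟩ = cs.simple i := D.ν_wt i
    rw [h2, cs.inv_simple, cs.simple_mul_simple_self]
  exact (D.ν_eq_one _).1 h1

private theorem A1b_ν_mul_s (n : D.N) (i : I) (h : (n : G) * D.s i ∈ D.N) :
    D.ν ⟨(n : G) * D.s i, h⟩ = D.ν n * cs.simple i := by
  have h1 : (⟨(n : G) * D.s i, h⟩ : D.N) = n * ⟨D.s i, D.s_mem_N i⟩ := rfl
  rw [h1, map_mul]
  have h2 : D.ν ⟨D.s i, D.s_mem_N i⟩ = cs.simple i := D.ν_wt i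
  rw [h2]

private theorem A1b_mul_s_mem (n : D.N) (i : I) : (n : G) * D.s i ∈ D.N :=
  D.N.mul_mem n.2 (D.s_mem_N i)

theorem Rel_step_of_ascent (n : D.N) {b : G} (hb : b ∈ D.B) (i : I)
    (h : ¬ cs.IsRightDescent (D.ν n) i) :
    ∃ b₁ ∈ D.B, ∃ b₂ ∈ D.B, (n : G) * b * D.s i = b₁ * (n * D.s i) * b₂ := by
  obtain ⟨t, ht, u, hu, rfl⟩ := D.mem_B.1 hb
  obtain ⟨a, u', hu', rfl, hs⟩ := D.split i u hu
  refine ⟨((n : G) * t * (n : G)⁻¹) * ((n : G) * D.φ i (up a) * (n : G)⁻¹),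
    D.B.mul_mem (D.A1b_T_le_B (D.N_conj_T n ht)) (D.A1b_U_le_B (D.conj_pos n i h a)),
    (D.φ i wt)⁻¹ * u' * D.φ i wt, D.A1b_U_le_B hs, ?_⟩
  change (n : G) * (t * (D.φ i (up a) * u')) * D.φ i wt =
    ((n : G) * t * (n : G)⁻¹) * ((n : G) * D.φ i (up a) * (n : G)⁻¹) * (n * D.φ i wt) *
      ((D.φ i wt)⁻¹ * u' * D.φ i wt)
  group

theorem Rel_step (n : D.N) {b : G} (hb : b ∈ D.B) (i : I) :
    (∃ b₁ ∈ D.B, ∃ b₂ ∈ D.B, (n : G) * b * D.s i = b₁ * (n * D.s i) * b₂) ∨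
      ∃ b₁ ∈ D.B, ∃ b₂ ∈ D.B, (n : G) * b * D.s i = b₁ * n * b₂ := by
  by_cases h : cs.IsRightDescent (D.ν n) i
  · obtain ⟨t, ht, u, hu, rfl⟩ := D.mem_B.1 hb
    obtain ⟨a, u', hu', rfl, hs⟩ := D.split i u hu
    by_cases ha : a = 0
    · left
      subst ha
      have h0 : D.φ i (up (0 : F)) = 1 := by
        have h1 : (up (0 : F)) = 1 := by
          ext a b
          fin_cases a <;> fin_cases b <;> simp [up]
        rw [h1, map_one]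
      refine ⟨(n : G) * t * (n : G)⁻¹, D.A1b_T_le_B (D.N_conj_T n ht),
        (D.φ i wt)⁻¹ * u' * D.φ i wt, D.A1b_U_le_B hs, ?_⟩
      rw [h0]
      change (n : G) * (t * (1 * u')) * D.φ i wt =
        ((n : G) * t * (n : G)⁻¹) * (n * D.φ i wt) * ((D.φ i wt)⁻¹ * u' * D.φ i wt)
      group
    · right
      have hup := D.up_mul_s i (Units.mk0 a ha)
      rw [Units.val_mk0] at hup
      refine ⟨((n : G) * t * (n : G)⁻¹) *
        ((n : G) * D.φ i (lo (((Units.mk0 a ha)⁻¹ : Fˣ) : F)) * (n : G)⁻¹),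
        D.B.mul_mem (D.A1b_T_le_B (D.N_conj_T n ht)) (D.A1b_U_le_B (D.conj_lo n i h _)),
        D.φ i (dg (-Units.mk0 a ha)) * D.φ i (up (-(((Units.mk0 a ha)⁻¹ : Fˣ) : F))) *
          ((D.s i)⁻¹ * u' * D.s i),
        D.B.mul_mem (D.B.mul_mem (D.A1b_T_le_B (D.φ_dg i _)) (D.A1b_U_le_B (D.φ_up i _)))
          (D.A1b_U_le_B hs), ?_⟩
      have e1 : (n : G) * (t * (D.φ i (up a) * u')) * D.s i =
          (n : G) * t * (D.φ i (up a) * D.s i) * ((D.s i)⁻¹ * u' * D.s i) := by group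
      rw [e1, hup]
      group
  · left
    exact D.Rel_step_of_ascent n hb i h

private theorem A1b_Rel_mul_B {g b : G} {w : W} (h : D.Rel g w) (hb : b ∈ D.B) :
    D.Rel (g * b) w := by
  obtain ⟨b₁, hb₁, n, b₂, hb₂, hn, rfl⟩ := h
  exact ⟨b₁, hb₁, n, b₂ * b, D.B.mul_mem hb₂ hb, hn, by group⟩

private theorem A1b_Rel_B_mul {g b : G} {w : W} (h : D.Rel g w) (hb : b ∈ D.B) :
    D.Rel (b * g) w := by
  obtain ⟨b₁, hb₁, n, b₂, hb₂, hn, rfl⟩ := h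
  exact ⟨b * b₁, D.B.mul_mem hb hb₁, n, b₂, hb₂, hn, by group⟩

private theorem A1b_Rel_mul_s {g : G} {w : W} (h : D.Rel g w) {b : G} (hb : b ∈ D.B) (i : I) :
    D.Rel (g * b * D.s i) (w * cs.simple i) ∨ D.Rel (g * b * D.s i) w := by
  obtain ⟨b₁, hb₁, n, b₂, hb₂, hn, rfl⟩ := h
  rcases D.Rel_step n (D.B.mul_mem hb₂ hb) i with ⟨c₁, hc₁, c₂, hc₂, e⟩ | ⟨c₁, hc₁, c₂, hc₂, e⟩
  · left
    refine ⟨b₁ * c₁, D.B.mul_mem hb₁ hc₁, ⟨(n : G) * D.s i, D.A1b_mul_s_mem n i⟩, c₂, hc₂,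
      by rw [D.A1b_ν_mul_s, hn], ?_⟩
    have e1 : b₁ * (n : G) * b₂ * b * D.s i = b₁ * ((n : G) * (b₂ * b) * D.s i) := by group
    rw [e1, e]
    change b₁ * (c₁ * (n * D.s i) * c₂) = b₁ * c₁ * (n * D.s i) * c₂
    group
  · right
    refine ⟨b₁ * c₁, D.B.mul_mem hb₁ hc₁, n, c₂, hc₂, hn, ?_⟩
    have e1 : b₁ * (n : G) * b₂ * b * D.s i = b₁ * ((n : G) * (b₂ * b) * D.s i) := by group
    rw [e1, e]
    group

theorem exists_Rel (g : G) : ∃ w, D.Rel g w := by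
  have hg : g ∈ Subgroup.closure ((D.T : Set G) ∪ D.U ∪ Set.range fun i => D.φ i wt) := by
    rw [D.generated]
    exact Subgroup.mem_top g
  have hs : ∀ (x : G) (i : I), (∃ w, D.Rel x w) → ∃ w, D.Rel (x * D.s i) w := by
    rintro x i ⟨w, hw⟩
    rcases D.A1b_Rel_mul_s hw D.B.one_mem i with h | h
    · rw [mul_one] at h
      exact ⟨_, h⟩
    · rw [mul_one] at h
      exact ⟨_, h⟩
  refine Subgroup.closure_induction_right (p := fun x _ => ∃ w, D.Rel x w) ?_ ?_ ?_ hg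
  · exact ⟨1, 1, D.B.one_mem, 1, 1, D.B.one_mem, map_one _, by simp⟩
  · rintro x _ y hy ⟨w, hw⟩
    rcases hy with (hy | hy) | ⟨i, rfl⟩
    · exact ⟨w, D.A1b_Rel_mul_B hw (D.A1b_T_le_B hy)⟩
    · exact ⟨w, D.A1b_Rel_mul_B hw (D.A1b_U_le_B hy)⟩
    · exact hs x i ⟨w, hw⟩
  · rintro x _ y hy ⟨w, hw⟩
    rcases hy with (hy | hy) | ⟨i, rfl⟩
    · exact ⟨w, D.A1b_Rel_mul_B hw (D.B.inv_mem (D.A1b_T_le_B hy))⟩
    · exact ⟨w, D.A1b_Rel_mul_B hw (D.B.inv_mem (D.A1b_U_le_B hy))⟩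
    · obtain ⟨t, ht, e⟩ := D.A1b_s_inv i
      obtain ⟨w', hw'⟩ := hs x i ⟨w, hw⟩
      refine ⟨w', ?_⟩
      change D.Rel (x * (D.s i)⁻¹) w'
      rw [e, ← mul_assoc]
      exact D.A1b_Rel_mul_B hw' (D.A1b_T_le_B ht)

private theorem A1b_unique (k : ℕ) : ∀ (n m : D.N) (b b' : G), b ∈ D.B → b' ∈ D.B →
    cs.length (D.ν n) = k → cs.length (D.ν n) ≤ cs.length (D.ν m) → (n : G) = b * m * b' →
    D.ν n = D.ν m := by
  induction k with
  | zero =>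
    intro n m b b' hb hb' hk _ e
    have h1 : D.ν n = 1 := cs.length_eq_zero_iff.1 hk
    have hn : (n : G) ∈ D.B := D.A1b_T_le_B ((D.ν_eq_one n).1 h1)
    have hm : (m : G) ∈ D.B := by
      have e' : (m : G) = b⁻¹ * n * b'⁻¹ := by rw [e]; group
      rw [e']
      exact D.B.mul_mem (D.B.mul_mem (D.B.inv_mem hb) hn) (D.B.inv_mem hb')
    rw [h1, (D.ν_eq_one m).2 (D.N_mem_B m.2 hm)]
  | succ k ih =>
    intro n m b b' hb hb' hk hle e
    have hne : D.ν n ≠ 1 := by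
      intro h
      rw [h, cs.length_one] at hk
      omega
    obtain ⟨i, hi⟩ := cs.exists_rightDescent_of_ne_one hne
    obtain ⟨t, ht, es⟩ := D.A1b_s_inv i
    have hsl := (cs.isRightDescent_iff).1 hi
    have hmem : (n : G) * (D.s i)⁻¹ ∈ D.N := D.N.mul_mem n.2 (D.N.inv_mem (D.s_mem_N i))
    have hν : D.ν ⟨(n : G) * (D.s i)⁻¹, hmem⟩ = D.ν n * cs.simple i := by
      have h1 : (⟨(n : G) * (D.s i)⁻¹, hmem⟩ : D.N) = n * ⟨D.s i, D.s_mem_N i⟩⁻¹ := rfl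
      rw [h1, map_mul, map_inv]
      have h2 : D.ν ⟨D.s i, D.s_mem_N i⟩ = cs.simple i := D.ν_wt i
      rw [h2, cs.inv_simple]
    have hlen : cs.length (D.ν ⟨(n : G) * (D.s i)⁻¹, hmem⟩) = k := by
      rw [hν]
      omega
    rcases D.Rel_step m hb' i with ⟨c₁, hc₁, c₂, hc₂, e'⟩ | ⟨c₁, hc₁, c₂, hc₂, e'⟩
    · have h3 := ih ⟨(n : G) * (D.s i)⁻¹, hmem⟩ ⟨(m : G) * D.s i, D.A1b_mul_s_mem m i⟩ (b * c₁)
        (c₂ * t) (D.B.mul_mem hb hc₁) (D.B.mul_mem hc₂ (D.A1b_T_le_B ht)) hlen (by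
          rw [hlen, D.A1b_ν_mul_s]
          have h4 := cs.length_mul_simple (D.ν m) i
          omega) (by
          change (n : G) * (D.s i)⁻¹ = b * c₁ * (m * D.s i) * (c₂ * t)
          rw [es, e]
          have e1 : b * (m : G) * b' * (D.s i * t) = b * ((m : G) * b' * D.s i) * t := by group
          rw [e1, e']
          group)
      rw [hν, D.A1b_ν_mul_s] at h3
      exact mul_right_cancel h3
    · exfalso
      have h3 := ih ⟨(n : G) * (D.s i)⁻¹, hmem⟩ m (b * c₁)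
        (c₂ * t) (D.B.mul_mem hb hc₁) (D.B.mul_mem hc₂ (D.A1b_T_le_B ht)) hlen (by
          rw [hlen]
          omega) (by
          change (n : G) * (D.s i)⁻¹ = b * c₁ * m * (c₂ * t)
          rw [es, e]
          have e1 : b * (m : G) * b' * (D.s i * t) = b * ((m : G) * b' * D.s i) * t := by group
          rw [e1, e']
          group)
      rw [h3] at hlen
      omega

theorem Rel_unique {g : G} {w w' : W} (h : D.Rel g w) (h' : D.Rel g w') : w = w' := by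
  obtain ⟨b₁, hb₁, n, b₂, hb₂, hn, e⟩ := h
  obtain ⟨c₁, hc₁, m, c₂, hc₂, hm, e'⟩ := h'
  rw [← hn, ← hm]
  rcases le_total (cs.length (D.ν n)) (cs.length (D.ν m)) with hle | hle
  · refine D.A1b_unique _ n m (b₁⁻¹ * c₁) (c₂ * b₂⁻¹) (D.B.mul_mem (D.B.inv_mem hb₁) hc₁)
      (D.B.mul_mem hc₂ (D.B.inv_mem hb₂)) rfl hle ?_
    have e1 : (n : G) = b₁⁻¹ * g * b₂⁻¹ := by rw [e]; group
    rw [e1, e']
    group
  · refine (D.A1b_unique _ m n (c₁⁻¹ * b₁) (b₂ * c₂⁻¹) (D.B.mul_mem (D.B.inv_mem hc₁) hb₁)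
      (D.B.mul_mem hb₂ (D.B.inv_mem hc₂)) rfl hle ?_).symm
    have e1 : (m : G) = c₁⁻¹ * g * c₂⁻¹ := by rw [e']; group
    rw [e1, e]
    group

/-- The element `w` of the Weyl group with `g ∈ B w B`. -/
noncomputable def pos (g : G) : W := Classical.choose (D.exists_Rel g)

theorem pos_spec (g : G) : D.Rel g (D.pos g) := Classical.choose_spec (D.exists_Rel g)

theorem pos_eq {g : G} {w : W} (h : D.Rel g w) : D.pos g = w := D.Rel_unique (D.pos_spec g) h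

theorem pos_N (n : D.N) : D.pos n = D.ν n :=
  D.pos_eq ⟨1, D.B.one_mem, n, 1, D.B.one_mem, rfl, by simp⟩

theorem pos_mul_left {b : G} (hb : b ∈ D.B) (g : G) : D.pos (b * g) = D.pos g :=
  D.pos_eq (D.A1b_Rel_B_mul (D.pos_spec g) hb)

theorem pos_mul_right {b : G} (hb : b ∈ D.B) (g : G) : D.pos (g * b) = D.pos g :=
  D.pos_eq (D.A1b_Rel_mul_B (D.pos_spec g) hb)

theorem pos_eq_one_iff (g : G) : D.pos g = 1 ↔ g ∈ D.B := by
  constructor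
  · intro h
    obtain ⟨b₁, hb₁, n, b₂, hb₂, hn, e⟩ := D.pos_spec g
    rw [h] at hn
    rw [e]
    exact D.B.mul_mem (D.B.mul_mem hb₁ (D.A1b_T_le_B ((D.ν_eq_one n).1 hn))) hb₂
  · intro h
    exact D.pos_eq ⟨g, h, 1, 1, D.B.one_mem, map_one _, by simp⟩

theorem pos_mul_s_of_ascent {g b : G} (hb : b ∈ D.B) {i : I}
    (h : ¬ cs.IsRightDescent (D.pos g) i) : D.pos (g * b * D.s i) = D.pos g * cs.simple i := by
  obtain ⟨b₁, hb₁, n, b₂, hb₂, hn, e⟩ := D.pos_spec g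
  rw [← hn] at h
  obtain ⟨c₁, hc₁, c₂, hc₂, e'⟩ := D.Rel_step_of_ascent n (D.B.mul_mem hb₂ hb) i h
  refine D.pos_eq ⟨b₁ * c₁, D.B.mul_mem hb₁ hc₁, ⟨(n : G) * D.s i, D.A1b_mul_s_mem n i⟩, c₂,
    hc₂, by rw [D.A1b_ν_mul_s, hn], ?_⟩
  change g * b * D.s i = b₁ * c₁ * (n * D.s i) * c₂
  have e1 : g * b * D.s i = b₁ * ((n : G) * (b₂ * b) * D.s i) := by
    rw [e]
    group
  rw [e1, e']
  group

theorem pos_mul_s (g : G) {b : G} (hb : b ∈ D.B) (i : I) :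
    D.pos (g * b * D.s i) = D.pos g ∨ D.pos (g * b * D.s i) = D.pos g * cs.simple i := by
  rcases D.A1b_Rel_mul_s (D.pos_spec g) hb i with h | h
  · exact Or.inr (D.pos_eq h)
  · exact Or.inl (D.pos_eq h)

theorem pos_Fr (g : G) : D.pos (D.Fr g) = D.pos g := by
  obtain ⟨b₁, hb₁, n, b₂, hb₂, hn, e⟩ := D.pos_spec g
  obtain ⟨n₀, hn₀, hf⟩ := D.exists_rep (D.ν n)
  obtain ⟨t, ht, et⟩ := (D.ν_eq_iff n₀ n).1 hn₀
  refine D.pos_eq ⟨D.Fr b₁, D.Fr_mem_B hb₁, n₀, D.Fr t * D.Fr b₂,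
    D.B.mul_mem (D.A1b_T_le_B (D.Fr_mem_T ht)) (D.Fr_mem_B hb₂), by rw [hn₀, hn], ?_⟩
  have e1 : D.Fr g = D.Fr b₁ * D.Fr (n : G) * D.Fr b₂ := by
    conv_lhs => rw [e]
    rw [map_mul, map_mul]
  rw [e1, et, map_mul, hf]
  group

end Datum

end Pool.Agent.Helper89.SX
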