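import Mathlib
import Pool.Agent.Helper66.MC.Cox

/-!
# SX-C0: parabolic subgroups of Coxeter groups

Hints.  `Helper66.MC` (file `Pool/Agent/Helper66/MC/Cox.lean`) has the geometric representation
`rho cs : W →* Module.End ℝ (I →₀ ℝ)`, `rho_simple`, `sig_apply`, `rho_pos` (if `i` is not a right
descent of `w` then `0 ≤ rho cs w (al i) x` for all `x`), `rho_neg`, `not_both`,
`isRightDescent_of_neg`.  For `x ∈ W_K`: `rho cs x (al i) - al i` is supported in `K` (induction
with `Subgroup.closure_induction`; `sig M j v = v - (2 * form M j v) • al j`).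
* `exists_descent_mem`: `x ≠ 1` has a right descent `i` (`cs.exists_rightDescent_of_ne_one`); if
  `i ∉ K` the coordinate `i` of `rho cs x (al i)` is `1`, contradicting `rho_neg`.
* `length_mul_of_ascents`, `length_mul_of_descents`: induction on `ℓ(x)`; for `x ≠ 1` take `i ∈ K`
  with `ℓ(x s_i) < ℓ(x)`, `y = x s_i ∈ W_K`, `y (al i) ≥ 0` is a non-negative combination of the
  `al j`, `j ∈ K`, hence `w y (al i)` is `≥ 0` (`≤ 0`), so `ℓ(w y s_i) = ℓ(w y) ± 1`.
-/

set_option autoImplicit false

namespace Pool.Agent.Helper89.SX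

open Helper66.MC

variable {I : Type*} {C : CoxeterMatrix I} {W : Type*} [Group W] (cs : CoxeterSystem C W)

/-- Elements of `W_K` do not change the coordinates outside `K`. -/
private lemma C0_supp (K : Set I) {x : W} (hx : x ∈ Subgroup.closure (cs.simple '' K)) :
    ∀ (v : I →₀ ℝ) (j : I), j ∉ K → rho cs x v j = v j := by
  induction hx using Subgroup.closure_induction with
  | mem x hx =>
    obtain ⟨i, hi, rfl⟩ := hx
    intro v j hj
    have hij : i ≠ j := fun h => hj (h ▸ hi)
    rw [rho_simple, sig_apply, Finsupp.sub_apply, Finsupp.smul_apply, al,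
      Finsupp.single_eq_of_ne (Ne.symm hij), smul_zero, sub_zero]
  | one =>
    intro v j _
    rw [map_one]
    rfl
  | mul x y _ _ ihx ihy =>
    intro v j hj
    rw [map_mul, Module.End.mul_apply, ihx _ j hj, ihy _ j hj]
  | inv x _ ih =>
    intro v j hj
    have h := ih (rho cs x⁻¹ v) j hj
    rw [← Module.End.mul_apply, ← map_mul, mul_inv_cancel, map_one, Module.End.one_apply] at h
    exact h.symm

private lemma C0_comb (K : Set I) (T : Module.End ℝ (I →₀ ℝ)) (hT : ∀ i ∈ K, ∀ x, 0 ≤ T (al i) x)
    (f : I →₀ ℝ) (hf : ∀ x, 0 ≤ f x) (hK : ∀ j, j ∉ K → f j = 0) : ∀ x, 0 ≤ T f x := by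
  intro x
  have h1 : f = f.sum (fun i a => a • al i) := by
    conv_lhs => rw [← Finsupp.sum_single f]
    apply Finsupp.sum_congr
    intro i _
    simp [al]
  rw [h1, Finsupp.sum, map_sum, Finsupp.finsetSum_apply]
  apply Finset.sum_nonneg
  intro i hi
  have hiK : i ∈ K := by
    by_contra h
    exact (Finsupp.mem_support_iff.1 hi) (hK i h)
  rw [map_smul, Finsupp.smul_apply, smul_eq_mul]
  exact mul_nonneg (hf i) (hT i hiK x)

/-- For `y ∈ W_K` and `i ∈ K` not a right descent of `y`, the vector `y α_i`. -/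
private lemma C0_vec (K : Set I) {y : W} (hy : y ∈ Subgroup.closure (cs.simple '' K)) {i : I}
    (hi : i ∈ K) (hd : ¬ cs.IsRightDescent y i) :
    (∀ x, 0 ≤ rho cs y (al i) x) ∧ ∀ j, j ∉ K → rho cs y (al i) j = 0 := by
  refine ⟨rho_pos cs y i hd, fun j hj => ?_⟩
  rw [C0_supp cs K hy _ j hj, al, Finsupp.single_eq_of_ne]
  rintro rfl
  exact hj hi

/-- **SX-C0a.** -/
theorem exists_descent_mem (K : Set I) {x : W} (hx : x ∈ Subgroup.closure (cs.simple '' K))
    (h1 : x ≠ 1) : ∃ i ∈ K, cs.IsRightDescent x i := by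
  obtain ⟨i, hi⟩ := cs.exists_rightDescent_of_ne_one h1
  refine ⟨i, ?_, hi⟩
  by_contra hiK
  have h2 := rho_neg cs x i hi i
  rw [C0_supp cs K hx _ i hiK, al, Finsupp.single_eq_same] at h2
  linarith

/-- **SX-C0b.** -/
theorem length_mul_of_ascents (K : Set I) {w : W} (hw : ∀ i ∈ K, ¬ cs.IsRightDescent w i) {x : W}
    (hx : x ∈ Subgroup.closure (cs.simple '' K)) :
    cs.length (w * x) = cs.length w + cs.length x := by
  induction hn : cs.length x generalizing x with
  | zero =>
    rw [cs.length_eq_zero_iff] at hn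
    rw [hn, mul_one, add_zero]
  | succ n ih =>
    have h1 : x ≠ 1 := by
      rintro rfl
      simp at hn
    obtain ⟨i, hi, hd⟩ := exists_descent_mem cs K hx h1
    have hs : cs.simple i ∈ Subgroup.closure (cs.simple '' K) :=
      Subgroup.subset_closure ⟨i, hi, rfl⟩
    have hy : x * cs.simple i ∈ Subgroup.closure (cs.simple '' K) := mul_mem hx hs
    have hl := cs.isRightDescent_iff.1 hd
    have hyd := cs.isRightDescent_iff_not_isRightDescent_mul.1 hd
    have h2 := ih hy (by omega)
    obtain ⟨h3, h4⟩ := C0_vec cs K hy hi hyd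
    have h5 : ∀ z, 0 ≤ rho cs (w * (x * cs.simple i)) (al i) z := by
      rw [map_mul, Module.End.mul_apply]
      exact C0_comb K (rho cs w) (fun j hj => rho_pos cs w j (hw j hj)) _ h3 h4
    have h6 : ¬ cs.IsRightDescent (w * (x * cs.simple i)) i := fun h =>
      not_both cs _ i h5 (rho_neg cs _ i h)
    rw [cs.not_isRightDescent_iff] at h6
    have h7 : w * (x * cs.simple i) * cs.simple i = w * x := by
      rw [← mul_assoc, cs.simple_mul_simple_cancel_right]
    rw [h7] at h6
    omega

/-- **SX-C0c.** -/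
theorem length_mul_of_descents (K : Set I) {w : W} (hw : ∀ i ∈ K, cs.IsRightDescent w i) {x : W}
    (hx : x ∈ Subgroup.closure (cs.simple '' K)) :
    cs.length (w * x) + cs.length x = cs.length w := by
  induction hn : cs.length x generalizing x with
  | zero =>
    rw [cs.length_eq_zero_iff] at hn
    rw [hn, mul_one, add_zero]
  | succ n ih =>
    have h1 : x ≠ 1 := by
      rintro rfl
      simp at hn
    obtain ⟨i, hi, hd⟩ := exists_descent_mem cs K hx h1
    have hs : cs.simple i ∈ Subgroup.closure (cs.simple '' K) :=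
      Subgroup.subset_closure ⟨i, hi, rfl⟩
    have hy : x * cs.simple i ∈ Subgroup.closure (cs.simple '' K) := mul_mem hx hs
    have hl := cs.isRightDescent_iff.1 hd
    have hyd := cs.isRightDescent_iff_not_isRightDescent_mul.1 hd
    have h2 := ih hy (by omega)
    obtain ⟨h3, h4⟩ := C0_vec cs K hy hi hyd
    have h5 : ∀ z, rho cs (w * (x * cs.simple i)) (al i) z ≤ 0 := by
      intro z
      rw [map_mul, Module.End.mul_apply]
      have h := C0_comb K (-(rho cs w)) (fun j hj z => by
        rw [LinearMap.neg_apply, Finsupp.neg_apply]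
        have := rho_neg cs w j (hw j hj) z
        linarith) _ h3 h4 z
      rw [LinearMap.neg_apply, Finsupp.neg_apply] at h
      linarith
    have h6 := isRightDescent_of_neg cs _ i h5
    rw [cs.isRightDescent_iff] at h6
    have h7 : w * (x * cs.simple i) * cs.simple i = w * x := by
      rw [← mul_assoc, cs.simple_mul_simple_cancel_right]
    rw [h7] at h6
    omega

end Pool.Agent.Helper89.SX
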