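import Mathlib
import Pool.Agent.Helper89.SX.St.C0
import Pool.Agent.Helper89.SX.St.A1b

/-!
# SX-A2: parabolic subgroups

Proofs.
* `pos_mem_WJ`: the set `{g | pos g ∈ W_K}` contains `1`, and is stable under right multiplication
  by `B` and by `s_i`, `s_i⁻¹` (`i ∈ K`) (`pos_mul_s`; `s_i⁻¹ = s_i t` with `t ∈ T`); so it contains
  `P K`.
* `exists_of_pos`: if `pos g ∈ W_K` then `g ∈ P K` (a representative of `w ∈ W_K` is a product of
  `s_i`, `i ∈ K`, up to `T`).
* `pos_mul`: if `ℓ(pos g · pos h) = ℓ(pos g) + ℓ(pos h)` then `pos (g h) = pos g · pos h`.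
  Induction on `ℓ(pos h)`: if `pos h = 1` it is `pos_mul_right`; otherwise let `i` be a right
  descent of `pos h`, `h = b n b'`, `n = n₁ s_i` with `n₁ = n s_i⁻¹`, `h₁ = b n₁`,
  `pos h₁ = pos h · s_i` shorter, `pos (g h₁) = pos g · pos h₁` by induction (the lengths add up),
  and `pos (g h₁ s_i)` by `pos_mul_s_of_ascent`.
* `length_lt_of_mem_P`: `pos p ∈ W_K`, `pos p ≠ 1`, and `length_mul_of_ascents`, `pos_mul`.
* `P_empty`: `P ∅ = B`.
* `φ_mem_P`: `φ i x ∈ P {i}` for all `x ∈ SL₂(F)`: every `x` is a product of matrices `up a`,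
  `dg c`, `wt` (and inverses).
* `mem_P_singleton`: `P {i} = B ∪ ⋃_a φ(up a) s_i B`: the right hand side is stable under right
  multiplication by `B` and by `s_i^{±1}` (use `split` and `up_mul_s`, `s_inv_lo_s`; for
  `φ(up a) s_i b s_i`, write `b = t u`, `u = φ(up c) u'`).
* `up_s_inj`: if `φ(up a) s_i` and `φ(up a') s_i` are in the same coset of `B` then `a = a'`:
  otherwise `φ(lo c) ∈ B` with `c ≠ 0`, and `lo c = up c⁻¹ * … wt * up c⁻¹` gives `s_i ∈ B`.
-/

set_option autoImplicit false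

namespace Pool.Agent.Helper89.SX

open Matrix MonoidAlgebra

section SL2Aux

variable {F : Type*} [Field F]

private theorem A2_cases (x : SpecialLinearGroup (Fin 2) F) :
    (∃ c : Fˣ, ∃ e : F, x = dg c * up e) ∨
      ∃ r : F, ∃ t : Fˣ, ∃ e : F, x = up r * wt * (dg t * up e) := by
  have hdet := x.2
  rw [Matrix.det_fin_two] at hdet
  by_cases hc : x 1 0 = 0
  · left
    have hc' : x.1 1 0 = 0 := hc
    have ha : x 0 0 ≠ 0 := by
      intro h
      have h' : x.1 0 0 = 0 := h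
      rw [h', hc'] at hdet
      simp at hdet
    have hd : x 1 1 = (x 0 0)⁻¹ := by
      have h2 : x.1 0 0 * x.1 1 1 - x.1 0 1 * x.1 1 0 = 1 := hdet
      rw [hc', mul_zero, sub_zero] at h2
      exact eq_inv_of_mul_eq_one_right h2
    refine ⟨Units.mk0 (x 0 0) ha, x 0 1 / x 0 0, ?_⟩
    ext i j
    fin_cases i <;> fin_cases j
    · simp [up, dg, Matrix.mul_apply, Fin.sum_univ_two]
    · simp [up, dg, Matrix.mul_apply, Fin.sum_univ_two]
      field_simp
    · simpa [up, dg, Matrix.mul_apply, Fin.sum_univ_two] using hc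
    · simpa [up, dg, Matrix.mul_apply, Fin.sum_univ_two] using hd
  · right
    have hc' : x.1 1 0 ≠ 0 := hc
    refine ⟨x 0 0 / x 1 0, -Units.mk0 (x 1 0) hc, x 1 1 / x 1 0, ?_⟩
    ext i j
    fin_cases i <;> fin_cases j
    · simp [up, dg, wt, Matrix.mul_apply, Fin.sum_univ_two]
      field_simp
    · simp [up, dg, wt, Matrix.mul_apply, Fin.sum_univ_two]
      field_simp
      have h2 : x 0 0 * x 1 1 - x 0 1 * x 1 0 = 1 := hdet
      linear_combination (-1 : F) * h2
    · simp [up, dg, wt, Matrix.mul_apply, Fin.sum_univ_two]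
    · simp [up, dg, wt, Matrix.mul_apply, Fin.sum_univ_two]
      field_simp

private theorem A2_wt_inv : (wt : SpecialLinearGroup (Fin 2) F)⁻¹ = wt * dg (-1) := by
  rw [inv_eq_iff_mul_eq_one]
  ext i j
  fin_cases i <;> fin_cases j <;> simp [wt, dg, Matrix.mul_apply, Fin.sum_univ_two]

private theorem A2_up_sub (a a' : F) : (up a')⁻¹ * up a = up (a - a') := by
  rw [inv_mul_eq_iff_eq_mul]
  ext i j
  fin_cases i <;> fin_cases j <;> simp [up, Matrix.mul_apply, Fin.sum_univ_two]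

private theorem A2_conj_up (e : F) : wt⁻¹ * up e * wt = lo (-e) := by
  rw [mul_assoc, inv_mul_eq_iff_eq_mul]
  ext i j
  fin_cases i <;> fin_cases j <;> simp [up, lo, wt, Matrix.mul_apply, Fin.sum_univ_two]

private theorem A2_lo (c : Fˣ) : (wt : SpecialLinearGroup (Fin 2) F) =
    (up ((c⁻¹ : Fˣ) : F))⁻¹ * lo (c : F) * (up ((c⁻¹ : Fˣ) : F))⁻¹ * (dg (-c))⁻¹ := by
  rw [eq_mul_inv_iff_mul_eq, eq_mul_inv_iff_mul_eq, eq_inv_mul_iff_mul_eq]
  have hc : (c : F) ≠ 0 := c.ne_zero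
  ext i j
  fin_cases i <;> fin_cases j <;>
    simp [up, lo, wt, dg, Matrix.mul_apply, Fin.sum_univ_two, hc]

end SL2Aux

namespace Datum

variable {p : ℕ} [Fact p.Prime] {F : Type*} [Field F] [CharP F p] {G : Type*} [Group G]
  {I : Type*} {C : CoxeterMatrix I} {W : Type*} [Group W] {cs : CoxeterSystem C W}
  (D : Datum p F G cs)

theorem B_le_P (K : Set I) : D.B ≤ D.P K := le_sup_left

theorem s_mem_P {K : Set I} {i : I} (hi : i ∈ K) : D.s i ∈ D.P K :=
  (le_sup_right : _ ≤ D.P K) (Subgroup.subset_closure ⟨i, hi, rfl⟩)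

theorem P_mono {K L : Set I} (h : K ⊆ L) : D.P K ≤ D.P L :=
  sup_le_sup_left (Subgroup.closure_mono (Set.image_mono h)) D.B

theorem P_empty : D.P ∅ = D.B := by
  unfold P
  rw [Set.image_empty, Subgroup.closure_empty, sup_bot_eq]

private theorem A2_s_inv (i : I) : (D.s i)⁻¹ = D.s i * D.φ i (dg (-1)) := by
  unfold s
  rw [← map_inv, A2_wt_inv, map_mul]

/-- Induction for `P K`. -/
private theorem A2_induction {K : Set I} (q : G → Prop) (h1 : q 1)
    (hB : ∀ g, q g → ∀ b ∈ D.B, q (g * b)) (hs : ∀ g, q g → ∀ i ∈ K, q (g * D.s i)) {g : G}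
    (hg : g ∈ D.P K) : q g := by
  have hP : D.P K = Subgroup.closure ((D.B : Set G) ∪ D.s '' K) := by
    unfold P
    rw [Subgroup.closure_union, Subgroup.closure_eq]
  rw [hP] at hg
  induction hg using Subgroup.closure_induction_right with
  | one => exact h1
  | mul_right x hx y hy ih =>
    rcases hy with hy | ⟨i, hi, rfl⟩
    · exact hB x ih y hy
    · exact hs x ih i hi
  | mul_inv_cancel x hx y hy ih =>
    rcases hy with hy | ⟨i, hi, rfl⟩
    · exact hB x ih y⁻¹ (D.B.inv_mem hy)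
    · rw [A2_s_inv, ← mul_assoc]
      exact hB _ (hs x ih i hi) _ (Subgroup.mem_sup_left (D.φ_dg i _))

theorem pos_mem_WJ {K : Set I} {g : G} (hg : g ∈ D.P K) : D.pos g ∈ D.WJ K := by
  refine D.A2_induction (fun g => D.pos g ∈ D.WJ K) ?_ ?_ ?_ hg
  · rw [(D.pos_eq_one_iff 1).2 D.B.one_mem]
    exact (D.WJ K).one_mem
  · intro g hg b hb
    rwa [D.pos_mul_right hb]
  · intro g hg i hi
    have h := D.pos_mul_s g D.B.one_mem i
    rw [mul_one] at h
    rcases h with h | h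
    · rwa [h]
    · rw [h]
      exact (D.WJ K).mul_mem hg (Subgroup.subset_closure ⟨i, hi, rfl⟩)

theorem pos_mul {g h : G}
    (hl : cs.length (D.pos g * D.pos h) = cs.length (D.pos g) + cs.length (D.pos h)) :
    D.pos (g * h) = D.pos g * D.pos h := by
  obtain ⟨m, hm⟩ : ∃ m, cs.length (D.pos h) = m := ⟨_, rfl⟩
  induction m generalizing h with
  | zero =>
    have h1 : D.pos h = 1 := cs.length_eq_zero_iff.1 hm
    rw [D.pos_mul_right ((D.pos_eq_one_iff h).1 h1), h1, mul_one]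
  | succ m ih =>
    have h1 : D.pos h ≠ 1 := by
      intro h1
      rw [h1, cs.length_one] at hm
      exact absurd hm (by omega)
    obtain ⟨i, hi⟩ := cs.exists_rightDescent_of_ne_one h1
    obtain ⟨b, hb, n, b', hb', hn, hh⟩ := D.pos_spec h
    obtain ⟨si, hsi⟩ : ∃ si : D.N, si = ⟨D.φ i wt, D.φ_wt i⟩ := ⟨_, rfl⟩
    have hsi1 : (si : G) = D.s i := by rw [hsi]; rfl
    have hsi2 : D.ν si = cs.simple i := by rw [hsi]; exact D.ν_wt i
    have hpos1 : D.pos (b * ((n * si⁻¹ : D.N) : G)) = D.pos h * cs.simple i := by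
      rw [D.pos_mul_left hb, D.pos_N, map_mul, map_inv, hsi2, hn, cs.inv_simple]
    have hlen1 : cs.length (D.pos h * cs.simple i) + 1 = cs.length (D.pos h) :=
      cs.isRightDescent_iff.1 hi
    have hlen2 : cs.length (D.pos g * D.pos h) ≤ cs.length (D.pos g * D.pos h * cs.simple i) + 1 := by
      rcases cs.length_mul_simple (D.pos g * D.pos h) i with h2 | h2
      · omega
      · omega
    have hlen3 : cs.length (D.pos g * (D.pos h * cs.simple i)) ≤
        cs.length (D.pos g) + cs.length (D.pos h * cs.simple i) := cs.length_mul_le _ _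
    rw [← mul_assoc] at hlen3
    have hIH := ih (h := b * ((n * si⁻¹ : D.N) : G)) (by
      rw [hpos1, ← mul_assoc]
      omega) (by
      rw [hpos1]
      omega)
    rw [hpos1, ← mul_assoc (D.pos g)] at hIH
    have hasc : ¬ cs.IsRightDescent (D.pos (g * (b * ((n * si⁻¹ : D.N) : G)))) i := by
      rw [hIH]
      intro h2
      have h3 := cs.isRightDescent_iff.1 h2
      rw [mul_assoc, cs.simple_mul_simple_self, mul_one] at h3
      omega
    have h4 : g * h = g * (b * ((n * si⁻¹ : D.N) : G)) * 1 * D.s i * b' := by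
      rw [hh, Subgroup.coe_mul, Subgroup.coe_inv, hsi1]
      group
    rw [h4, D.pos_mul_right hb', D.pos_mul_s_of_ascent D.B.one_mem hasc, hIH, mul_assoc,
      cs.simple_mul_simple_self, mul_one]

theorem length_lt_of_mem_P {K : Set I} {g h : G} (hg : ∀ i ∈ K, ¬ cs.IsRightDescent (D.pos g) i)
    (hh : h ∈ D.P K) (hB : h ∉ D.B) : cs.length (D.pos g) < cs.length (D.pos (g * h)) := by
  have h1 : cs.length (D.pos g * D.pos h) = cs.length (D.pos g) + cs.length (D.pos h) :=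
    length_mul_of_ascents cs K hg (D.pos_mem_WJ hh)
  rw [D.pos_mul h1, h1]
  have h2 : cs.length (D.pos h) ≠ 0 := fun h3 =>
    hB ((D.pos_eq_one_iff h).1 (cs.length_eq_zero_iff.1 h3))
  omega

theorem φ_mem_P {K : Set I} {i : I} (hi : i ∈ K) (x : SpecialLinearGroup (Fin 2) F) :
    D.φ i x ∈ D.P K := by
  have hup : ∀ a : F, D.φ i (up a) ∈ D.P K := fun a =>
    D.B_le_P K (Subgroup.mem_sup_right (D.φ_up i a))
  have hdg : ∀ c : Fˣ, D.φ i (dg c) ∈ D.P K := fun c =>
    D.B_le_P K (Subgroup.mem_sup_left (D.φ_dg i c))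
  rcases A2_cases x with ⟨c, e, rfl⟩ | ⟨r, t, e, rfl⟩
  · rw [map_mul]
    exact (D.P K).mul_mem (hdg c) (hup e)
  · rw [map_mul, map_mul, map_mul]
    exact (D.P K).mul_mem ((D.P K).mul_mem (hup r) (D.s_mem_P hi))
      ((D.P K).mul_mem (hdg t) (hup e))

theorem mem_P_singleton {i : I} {g : G} (hg : g ∈ D.P {i}) :
    g ∈ D.B ∨ ∃ a : F, ∃ b ∈ D.B, g = D.φ i (up a) * D.s i * b := by
  have hup : ∀ a : F, D.φ i (up a) ∈ D.B := fun a => Subgroup.mem_sup_right (D.φ_up i a)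
  have hdg : ∀ c : Fˣ, D.φ i (dg c) ∈ D.B := fun c => Subgroup.mem_sup_left (D.φ_dg i c)
  have key : ∃ x : SpecialLinearGroup (Fin 2) F, ∃ b ∈ D.B, g = D.φ i x * b := by
    refine D.A2_induction (fun g => ∃ x : SpecialLinearGroup (Fin 2) F, ∃ b ∈ D.B,
      g = D.φ i x * b) ?_ ?_ ?_ hg
    · exact ⟨1, 1, D.B.one_mem, by rw [map_one, mul_one]⟩
    · rintro _ ⟨x, b, hb, rfl⟩ b' hb'
      exact ⟨x, b * b', D.B.mul_mem hb hb', mul_assoc _ _ _⟩
    · rintro _ ⟨x, b, hb, rfl⟩ j hj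
      rw [Set.mem_singleton_iff] at hj
      subst hj
      obtain ⟨t, ht, u, hu, rfl⟩ := D.mem_B.1 hb
      obtain ⟨c, u', hu', rfl, hu''⟩ := D.split j u hu
      have h1 := D.conj_φ j ⟨t, ht⟩ (up c * wt)
      refine ⟨x * tw (D.α j ⟨t, ht⟩) (up c * wt), t * ((D.φ j wt)⁻¹ * u' * D.φ j wt),
        D.B.mul_mem (Subgroup.mem_sup_left ht) (Subgroup.mem_sup_right hu''), ?_⟩
      rw [map_mul, ← h1, map_mul]
      unfold s
      change _ = D.φ j x * (t * (D.φ j (up c) * D.φ j wt) * t⁻¹) *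
        (t * ((D.φ j wt)⁻¹ * u' * D.φ j wt))
      group
  obtain ⟨x, b, hb, rfl⟩ := key
  rcases A2_cases x with ⟨c, e, rfl⟩ | ⟨r, t, e, rfl⟩
  · left
    rw [map_mul]
    exact D.B.mul_mem (D.B.mul_mem (hdg c) (hup e)) hb
  · right
    refine ⟨r, D.φ i (dg t * up e) * b, D.B.mul_mem ?_ hb, ?_⟩
    · rw [map_mul]
      exact D.B.mul_mem (hdg t) (hup e)
    · rw [map_mul, map_mul, ← mul_assoc]
      rfl

theorem up_s_inj (i : I) {a a' : F} {b : G} (hb : b ∈ D.B)
    (h : D.φ i (up a) * D.s i = D.φ i (up a') * D.s i * b) : a = a' := by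
  by_contra hne
  have hup : ∀ a : F, D.φ i (up a) ∈ D.B := fun a => Subgroup.mem_sup_right (D.φ_up i a)
  have hdg : ∀ c : Fˣ, D.φ i (dg c) ∈ D.B := fun c => Subgroup.mem_sup_left (D.φ_dg i c)
  have he : -(a - a') ≠ 0 := by
    rw [neg_ne_zero]
    exact sub_ne_zero.2 hne
  have h1 : D.φ i (lo (-(a - a'))) = b := by
    rw [← A2_conj_up, ← A2_up_sub, map_mul, map_mul, map_mul, map_inv, map_inv]
    have h2 : D.φ i wt = D.s i := rfl
    rw [h2, mul_assoc, mul_assoc, h]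
    group
  have h3 := congrArg (D.φ i) (A2_lo (Units.mk0 _ he))
  rw [map_mul, map_mul, map_mul, map_inv, map_inv] at h3
  apply D.s_not_mem_B i
  change D.φ i wt ∈ D.B
  rw [h3]
  refine D.B.mul_mem (D.B.mul_mem (D.B.mul_mem (D.B.inv_mem (hup _)) ?_) (D.B.inv_mem (hup _)))
    (D.B.inv_mem (hdg _))
  change D.φ i (lo (-(a - a'))) ∈ D.B
  rw [h1]
  exact hb

end Datum

end Pool.Agent.Helper89.SX
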