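import Mathlib
import Pool.Agent.Helper89.SX.St.A2

/-!
# SX-A3: the extension of `θ` to `P_K`

Let `K ⊆ I(θ)`, `T_K` the subgroup generated by the `T ∩ G_i`, `i ∈ K` (so `θ = 1` on `T_K`),
`N_K` the subgroup generated by the `s_i`, `i ∈ K`, and `R` the subgroup generated by `U` and the
`G_i = φ_i(SL₂)`, `i ∈ K`.
(1) `N_K` normalises `T_K`: for `t ∈ T`, `s_j t s_j⁻¹ t⁻¹ ∈ T ∩ G_j` (`conj_φ`).
(2) Every element of `R` has the form `u₁ t n u₂`, `u₁, u₂ ∈ U`, `t ∈ T_K`, `n ∈ N_K`: this set `X`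
contains `1` and is stable under right multiplication by `U`, by `φ_i(dg c)`, and by `s_i^{±1}`
(`i ∈ K`): for `u₁ t n u₂ s_i` write `u₂ = φ(up a) u'` (`split`); if `i` is not a right descent of
`ν n` use `conj_pos`; if it is and `a ≠ 0` use `up_mul_s` and `conj_lo`; `T` normalises `U`.
(Every element of `SL₂(F)` is a product of matrices `up a`, `dg c`, `wt^{±1}`.)
(3) `R ∩ T ⊆ T_K`: if `u₁ t n u₂ ∈ T` then `n ∈ B ∩ N = T` (`N_mem_B`), so
`n ∈ T ∩ G_K ⊆ T_K` (`T_inf_GJ`), and `t n ∈ T`, `u₁ (t n) u₂ ∈ T` gives `u₁ (t n) u₂ = t n`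
(uniqueness in `B = T U`, `T_inf_U`).
(4) `T` normalises `R`, `P K = T R`; choose for every `g ∈ P K` a `t(g) ∈ T` with
`t(g)⁻¹ g ∈ R` and put `χ(g) = θ(t(g))`; well defined and multiplicative by (3).
-/

set_option autoImplicit false

namespace Pool.Agent.Helper89.SX

open Matrix MonoidAlgebra

private theorem A3_wt_inv {F : Type*} [Field F] : (wt : SpecialLinearGroup (Fin 2) F)⁻¹ =
    wt * dg (-1) := by
  rw [inv_eq_iff_mul_eq_one]
  ext i j
  fin_cases i <;> fin_cases j <;> simp [wt, dg, Matrix.mul_apply, Fin.sum_univ_two]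

private theorem A3_up_zero {F : Type*} [Field F] : (up (0 : F)) = 1 := by
  ext i j
  fin_cases i <;> fin_cases j <;> simp [up]

private theorem A3_dg_inv {F : Type*} [Field F] (c : Fˣ) : (dg c)⁻¹ = dg c⁻¹ := by
  rw [inv_eq_iff_mul_eq_one]
  ext i j
  fin_cases i <;> fin_cases j <;> simp [dg, Matrix.mul_apply, Fin.sum_univ_two]

private theorem A3_decomp {F : Type*} [Field F] (x : SpecialLinearGroup (Fin 2) F) :
    (∃ (a : F) (c : Fˣ) (b : F), x = up a * wt * dg c * up b) ∨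
      (∃ (c : Fˣ) (b : F), x = dg c * up b) := by
  have hdet := x.2
  rw [Matrix.det_fin_two] at hdet
  by_cases hc : x 1 0 = 0
  · right
    have h1 : x 0 0 * x 1 1 = 1 := by
      have := hdet
      have e : (x : Matrix (Fin 2) (Fin 2) F) 1 0 = 0 := hc
      rw [e] at this
      simpa using this
    have h00 : x 0 0 ≠ 0 := left_ne_zero_of_mul_eq_one h1
    have h11 : x 1 1 = (x 0 0)⁻¹ := eq_inv_of_mul_eq_one_right h1
    refine ⟨Units.mk0 _ h00, x 0 1 / x 0 0, ?_⟩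
    ext i j
    fin_cases i <;> fin_cases j
    · simp [dg, up, Matrix.mul_apply, Fin.sum_univ_two]
    · simp [dg, up, Matrix.mul_apply, Fin.sum_univ_two]
      field_simp
    · simpa [dg, up, Matrix.mul_apply, Fin.sum_univ_two] using hc
    · simpa [dg, up, Matrix.mul_apply, Fin.sum_univ_two] using h11
  · left
    refine ⟨x 0 0 / x 1 0, -(Units.mk0 _ hc), x 1 1 / x 1 0, ?_⟩
    ext i j
    fin_cases i <;> fin_cases j
    · simp [dg, up, wt, Matrix.mul_apply, Fin.sum_univ_two]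
      field_simp
    · simp [dg, up, wt, Matrix.mul_apply, Fin.sum_univ_two]
      have := hdet
      field_simp
      linear_combination (-1 : F) * this
    · simp [dg, up, wt, Matrix.mul_apply, Fin.sum_univ_two]
    · simp [dg, up, wt, Matrix.mul_apply, Fin.sum_univ_two]
      field_simp

namespace Datum

variable {p : ℕ} [Fact p.Prime] {F : Type*} [Field F] [CharP F p] {G : Type*} [Group G]
  {I : Type*} {C : CoxeterMatrix I} {W : Type*} [Group W] {cs : CoxeterSystem C W}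
  (D : Datum p F G cs) {κ : Type*} [Field κ]

/-- `χ` extends `θ` and is trivial on `U` and on the `G_i`, `i ∈ K`. -/
structure Extends (θ : D.T →* κˣ) {K : Set I} (χ : D.P K →* κˣ) : Prop where
  apply_T : ∀ (t : G) (h : t ∈ D.P K) (h' : t ∈ D.T), χ ⟨t, h⟩ = θ ⟨t, h'⟩
  apply_U : ∀ (u : G) (h : u ∈ D.P K), u ∈ D.U → χ ⟨u, h⟩ = 1
  apply_φ : ∀ i ∈ K, ∀ (x : SpecialLinearGroup (Fin 2) F) (h : D.φ i x ∈ D.P K),
    χ ⟨D.φ i x, h⟩ = 1

/-- The subgroup `T_K`. -/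
private def TK (K : Set I) : Subgroup G := ⨆ i ∈ K, (D.T ⊓ (D.φ i).range)

private def NK (K : Set I) : Subgroup G := Subgroup.closure (D.s '' K)

private def RS (K : Set I) : Set G :=
  (D.U : Set G) ∪ {x | ∃ i ∈ K, ∃ c : Fˣ, x = D.φ i (dg c)} ∪ {x | ∃ i ∈ K, x = D.s i}

private def RK (K : Set I) : Subgroup G := Subgroup.closure (D.RS K)

private theorem TK_le_T (K : Set I) : D.TK K ≤ D.T :=
  iSup₂_le fun _ _ => inf_le_left

private theorem mem_TK {K : Set I} {i : I} (hi : i ∈ K) {t : G} (ht : t ∈ D.T)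
    (h : t ∈ (D.φ i).range) : t ∈ D.TK K :=
  (le_iSup₂_of_le i hi le_rfl : D.T ⊓ (D.φ i).range ≤ D.TK K) ⟨ht, h⟩

private theorem NK_le_N (K : Set I) : D.NK K ≤ D.N := by
  rw [NK, Subgroup.closure_le]
  rintro _ ⟨i, -, rfl⟩
  exact D.φ_wt i

private theorem NK_le_GJ (K : Set I) : D.NK K ≤ D.GJ K := by
  rw [NK, Subgroup.closure_le]
  rintro _ ⟨i, hi, rfl⟩
  exact (le_iSup₂_of_le i hi le_rfl : (D.φ i).range ≤ D.GJ K) ⟨wt, rfl⟩

private theorem s_conj {j : I} {t : G} (ht : t ∈ D.T) :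
    ∃ y ∈ D.T, y ∈ (D.φ j).range ∧ D.s j * t * (D.s j)⁻¹ = y * t := by
  have h1 : D.s j * t * (D.s j)⁻¹ ∈ D.T := D.N_conj_T ⟨D.s j, D.φ_wt j⟩ ht
  refine ⟨D.s j * t * (D.s j)⁻¹ * t⁻¹, D.T.mul_mem h1 (D.T.inv_mem ht), ?_, by group⟩
  have h2 := D.conj_φ j ⟨t, ht⟩ (wt⁻¹)
  refine ⟨wt * tw (D.α j ⟨t, ht⟩) wt⁻¹, ?_⟩
  rw [map_mul, ← h2, map_inv]
  simp only [s]
  group

private theorem s_conj' {j : I} {t : G} (ht : t ∈ D.T) :
    ∃ y ∈ D.T, y ∈ (D.φ j).range ∧ (D.s j)⁻¹ * t * D.s j = y * t := by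
  have h1 : (D.s j)⁻¹ * t * D.s j ∈ D.T := by
    have := D.N_conj_T ⟨(D.s j)⁻¹, D.N.inv_mem (D.φ_wt j)⟩ ht
    simpa using this
  refine ⟨(D.s j)⁻¹ * t * D.s j * t⁻¹, D.T.mul_mem h1 (D.T.inv_mem ht), ?_, by group⟩
  have h2 := D.conj_φ j ⟨t, ht⟩ wt
  refine ⟨wt⁻¹ * tw (D.α j ⟨t, ht⟩) wt, ?_⟩
  rw [map_mul, ← h2, map_inv]
  simp only [s]
  group

private theorem NK_conj {K : Set I} {n : G} (hn : n ∈ D.NK K) :
    ∀ t ∈ D.TK K, n * t * n⁻¹ ∈ D.TK K := by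
  have key : D.NK K ≤ Subgroup.normalizer (D.TK K : Set G) := by
    rw [NK, Subgroup.closure_le]
    rintro _ ⟨j, hj, rfl⟩
    rw [SetLike.mem_coe, Subgroup.mem_normalizer_iff]
    intro t
    constructor
    · intro ht
      obtain ⟨y, hy, hy', e⟩ := D.s_conj (j := j) (D.TK_le_T K ht)
      rw [e]
      exact mul_mem (D.mem_TK hj hy hy') ht
    · intro ht
      change D.s j * t * (D.s j)⁻¹ ∈ D.TK K at ht
      obtain ⟨y, hy, hy', e⟩ := D.s_conj' (j := j) (D.TK_le_T K ht)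
      have : t = y * (D.s j * t * (D.s j)⁻¹) := by rw [← e]; group
      change t ∈ D.TK K
      rw [this]
      exact mul_mem (D.mem_TK hj hy hy') ht
  intro t ht
  exact (Subgroup.mem_normalizer_iff.1 (key hn) t).1 ht

/-- The set `X = U T_K N_K U`. -/
private def XK (K : Set I) (g : G) : Prop :=
  ∃ u₁ ∈ D.U, ∃ t ∈ D.TK K, ∃ n ∈ D.NK K, ∃ u₂ ∈ D.U, g = u₁ * t * n * u₂

private theorem XK_mul_U {K : Set I} {g u : G} (hg : D.XK K g) (hu : u ∈ D.U) :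
    D.XK K (g * u) := by
  obtain ⟨u₁, h1, t, ht, n, hn, u₂, h2, rfl⟩ := hg
  exact ⟨u₁, h1, t, ht, n, hn, u₂ * u, mul_mem h2 hu, by group⟩

private theorem XK_mul_dg {K : Set I} {g : G} {i : I} (hi : i ∈ K) (c : Fˣ) (hg : D.XK K g) :
    D.XK K (g * D.φ i (dg c)) := by
  obtain ⟨u₁, h1, t, ht, n, hn, u₂, h2, rfl⟩ := hg
  have hτ : D.φ i (dg c) ∈ D.TK K := D.mem_TK hi (D.φ_dg i c) ⟨_, rfl⟩
  refine ⟨u₁, h1, t * (n * D.φ i (dg c) * n⁻¹), mul_mem ht (D.NK_conj hn _ hτ), n, hn,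
    (D.φ i (dg c))⁻¹ * u₂ * D.φ i (dg c), D.conj_U' (D.φ_dg i c) h2, by group⟩

private theorem XK_left {K : Set I} {u₁ t n u v : G} (h1 : u₁ ∈ D.U) (ht : t ∈ D.TK K)
    (hu : n * u * n⁻¹ ∈ D.U) (h : ∀ u₁ ∈ D.U, D.XK K (u₁ * t * n * v)) :
    D.XK K (u₁ * t * n * (u * v)) := by
  have h3 := h (u₁ * (t * (n * u * n⁻¹) * t⁻¹)) (mul_mem h1 (D.conj_U t (D.TK_le_T K ht) _ hu))
  have e : u₁ * (t * (n * u * n⁻¹) * t⁻¹) * t * n * v = u₁ * t * n * (u * v) := by group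
  rwa [e] at h3

private theorem XK_mul_s {K : Set I} {g : G} {i : I} (hi : i ∈ K) (hg : D.XK K g) :
    D.XK K (g * D.s i) := by
  obtain ⟨u₁, h1, t, ht, n, hn, u₂, h2, rfl⟩ := hg
  obtain ⟨a, u', hu', rfl, hs⟩ := D.split i u₂ h2
  have hnN : n ∈ D.N := D.NK_le_N K hn
  have hsK : D.s i ∈ D.NK K := Subgroup.subset_closure ⟨i, hi, rfl⟩
  have e0 : u₁ * t * n * (D.φ i (up a) * u') * D.s i =
      u₁ * t * n * (D.φ i (up a) * D.s i) * ((D.s i)⁻¹ * u' * D.s i) := by group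
  rw [e0]
  refine D.XK_mul_U ?_ hs
  by_cases hd : cs.IsRightDescent (D.ν ⟨n, hnN⟩) i
  · by_cases ha : a = 0
    · subst ha
      rw [A3_up_zero, map_one, one_mul]
      exact ⟨u₁, h1, t, ht, n * D.s i, mul_mem hn hsK, 1, one_mem _, by group⟩
    · have e1 := D.up_mul_s i (Units.mk0 a ha)
      rw [Units.val_mk0] at e1
      rw [e1, mul_assoc (D.φ i (lo _))]
      refine D.XK_left h1 ht (D.conj_lo ⟨n, hnN⟩ i hd _) ?_
      intro u₁ h1
      have h4 : D.XK K (u₁ * t * n) := ⟨u₁, h1, t, ht, n, hn, 1, one_mem _, by group⟩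
      rw [← mul_assoc]
      exact D.XK_mul_U (D.XK_mul_dg hi _ h4) (D.φ_up i _)
  · refine D.XK_left h1 ht (D.conj_pos ⟨n, hnN⟩ i hd a) ?_
    intro u₁ h1
    exact ⟨u₁, h1, t, ht, n * D.s i, mul_mem hn hsK, 1, one_mem _, by group⟩

private theorem XK_of_RK {K : Set I} {g : G} (hg : g ∈ D.RK K) : D.XK K g := by
  have hinv : ∀ i ∈ K, ∀ g, D.XK K g → D.XK K (g * (D.s i)⁻¹) := by
    intro i hi g hg
    have : g * (D.s i)⁻¹ = g * D.s i * D.φ i (dg (-1)) := by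
      simp only [s]
      rw [← map_inv, A3_wt_inv, map_mul, mul_assoc]
    rw [this]
    exact D.XK_mul_dg hi _ (D.XK_mul_s hi hg)
  refine Subgroup.closure_induction_right (p := fun g _ => D.XK K g) ?_ ?_ ?_ hg
  · exact ⟨1, one_mem _, 1, one_mem _, 1, one_mem _, 1, one_mem _, by group⟩
  · rintro x - y hy hx
    rcases hy with (hy | ⟨i, hi, c, rfl⟩) | ⟨i, hi, rfl⟩
    · exact D.XK_mul_U hx hy
    · exact D.XK_mul_dg hi c hx
    · exact D.XK_mul_s hi hx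
  · rintro x - y hy hx
    rcases hy with (hy | ⟨i, hi, c, rfl⟩) | ⟨i, hi, rfl⟩
    · exact D.XK_mul_U hx (inv_mem hy)
    · rw [← map_inv, A3_dg_inv]
      exact D.XK_mul_dg hi _ hx
    · exact hinv i hi _ hx

private theorem RK_inf_T {K : Set I} {g : G} (hg : g ∈ D.RK K) (hT : g ∈ D.T) : g ∈ D.TK K := by
  obtain ⟨u₁, h1, t, ht, n, hn, u₂, h2, e⟩ := D.XK_of_RK hg
  have htT := D.TK_le_T K ht
  have hTB : D.T ≤ D.B := le_sup_left
  have hUB : D.U ≤ D.B := le_sup_right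
  have hnB : n ∈ D.B := by
    have : n = t⁻¹ * u₁⁻¹ * g * u₂⁻¹ := by rw [e]; group
    rw [this]
    exact mul_mem (mul_mem (mul_mem (inv_mem (hTB htT)) (inv_mem (hUB h1))) (hTB hT))
      (inv_mem (hUB h2))
  have hnT := D.N_mem_B (D.NK_le_N K hn) hnB
  have hnK : n ∈ D.TK K := D.T_inf_GJ K ⟨hnT, D.NK_le_GJ K hn⟩
  have hτ : t * n ∈ D.TK K := mul_mem ht hnK
  have hτT := D.TK_le_T K hτ
  have e2 : g = t * n * ((t * n)⁻¹ * u₁ * (t * n) * u₂) := by rw [e]; group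
  have h3 : (t * n)⁻¹ * u₁ * (t * n) * u₂ ∈ D.U := mul_mem (D.conj_U' hτT h1) h2
  have h4 : (t * n)⁻¹ * u₁ * (t * n) * u₂ ∈ D.T := by
    have : (t * n)⁻¹ * u₁ * (t * n) * u₂ = (t * n)⁻¹ * g := by rw [e]; group
    rw [this]
    exact mul_mem (inv_mem hτT) hT
  rw [e2, D.T_inf_U _ h4 h3, mul_one]
  exact hτ

private theorem φ_mem_RK {K : Set I} {i : I} (hi : i ∈ K) (x : SpecialLinearGroup (Fin 2) F) :
    D.φ i x ∈ D.RK K := by
  have hup : ∀ a, D.φ i (up a) ∈ D.RK K := fun a =>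
    Subgroup.subset_closure (Or.inl (Or.inl (D.φ_up i a)))
  have hdg : ∀ c, D.φ i (dg c) ∈ D.RK K := fun c =>
    Subgroup.subset_closure (Or.inl (Or.inr ⟨i, hi, c, rfl⟩))
  have hs : D.φ i wt ∈ D.RK K := Subgroup.subset_closure (Or.inr ⟨i, hi, rfl⟩)
  rcases A3_decomp x with ⟨a, c, b, rfl⟩ | ⟨c, b, rfl⟩
  · simp only [map_mul]
    exact mul_mem (mul_mem (mul_mem (hup a) hs) (hdg c)) (hup b)
  · simp only [map_mul]
    exact mul_mem (hdg c) (hup b)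

private theorem T_conj_RK {K : Set I} {t r : G} (ht : t ∈ D.T) (hr : r ∈ D.RK K) :
    t * r * t⁻¹ ∈ D.RK K := by
  have : D.RK K ≤ (D.RK K).comap (MulAut.conj t).toMonoidHom := by
    conv_lhs => rw [RK]
    rw [Subgroup.closure_le]
    rintro y hy
    change t * y * t⁻¹ ∈ D.RK K
    rcases hy with (hy | ⟨i, hi, c, rfl⟩) | ⟨i, hi, rfl⟩
    · exact Subgroup.subset_closure (Or.inl (Or.inl (D.conj_U t ht y hy)))
    · rw [D.conj_φ i ⟨t, ht⟩]
      exact D.φ_mem_RK hi _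
    · rw [s, D.conj_φ i ⟨t, ht⟩]
      exact D.φ_mem_RK hi _
  exact this hr

private theorem T_conj_RK' {K : Set I} {t r : G} (ht : t ∈ D.T) (hr : r ∈ D.RK K) :
    t⁻¹ * r * t ∈ D.RK K := by
  simpa using D.T_conj_RK (inv_mem ht) hr

private theorem U_mem_RK {K : Set I} {u : G} (hu : u ∈ D.U) : u ∈ D.RK K :=
  Subgroup.subset_closure (Or.inl (Or.inl hu))

private theorem exists_T_RK {K : Set I} {g : G} (hg : g ∈ D.P K) :
    ∃ t : D.T, (t : G)⁻¹ * g ∈ D.RK K := by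
  let Q : Subgroup G :=
    { carrier := {g | ∃ t : D.T, (t : G)⁻¹ * g ∈ D.RK K}
      one_mem' := ⟨1, by simp⟩
      mul_mem' := by
        rintro a b ⟨t, ht⟩ ⟨t', ht'⟩
        refine ⟨t * t', ?_⟩
        have : ((t * t' : D.T) : G)⁻¹ * (a * b) =
            ((t' : G)⁻¹ * ((t : G)⁻¹ * a) * t') * ((t' : G)⁻¹ * b) := by
          push_cast; group
        rw [this]
        exact mul_mem (D.T_conj_RK' t'.2 ht) ht'
      inv_mem' := by
        rintro a ⟨t, ht⟩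
        refine ⟨t⁻¹, ?_⟩
        have : ((t⁻¹ : D.T) : G)⁻¹ * a⁻¹ = (t : G) * ((t : G)⁻¹ * a)⁻¹ * (t : G)⁻¹ := by
          push_cast; group
        rw [this]
        exact D.T_conj_RK t.2 (inv_mem ht) }
  have hle : D.P K ≤ Q := by
    refine sup_le (sup_le ?_ ?_) ?_
    · intro t ht
      exact ⟨⟨t, ht⟩, by simp⟩
    · intro u hu
      exact ⟨1, by simpa using D.U_mem_RK hu⟩
    · rw [Subgroup.closure_le]
      rintro _ ⟨i, hi, rfl⟩
      exact ⟨1, by simpa [s] using D.φ_mem_RK hi wt⟩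
  exact hle hg

private theorem θ_TK (θ : D.T →* κˣ) {K : Set I} (hK : K ⊆ D.Iθ θ) (t : D.T)
    (ht : (t : G) ∈ D.TK K) : θ t = 1 := by
  have hle : D.TK K ≤ θ.ker.map D.T.subtype := by
    refine iSup₂_le fun i hi => ?_
    rintro x ⟨hx, hx'⟩
    exact ⟨⟨x, hx⟩, hK hi ⟨x, hx⟩ hx', rfl⟩
  obtain ⟨t', ht', e⟩ := hle ht
  have : t' = t := Subtype.ext e
  subst this
  exact ht'

private theorem θ_eq (θ : D.T →* κˣ) {K : Set I} (hK : K ⊆ D.Iθ θ) {g : G} {t t' : D.T}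
    (h : (t : G)⁻¹ * g ∈ D.RK K) (h' : (t' : G)⁻¹ * g ∈ D.RK K) : θ t = θ t' := by
  have h1 : ((t⁻¹ * t' : D.T) : G) ∈ D.RK K := by
    have : ((t⁻¹ * t' : D.T) : G) = ((t : G)⁻¹ * g) * ((t' : G)⁻¹ * g)⁻¹ := by
      push_cast; group
    rw [this]
    exact mul_mem h (inv_mem h')
  have h2 := D.θ_TK θ hK _ (D.RK_inf_T h1 (t⁻¹ * t').2)
  rw [map_mul, map_inv] at h2
  exact (inv_mul_eq_one.1 h2)

/-- **SX-A3.** -/
theorem exists_extends (θ : D.T →* κˣ) {K : Set I} (hK : K ⊆ D.Iθ θ) :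
    ∃ χ : D.P K →* κˣ, D.Extends θ χ := by
  classical
  choose τ hτ using fun g : D.P K => D.exists_T_RK g.2
  let χ : D.P K →* κˣ := MonoidHom.mk' (fun g => θ (τ g)) (by
    intro a b
    rw [← map_mul]
    refine D.θ_eq θ hK (g := ((a * b : D.P K) : G)) (hτ (a * b)) ?_
    have : ((τ a * τ b : D.T) : G)⁻¹ * ((a * b : D.P K) : G) =
        ((τ b : G)⁻¹ * ((τ a : G)⁻¹ * a) * τ b) * ((τ b : G)⁻¹ * b) := by
      push_cast; group
    rw [this]
    exact mul_mem (D.T_conj_RK' (τ b).2 (hτ a)) (hτ b))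
  have hχ : ∀ (g : G) (h : g ∈ D.P K) (t : D.T), (t : G)⁻¹ * g ∈ D.RK K → χ ⟨g, h⟩ = θ t :=
    fun g h t ht => D.θ_eq θ hK (hτ ⟨g, h⟩) ht
  refine ⟨χ, ⟨?_, ?_, ?_⟩⟩
  · intro t h h'
    exact hχ t h ⟨t, h'⟩ (by simp)
  · intro u h hu
    rw [hχ u h 1 (by simpa using D.U_mem_RK hu), map_one]
  · intro i hi x h
    rw [hχ _ h 1 (by simpa using D.φ_mem_RK hi x), map_one]

/-- The restriction of an extension to a smaller parabolic subgroup is an extension. -/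
theorem Extends.restrict {D : Datum p F G cs} {θ : D.T →* κˣ} {K L : Set I} {χ : D.P L →* κˣ}
    (h : D.Extends θ χ) (hKL : K ⊆ L) :
    D.Extends θ (χ.comp (Subgroup.inclusion (D.P_mono hKL))) :=
  ⟨fun t _ h' => h.apply_T t _ h', fun u _ hu => h.apply_U u _ hu,
    fun i hi x _ => h.apply_φ i (hKL hi) x _⟩

/-- The values of an extension are values of `θ`: the set of `g` with `χ g` in the range of `θ` is
a subgroup containing `T`, `U` and the `s_i`, `i ∈ K`. -/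
theorem Extends.exists_T {D : Datum p F G cs} {θ : D.T →* κˣ} {K : Set I} {χ : D.P K →* κˣ}
    (h : D.Extends θ χ) (g : D.P K) : ∃ t : D.T, χ g = θ t := by
  have hTP : D.T ≤ D.P K := le_trans (le_sup_left : D.T ≤ D.B) le_sup_left
  have hUP : D.U ≤ D.P K := le_trans (le_sup_right : D.U ≤ D.B) le_sup_left
  have hle : D.P K ≤ (θ.range.comap χ).map (D.P K).subtype := by
    conv_lhs => rw [P, B]
    refine sup_le (sup_le ?_ ?_) ?_
    · intro t ht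
      exact ⟨⟨t, hTP ht⟩, ⟨⟨t, ht⟩, (h.apply_T t (hTP ht) ht).symm⟩, rfl⟩
    · intro u hu
      exact ⟨⟨u, hUP hu⟩, ⟨1, by rw [map_one, h.apply_U u (hUP hu) hu]⟩, rfl⟩
    · rw [Subgroup.closure_le]
      rintro _ ⟨i, hi, rfl⟩
      exact ⟨⟨D.s i, D.s_mem_P hi⟩,
        ⟨1, by rw [map_one]; exact (h.apply_φ i hi wt (D.s_mem_P hi)).symm⟩, rfl⟩
  obtain ⟨g', ⟨t, ht⟩, e⟩ := hle g.2
  have : g' = g := Subtype.ext e
  subst this
  exact ⟨t, ht.symm⟩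

end Datum

end Pool.Agent.Helper89.SX
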