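import Mathlib
import Pool.Agent.Helper89.SX.St.A3

/-!
# SX-B1: the maps `Psi`

Hints.  `Psi P χ c x = ∑_g c(g) dl P χ (g⁻¹ x)`; `MonoidAlgebra.induction_linear`.
* `Psi_ind`: the set `{c | ∀ a, Psi (a * c) = 0}` is a left ideal; it contains the generators of
  `ind θ`: `Psi (a * (single b 1 - single 1 (θ b))) = 0` for `a = single g r`, since
  `dl P χ (b⁻¹ y) = χ(b) dl P χ y` fails in general, but `dl` of `(g b)⁻¹ x = b⁻¹ (g⁻¹ x)`:
  `dl P χ (b⁻¹ y) = χ(b) dl P χ y` for `b ∈ P` (`y ∈ P` iff `b⁻¹ y ∈ P`; `χ(b⁻¹ y)⁻¹ = χ(b) χ(y)⁻¹`).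
* `mem_ind_of_Psi`: choose a section `σ : G ⧸ B → G` (`Quotient.out`).  For `b ∈ B = P ∅`,
  `single b 1 - χ(b) • 1 ∈ ind θ` (write `b = t u`).  Hence modulo `ind θ`:
  `single g 1 = single (σ(gB)) 1 * single b 1 ≡ χ(b) • single (σ(gB)) 1` (`b = σ(gB)⁻¹ g`), and
  `c ≡ ∑_{cosets} Psi c (σ C) • single (σ C) 1`.  (Prove: for every finite set `S` of cosets
  containing the cosets of the support of `c`, `c - ∑_{C ∈ S} Psi c (σ C) • single (σ C) 1 ∈ ind θ`;
  or define the linear map `c ↦ c.sum (…)` and check on `single`.)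
-/

set_option autoImplicit false

namespace Pool.Agent.Helper89.SX

open Matrix MonoidAlgebra

section General

variable {G : Type*} [Group G] {κ : Type*} [Field κ] (P : Subgroup G) (χ : P →* κˣ)

theorem Psi_single (g : G) (a : κ) (x : G) :
    Psi P χ (single g a) x = a * dl P χ (g⁻¹ * x) := by
  simp [Psi, smul_eq_mul]

theorem dl_one : dl P χ 1 = 1 := by
  have h1 : (1 : G) ∈ P := P.one_mem
  have h2 : (⟨1, h1⟩ : P) = 1 := rfl
  rw [dl, dif_pos h1, h2, map_one]
  simp

theorem dl_mul_right (x : G) {g : G} (hg : g ∈ P) :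
    dl P χ (x * g) = (((χ ⟨g, hg⟩)⁻¹ : κˣ) : κ) * dl P χ x := by
  by_cases hx : x ∈ P
  · have hxg : x * g ∈ P := P.mul_mem hx hg
    have h2 : (⟨x * g, hxg⟩ : P) = ⟨x, hx⟩ * ⟨g, hg⟩ := rfl
    rw [dl, dl, dif_pos hxg, dif_pos hx, h2, map_mul, _root_.mul_inv_rev, Units.val_mul]
  · have hxg : x * g ∉ P := fun h => hx ((P.mul_mem_cancel_right hg).1 h)
    rw [dl, dl, dif_neg hxg, dif_neg hx, mul_zero]

theorem dl_mul_left (x : G) {g : G} (hg : g ∈ P) :
    dl P χ (g⁻¹ * x) = (χ ⟨g, hg⟩ : κ) * dl P χ x := by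
  by_cases hx : x ∈ P
  · have hxg : g⁻¹ * x ∈ P := P.mul_mem (P.inv_mem hg) hx
    have h2 : (⟨g⁻¹ * x, hxg⟩ : P) = ⟨g, hg⟩⁻¹ * ⟨x, hx⟩ := rfl
    rw [dl, dl, dif_pos hxg, dif_pos hx, h2, map_mul, map_inv, _root_.mul_inv_rev, inv_inv,
      Units.val_mul, mul_comm]
  · have hxg : g⁻¹ * x ∉ P := fun h => hx ((P.mul_mem_cancel_left (P.inv_mem hg)).1 h)
    rw [dl, dl, dif_neg hxg, dif_neg hx, mul_zero]

theorem dl_ne_zero_iff (x : G) : dl P χ x ≠ 0 ↔ x ∈ P := by
  by_cases hx : x ∈ P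
  · rw [dl, dif_pos hx]
    exact ⟨fun _ => hx, fun _ => Units.ne_zero _⟩
  · rw [dl, dif_neg hx]
    exact ⟨fun h => absurd rfl h, fun h => absurd h hx⟩

theorem Psi_single_mul (g : G) (c : MonoidAlgebra κ G) :
    Psi P χ (single g 1 * c) = lt g (Psi P χ c) := by
  induction c using MonoidAlgebra.induction_linear with
  | zero => rw [mul_zero, map_zero, map_zero]
  | add a b ha hb => rw [mul_add, map_add, map_add, ha, hb, map_add]
  | single h a =>
    rw [single_mul_single, one_mul]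
    funext x
    change Psi P χ (single (g * h) a) x = Psi P χ (single h a) (g⁻¹ * x)
    rw [Psi_single, Psi_single, _root_.mul_inv_rev, mul_assoc]

theorem Psi_mul_eq_zero (a : MonoidAlgebra κ G) {c : MonoidAlgebra κ G} (h : Psi P χ c = 0) :
    Psi P χ (a * c) = 0 := by
  induction a using MonoidAlgebra.induction_linear with
  | zero => rw [zero_mul, map_zero]
  | add a b ha hb => rw [add_mul, map_add, ha, hb, add_zero]
  | single g a =>
    have h1 : (single g a : MonoidAlgebra κ G) = a • single g 1 := by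
      rw [MonoidAlgebra.smul_single, smul_eq_mul, mul_one]
    rw [h1, smul_mul_assoc, map_smul, Psi_single_mul, h, map_zero, smul_zero]

theorem Psi_rightEq (c : MonoidAlgebra κ G) : RightEq P χ (Psi P χ c) := by
  induction c using MonoidAlgebra.induction_linear with
  | zero =>
    intro x g hg
    rw [map_zero]
    simp
  | add a b ha hb =>
    intro x g hg
    rw [map_add, Pi.add_apply, Pi.add_apply, ha x g hg, hb x g hg, mul_add]
  | single h a =>
    intro x g hg
    rw [Psi_single, Psi_single, ← mul_assoc, dl_mul_right P χ (h⁻¹ * x) hg]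
    ring

theorem Psi_finMod (c : MonoidAlgebra κ G) : FinMod P (Psi P χ c) := by
  classical
  induction c using MonoidAlgebra.induction_linear with
  | zero => exact ⟨∅, fun x hx => by rw [map_zero] at hx; exact absurd rfl hx⟩
  | add a b ha hb =>
    obtain ⟨S, hS⟩ := ha
    obtain ⟨S', hS'⟩ := hb
    refine ⟨S ∪ S', fun x hx => ?_⟩
    rw [map_add, Pi.add_apply] at hx
    by_cases h1 : Psi P χ a x = 0
    · have h2 : Psi P χ b x ≠ 0 := by
        intro h2
        rw [h1, h2, add_zero] at hx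
        exact hx rfl
      obtain ⟨y, hy, hyx⟩ := hS' x h2
      exact ⟨y, Finset.mem_union_right _ hy, hyx⟩
    · obtain ⟨y, hy, hyx⟩ := hS x h1
      exact ⟨y, Finset.mem_union_left _ hy, hyx⟩
  | single h a =>
    refine ⟨{h}, fun x hx => ⟨h, Finset.mem_singleton_self h, ?_⟩⟩
    rw [Psi_single] at hx
    exact (dl_ne_zero_iff P χ _).1 (right_ne_zero_of_mul hx)

end General

namespace Datum

variable {p : ℕ} [Fact p.Prime] {F : Type*} [Field F] [CharP F p] {G : Type*} [Group G]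
  {I : Type*} {C : CoxeterMatrix I} {W : Type*} [Group W] {cs : CoxeterSystem C W}
  (D : Datum p F G cs) {κ : Type*} [Field κ]

theorem Psi_ind {θ : D.T →* κˣ} {K : Set I} {χ : D.P K →* κˣ} (h : D.Extends θ χ)
    {c : MonoidAlgebra κ G} (hc : c ∈ D.ind θ) : Psi (D.P K) χ c = 0 := by
  induction hc using Submodule.span_induction with
  | mem x hx =>
    rcases hx with ⟨t, rfl⟩ | ⟨u, hu, rfl⟩
    · have htP : (t : G) ∈ D.P K := D.B_le_P K ((le_sup_left : D.T ≤ D.B) t.2)
      funext x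
      rw [map_sub, Pi.sub_apply, Psi_single, Psi_single, one_mul, inv_one, one_mul,
        dl_mul_left (D.P K) χ x htP, h.apply_T (t : G) htP t.2, Pi.zero_apply, sub_self]
    · have huP : u ∈ D.P K := D.B_le_P K ((le_sup_right : D.U ≤ D.B) hu)
      funext x
      rw [map_sub, Pi.sub_apply, Psi_single, Psi_single, one_mul, one_mul, inv_one, one_mul,
        dl_mul_left (D.P K) χ x huP, h.apply_U u huP hu, Pi.zero_apply]
      simp
  | zero => exact map_zero _
  | add x y _ _ hx hy => rw [map_add, hx, hy, add_zero]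
  | smul a x _ hx =>
    rw [smul_eq_mul]
    exact Psi_mul_eq_zero (D.P K) χ a hx

/-- Elements of `B` act by `θ` modulo `ind θ`. -/
private theorem B1_single_sub {θ : D.T →* κˣ} {χ : D.P (∅ : Set I) →* κˣ} (h : D.Extends θ χ)
    {b : G} (hb : b ∈ D.P (∅ : Set I)) :
    (single b 1 - single 1 ((χ ⟨b, hb⟩ : κˣ) : κ) : MonoidAlgebra κ G) ∈ D.ind θ := by
  have hbB : b ∈ D.B := by rw [← D.P_empty]; exact hb
  obtain ⟨t, ht, u, hu, rfl⟩ := D.mem_B.1 hbB
  have htP : t ∈ D.P (∅ : Set I) := D.B_le_P ∅ ((le_sup_left : D.T ≤ D.B) ht)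
  have huP : u ∈ D.P (∅ : Set I) := D.B_le_P ∅ ((le_sup_right : D.U ≤ D.B) hu)
  have h1 : χ ⟨t * u, hb⟩ = θ ⟨t, ht⟩ := by
    have h2 : (⟨t * u, hb⟩ : D.P (∅ : Set I)) = ⟨t, htP⟩ * ⟨u, huP⟩ := rfl
    rw [h2, map_mul, h.apply_T t htP ht, h.apply_U u huP hu, mul_one]
  rw [h1]
  have h3 : (single (t * u) 1 - single 1 ((θ ⟨t, ht⟩ : κˣ) : κ) : MonoidAlgebra κ G) =
      (single t 1 : MonoidAlgebra κ G) • (single u 1 - single 1 1 : MonoidAlgebra κ G) +
        (single t 1 - single 1 ((θ ⟨t, ht⟩ : κˣ) : κ)) := by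
    rw [smul_eq_mul, mul_sub, single_mul_single, single_mul_single, mul_one, mul_one]
    abel
  rw [h3]
  refine add_mem (Submodule.smul_mem _ _ (Submodule.subset_span (Or.inr ⟨u, hu, rfl⟩))) ?_
  exact Submodule.subset_span (Or.inl ⟨⟨t, ht⟩, rfl⟩)

theorem mem_ind_of_Psi {θ : D.T →* κˣ} {χ : D.P (∅ : Set I) →* κˣ} (h : D.Extends θ χ)
    {c : MonoidAlgebra κ G} (hc : Psi (D.P ∅) χ c = 0) : c ∈ D.ind θ := by
  classical
  let r : G → G := fun g => ((g : G ⧸ D.P (∅ : Set I))).out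
  have hr : ∀ g, (r g)⁻¹ * g ∈ D.P (∅ : Set I) := fun g =>
    QuotientGroup.eq.1 (QuotientGroup.out_eq' (g : G ⧸ D.P (∅ : Set I)))
  have hrr : ∀ g g', g⁻¹ * g' ∈ D.P (∅ : Set I) → r g = r g' := by
    intro g g' hg
    change ((g : G ⧸ D.P (∅ : Set I))).out = ((g' : G ⧸ D.P (∅ : Set I))).out
    rw [QuotientGroup.eq.2 hg]
  have hr' : ∀ g, g⁻¹ * r g ∈ D.P (∅ : Set I) := fun g => by
    have h1 := inv_mem (hr g)
    rwa [_root_.mul_inv_rev, inv_inv] at h1
  have hri : ∀ g, r (r g) = r g := fun g => (hrr _ _ (hr' g)).symm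
  let L : MonoidAlgebra κ G →ₗ[κ] MonoidAlgebra κ G :=
    (Finsupp.linearCombination κ fun g : G =>
      (single (r g) ((χ ⟨(r g)⁻¹ * g, hr g⟩ : κˣ) : κ) : MonoidAlgebra κ G)) ∘ₗ
      (MonoidAlgebra.coeffLinearEquiv κ).toLinearMap
  have hL : ∀ g a, L (single g a) =
      single (r g) (a * ((χ ⟨(r g)⁻¹ * g, hr g⟩ : κˣ) : κ)) := by
    intro g a
    simp [L]
  -- first claim
  have key1 : ∀ c : MonoidAlgebra κ G, c - L c ∈ D.ind θ := by
    intro c
    induction c using MonoidAlgebra.induction_linear with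
    | zero => rw [map_zero, sub_zero]; exact zero_mem _
    | add a b ha hb =>
      have h1 : a + b - L (a + b) = (a - L a) + (b - L b) := by rw [map_add]; abel
      rw [h1]
      exact add_mem ha hb
    | single g a =>
      rw [hL]
      have h1 : (single g a - single (r g) (a * ((χ ⟨(r g)⁻¹ * g, hr g⟩ : κˣ) : κ)) :
          MonoidAlgebra κ G) = (single (r g) a : MonoidAlgebra κ G) •
          (single ((r g)⁻¹ * g) 1 - single 1 ((χ ⟨(r g)⁻¹ * g, hr g⟩ : κˣ) : κ)) := by
        rw [smul_eq_mul, mul_sub, single_mul_single, single_mul_single, mul_one, mul_one,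
          mul_inv_cancel_left]
      rw [h1]
      exact Submodule.smul_mem _ _ (D.B1_single_sub h (hr g))
  -- second claim
  have key2 : ∀ (c : MonoidAlgebra κ G) (x : G),
      (L c).coeff x = if r x = x then Psi (D.P ∅) χ c x else 0 := by
    intro c x
    induction c using MonoidAlgebra.induction_linear with
    | zero => rw [map_zero, map_zero]; simp
    | add a b ha hb =>
      rw [map_add, map_add, coeff_add, Finsupp.add_apply, ha, hb, Pi.add_apply]
      split_ifs
      · rfl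
      · rw [add_zero]
    | single g a =>
      rw [hL, coeff_single, Finsupp.single_apply, Psi_single]
      by_cases hx : r g = x
      · have hxx : r x = x := by rw [← hx, hri]
        rw [if_pos hx, if_pos hxx]
        subst hx
        rw [dl, dif_pos (hr' g)]
        have h2 : (⟨g⁻¹ * r g, hr' g⟩ : D.P (∅ : Set I)) = ⟨(r g)⁻¹ * g, hr g⟩⁻¹ := by
          apply Subtype.ext
          change g⁻¹ * r g = ((r g)⁻¹ * g)⁻¹
          rw [_root_.mul_inv_rev, inv_inv]
        rw [h2, map_inv, inv_inv]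
      · rw [if_neg hx]
        split_ifs with hxx
        · have h3 : g⁻¹ * x ∉ D.P (∅ : Set I) := fun h4 => hx ((hrr _ _ h4).trans hxx)
          rw [dl, dif_neg h3, mul_zero]
        · rfl
  have hLc : L c = 0 := by
    apply MonoidAlgebra.coeff_injective
    ext x
    rw [key2, hc]
    simp
  have h5 := key1 c
  rwa [hLc, sub_zero] at h5

end Datum

end Pool.Agent.Helper89.SX
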