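import Mathlib
import Pool.Agent.Helper89.SX.St.B1

/-!
# SX-B2: `Psi` kills `η_L` if `L` meets `K`

Proof.  `Psi(η_L)(x) = ∑_{w ∈ W_L} (-1)^{ℓ(w)} dl((n L w)⁻¹ x)`.  Pair `w` with `w s_i`
(`Finset.sum_involution`; `ℓ(w s_i) = ℓ(w) ± 1`, `cs.length_mul_simple`, `w s_i ≠ w`).  The element
`t = (n L w s_i)⁻¹ … `: both `n L (w s_i)` and `n L w * s_i` are in `N ∩ G_L` and have the same image
in `W` (`s_i = φ_i(wt) ∈ G_L`), so `n L (w s_i) = n L w * s_i * t` with `t ∈ T ∩ G_L`, and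
`T ∩ G_L` is generated by the `T ∩ G_j`, `j ∈ L ⊆ I(θ)` (`T_inf_GJ`), on which `θ = 1`; so
`θ t = 1`.  As `χ(s_i) = 1` and `χ(t) = 1`, `dl_mul_left` for `g = s_i t ∈ P K` gives
`dl((n L (w s_i))⁻¹ x) = dl((s_i t)⁻¹ ((n L w)⁻¹ x)) = dl((n L w)⁻¹ x)`.
-/

set_option autoImplicit false

namespace Pool.Agent.Helper89.SX

open Matrix MonoidAlgebra

namespace Datum

variable {p : ℕ} [Fact p.Prime] {F : Type*} [Field F] [CharP F p] {G : Type*} [Group G]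
  {I : Type*} {C : CoxeterMatrix I} {W : Type*} [Group W] {cs : CoxeterSystem C W}
  (D : Datum p F G cs) {κ : Type*} [Field κ]

theorem θ_eq_one_of_mem_GJ {θ : D.T →* κˣ} {L : Set I} (hL : L ⊆ D.Iθ θ) (t : D.T)
    (ht : (t : G) ∈ D.GJ L) : θ t = 1 := by
  have h1 : (t : G) ∈ ⨆ i ∈ L, (D.T ⊓ (D.φ i).range) := D.T_inf_GJ L ⟨t.2, ht⟩
  have h2 : (⨆ i ∈ L, (D.T ⊓ (D.φ i).range)) ≤ θ.ker.map D.T.subtype := by
    refine iSup₂_le fun i hi g hg => ?_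
    exact ⟨⟨g, hg.1⟩, hL hi ⟨g, hg.1⟩ hg.2, rfl⟩
  obtain ⟨t', ht', hE⟩ := h2 h1
  have h3 : t' = t := Subtype.ext hE
  rw [← h3]
  exact ht'

/-- **SX-B2.** -/
theorem Psi_etaG [Fintype W] {n : Set I → W → G} (hn : D.IsReps n) {θ : D.T →* κˣ} {K L : Set I}
    (hL : L ⊆ D.Iθ θ) {i : I} (hiK : i ∈ K) (hiL : i ∈ L) {χ : D.P K →* κˣ}
    (h : D.Extends θ χ) : Psi (D.P K) χ (D.etaG κ n L) = 0 := by
  classical
  have hsW : cs.simple i ∈ D.WJ L := Subgroup.subset_closure ⟨i, hiL, rfl⟩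
  have hsG : D.s i ∈ D.GJ L := by
    have h0 : (D.φ i).range ≤ D.GJ L := le_iSup₂_of_le (f := fun i (_ : i ∈ L) => (D.φ i).range) i hiL le_rfl
    exact h0 ⟨wt, rfl⟩
  have hsP : D.s i ∈ D.P K := (le_sup_right : Subgroup.closure (D.s '' K) ≤ D.P K)
    (Subgroup.subset_closure ⟨i, hiK, rfl⟩)
  have hTP : D.T ≤ D.P K := (le_sup_left : D.T ≤ D.B).trans (D.B_le_P K)
  funext x
  rw [etaG, map_sum, Finset.sum_apply, Pi.zero_apply]
  refine Finset.sum_involution (fun w _ => w * cs.simple i) ?_ ?_ ?_ ?_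
  · intro w hw
    have hw' : w ∈ D.WJ L := (Finset.mem_filter.1 hw).2
    have hws : w * cs.simple i ∈ D.WJ L := (D.WJ L).mul_mem hw' hsW
    obtain ⟨hg1, hN1, hν1⟩ := hn L w hw'
    obtain ⟨hg2, hN2, hν2⟩ := hn L _ hws
    have hsν : D.ν ⟨D.s i, D.s_mem_N i⟩ = cs.simple i := D.ν_wt i
    obtain ⟨t, ht, htE⟩ := (D.ν_eq_iff (⟨n L w, hN1⟩ * ⟨D.s i, D.s_mem_N i⟩)
      ⟨n L (w * cs.simple i), hN2⟩).1 (by rw [map_mul, hν1, hν2, hsν])
    have htE' : n L (w * cs.simple i) = n L w * D.s i * t := htE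
    have htG : t ∈ D.GJ L := by
      have : t = (n L w * D.s i)⁻¹ * n L (w * cs.simple i) := by rw [htE']; group
      rw [this]
      exact (D.GJ L).mul_mem ((D.GJ L).inv_mem ((D.GJ L).mul_mem hg1 hsG)) hg2
    have hθ : θ ⟨t, ht⟩ = 1 := D.θ_eq_one_of_mem_GJ hL ⟨t, ht⟩ htG
    have htP : t ∈ D.P K := hTP ht
    have hstP : D.s i * t ∈ D.P K := (D.P K).mul_mem hsP htP
    have hχs : χ ⟨D.s i, hsP⟩ = 1 := h.apply_φ i hiK wt _
    have hχt : χ ⟨t, htP⟩ = 1 := by rw [h.apply_T t _ ht, hθ]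
    have hχ : χ ⟨D.s i * t, hstP⟩ = 1 := by
      have h5 : (⟨D.s i * t, hstP⟩ : D.P K) = ⟨D.s i, hsP⟩ * ⟨t, htP⟩ := rfl
      rw [h5, map_mul, hχs, hχt, one_mul]
    have hdl : dl (D.P K) χ ((n L (w * cs.simple i))⁻¹ * x) = dl (D.P K) χ ((n L w)⁻¹ * x) := by
      have h6 : (n L (w * cs.simple i))⁻¹ * x = (D.s i * t)⁻¹ * ((n L w)⁻¹ * x) := by
        rw [htE']; group
      rw [h6, dl_mul_left (D.P K) χ _ hstP, hχ, Units.val_one, one_mul]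
    rw [Psi_single, Psi_single, hdl]
    have hlen : (-1 : κ) ^ cs.length (w * cs.simple i) = - (-1 : κ) ^ cs.length w := by
      rcases cs.length_mul_simple w i with h7 | h7
      · rw [h7, pow_succ, mul_neg_one]
      · rw [← h7, pow_succ, mul_neg_one, neg_neg]
    rw [hlen]
    ring
  · intro w hw _ hE
    exact cs.length_mul_simple_ne w i (by rw [hE])
  · intro w hw
    refine Finset.mem_filter.2 ⟨Finset.mem_univ _, ?_⟩
    exact (D.WJ L).mul_mem (Finset.mem_filter.1 hw).2 hsW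
  · intro w hw
    rw [mul_assoc, cs.simple_mul_simple_self, mul_one]

end Datum

end Pool.Agent.Helper89.SX
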