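import Mathlib
import Pool.Agent.Helper89.SX.St.B2

/-!
# SX-B3a: the top lemma (part (1) below; part (2) is the next piece)

Notation: `f = Psi (P ∅) χ₀ c` (where `χ₀` extends `θ` to `B = P ∅`); `f` is right equivariant under
`B` with finite support modulo `B`.
(1) Relation between `Psi (P K) χ` and `f`.  TOP LEMMA (`top_ne_zero`): let `f g ≠ 0` where
`ℓ(pos g)` is maximal among the `x` with `f x ≠ 0`, and suppose that no `i ∈ K` is a right descent of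
`pos g`.  Then `Psi (P K) χ c g ≠ 0`; precisely `= f g`.
Proof: `Psi (P K) χ c g = ∑_h c(h) dl_K(h⁻¹ g)`, a sum over the `h` with `h ∈ g P K`.  Group the `h` by
cosets `h B`: for a fixed coset `y B ⊆ g P K`, `∑_{h ∈ yB} c(h) dl_K(h⁻¹ g) =
χ(y⁻¹ g)⁻¹ … = dl_K(y⁻¹ g) · f(y)` (`f(y) = ∑_{h ∈ yB} c(h) dl_∅(h⁻¹ y)`, and
`dl_K(h⁻¹ g) = dl_∅(h⁻¹ y) dl_K(y⁻¹ g)` for `h⁻¹ y ∈ B`).  If `y B ≠ g B`, `y B ⊆ g P K` then
`ℓ(pos y) > ℓ(pos g)` (`length_lt_of_mem_P`), so `f y = 0`.  Only `y B = g B` remains.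
(A convenient way: replace `c` by `c' = ∑_{cosets} f(σ C) • single (σ C) 1`, `c - c' ∈ ind θ`
(see `B1`), with `σ(gB) = g`; or the induction (2) can be done for such reduced `c` directly.)
(2) Strong induction on the measure `μ(f) = ∑_{C ∈ supp f ⊆ G ⧸ B} N ^ ℓ(pos C)`, `N > card W`
(or any other suitable well founded measure).  If `f = 0` then `c ∈ ind θ` (`mem_ind_of_Psi`), so
its class is `0`.  Otherwise choose `g = b * n` (`b ∈ B`, `n ∈ N`; possible by `pos_spec`, up to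
right multiplication by `B`) with `f g ≠ 0` and `ℓ(pos g)` maximal, `w = pos g = ν n`.  By the top
lemma for `{i}`, `i ∈ J`, every `i ∈ J` is a right descent of `w`.  Let `L` be the set of the right
descents of `w` in `I(θ)`.  If `L = J` the top lemma for `K = I(θ) \ J` contradicts `hc`.  So
`J ⊂ L ⊆ I(θ)`.  Put `c₁ = c - f(g) • (single g 1 * D.etaG κ n L) * (± a unit)`: more precisely
`n L 1 ∈ T ∩ G_L`, so the coefficient function of `single g 1 * etaG` takes the value `1` at `g`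
(`θ (n L 1) = 1` by `θ_eq_one_of_mem_GJ`), and its other support cosets are `g (n L x) B`,
`x ∈ W_L`, `x ≠ 1`, with `pos = w x` (`g = b n`, `n * n L x ∈ N`), of smaller length
(`length_mul_of_descents`).  Then `c₁` satisfies the hypotheses (`Psi_etaG`, `L` meets `{i}` for
`i ∈ J`, and `L` meets `K = I(θ) \ J`), and `μ(f₁) < μ(f)`.  The class of
`single g 1 * etaG κ n L` is in `MJ θ n L ≤ MJ' θ n J`.
-/

set_option autoImplicit false

namespace Pool.Agent.Helper89.SX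

open Matrix MonoidAlgebra

namespace Datum

variable {p : ℕ} [Fact p.Prime] {F : Type*} [Field F] [CharP F p] {G : Type*} [Group G]
  {I : Type*} {C : CoxeterMatrix I} {W : Type*} [Group W] {cs : CoxeterSystem C W}
  (D : Datum p F G cs) {κ : Type*} [Field κ]

private theorem extends_eq {θ : D.T →* κˣ} {K : Set I} {χ₀ : D.P (∅ : Set I) →* κˣ}
    (h₀ : D.Extends θ χ₀) {χ : D.P K →* κˣ} (h : D.Extends θ χ) (x : G)
    (hx₀ : x ∈ D.P (∅ : Set I)) (hx : x ∈ D.P K) : χ ⟨x, hx⟩ = χ₀ ⟨x, hx₀⟩ := by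
  have hB : x ∈ D.B := by rw [← D.P_empty]; exact hx₀
  obtain ⟨t, ht, u, hu, rfl⟩ := D.mem_B.1 hB
  have htB : t ∈ D.B := (le_sup_left : D.T ≤ D.B) ht
  have huB : u ∈ D.B := (le_sup_right : D.U ≤ D.B) hu
  have e1 : (⟨t * u, hx⟩ : D.P K) = ⟨t, D.B_le_P K htB⟩ * ⟨u, D.B_le_P K huB⟩ := rfl
  have e2 : (⟨t * u, hx₀⟩ : D.P (∅ : Set I)) =
      ⟨t, D.B_le_P ∅ htB⟩ * ⟨u, D.B_le_P ∅ huB⟩ := rfl
  rw [e1, e2, map_mul, map_mul, h.apply_T t _ ht, h₀.apply_T t _ ht, h.apply_U u _ hu,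
    h₀.apply_U u _ hu]

private theorem dl_of_mem (P : Subgroup G) (χ : P →* κˣ) {x : G} (hx : x ∈ P) :
    dl P χ x = (((χ ⟨x, hx⟩)⁻¹ : κˣ) : κ) := by
  rw [dl, dif_pos hx]

private theorem dl_of_not_mem (P : Subgroup G) (χ : P →* κˣ) {x : G} (hx : x ∉ P) :
    dl P χ x = 0 := by
  rw [dl, dif_neg hx]

private theorem reduced (Q : Subgroup G) (χ₀ : Q →* κˣ) (c : MonoidAlgebra κ G) :
    ∃ (c' : MonoidAlgebra κ G) (S : Finset G), Psi Q χ₀ c' = Psi Q χ₀ c ∧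
      ∀ (P : Subgroup G) (ψ : P →* κˣ) (x : G),
        Psi P ψ c' x = ∑ y ∈ S, Psi Q χ₀ c y * dl P ψ (y⁻¹ * x) := by
  classical
  have hfr : RightEq Q χ₀ (Psi Q χ₀ c) := Psi_rightEq Q χ₀ c
  obtain ⟨S₀, hS₀⟩ := Psi_finMod Q χ₀ c
  have hout : ∀ x : G, ((x : G ⧸ Q).out)⁻¹ * x ∈ Q := fun x =>
    QuotientGroup.eq.1 (QuotientGroup.out_eq' (x : G ⧸ Q))
  let S : Finset G := S₀.image fun y : G => (QuotientGroup.mk y : G ⧸ Q).out
  have hc' : ∀ (P : Subgroup G) (ψ : P →* κˣ) (x : G),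
      Psi P ψ (∑ y ∈ S, single y (Psi Q χ₀ c y)) x =
        ∑ y ∈ S, Psi Q χ₀ c y * dl P ψ (y⁻¹ * x) := by
    intro P ψ x
    simp only [map_sum, Finset.sum_apply, Psi_single]
  refine ⟨∑ y ∈ S, single y (Psi Q χ₀ c y), S, ?_, hc'⟩
  funext x
  have hval : Psi Q χ₀ c ((x : G ⧸ Q).out) * dl Q χ₀ (((x : G ⧸ Q).out)⁻¹ * x) =
      Psi Q χ₀ c x := by
    have h1 := hfr ((x : G ⧸ Q).out) _ (hout x)
    rw [mul_inv_cancel_left] at h1
    rw [dl_of_mem Q χ₀ (hout x), h1, mul_comm]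
  rw [hc', Finset.sum_eq_single ((x : G ⧸ Q).out)]
  · exact hval
  · intro y hy hne
    obtain ⟨z, -, rfl⟩ := Finset.mem_image.1 hy
    refine mul_eq_zero_of_right _ (dl_of_not_mem Q χ₀ fun hmem => hne ?_)
    have h1 : (((z : G ⧸ Q).out : G) : G ⧸ Q) = (x : G ⧸ Q) := QuotientGroup.eq.2 hmem
    rw [QuotientGroup.out_eq'] at h1
    rw [h1]
  · intro hx
    rw [hval]
    by_contra h1
    obtain ⟨y, hy, hyx⟩ := hS₀ x h1
    refine hx (Finset.mem_image.2 ⟨y, hy, ?_⟩)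
    have h2 : (y : G ⧸ Q) = (x : G ⧸ Q) := QuotientGroup.eq.2 hyx
    rw [h2]

/-- **SX-B3a.** -/
theorem top_ne_zero {θ : D.T →* κˣ} {K : Set I} {χ₀ : D.P (∅ : Set I) →* κˣ}
    (h₀ : D.Extends θ χ₀) {χ : D.P K →* κˣ} (h : D.Extends θ χ) (c : MonoidAlgebra κ G) (g : G)
    (hmax : ∀ x, Psi (D.P ∅) χ₀ c x ≠ 0 → cs.length (D.pos x) ≤ cs.length (D.pos g))
    (hg : ∀ i ∈ K, ¬ cs.IsRightDescent (D.pos g) i) :
    Psi (D.P K) χ c g = Psi (D.P ∅) χ₀ c g := by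
  obtain ⟨c', S, hPsi, hc'⟩ := reduced (D.P ∅) χ₀ c
  have hind : c - c' ∈ D.ind θ := by
    refine D.mem_ind_of_Psi h₀ ?_
    rw [map_sub, hPsi, sub_self]
  have hK : Psi (D.P K) χ c = Psi (D.P K) χ c' := by
    have h1 := D.Psi_ind h hind
    rwa [map_sub, sub_eq_zero] at h1
  rw [hK, ← hPsi, hc', hc']
  refine Finset.sum_congr rfl fun y _ => ?_
  by_cases hy : y⁻¹ * g ∈ D.P (∅ : Set I)
  · have hyK : y⁻¹ * g ∈ D.P K := D.P_mono (Set.empty_subset K) hy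
    rw [dl_of_mem (D.P K) χ hyK, dl_of_mem (D.P ∅) χ₀ hy, extends_eq D h₀ h _ hy hyK]
  · rw [dl_of_not_mem (D.P ∅) χ₀ hy, mul_zero]
    by_contra hne
    have hf0 : Psi (D.P ∅) χ₀ c y ≠ 0 := left_ne_zero_of_mul hne
    have hmem : y⁻¹ * g ∈ D.P K := (dl_ne_zero_iff _ _ _).1 (right_ne_zero_of_mul hne)
    have hB : y⁻¹ * g ∉ D.B := by rwa [D.P_empty] at hy
    have h2 : (y⁻¹ * g)⁻¹ ∉ D.B := fun h' => hB (by simpa using inv_mem h')
    have h3 := D.length_lt_of_mem_P hg (inv_mem hmem) h2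
    have h4 : g * (y⁻¹ * g)⁻¹ = y := by group
    rw [h4] at h3
    exact absurd (hmax _ hf0) (not_le.2 h3)

end Datum

end Pool.Agent.Helper89.SX
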