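import Mathlib
import Pool.Agent.Helper89.SX.St.B3a

/-!
# SX-B3: the triangular argument (part (2) below; part (1) is `top_ne_zero` in `B3a`)

Notation: `f = Psi (P ∅) χ₀ c` (where `χ₀` extends `θ` to `B = P ∅`); `f` is right equivariant under
`B` with finite support modulo `B`.
(1) Relation between `Psi (P K) χ` and `f`.  TOP LEMMA (`top_ne_zero`): let `f g ≠ 0` where
`ℓ(pos g)` is maximal among the `x` with `f x ≠ 0`, and suppose that no `i ∈ K` is a right descent of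
`pos g`.  Then `Psi (P K) χ c g ≠ 0`; precisely `= f g`.
Proof: `Psi (P K) χ c g = ∑_h c(h) dl_K(h⁻¹ g)`, a sum over the `h` with `h ∈ g P K`.  Group the `h` by
cosets `h B`: for a fixed coset `y B ⊆ g P K`, `∑_{h ∈ yB} c(h) dl_K(h⁻¹ g) =
χ(y⁻¹ g)⁻¹ … = dl_K(y⁻¹ g) · f(y)` (`f(y) = ∑_{h ∈ yB} c(h) dl_∅(h⁻¹ y)`, and
`dl_K(h⁻¹ g) = dl_∅(h⁻¹ y) dl_K(y⁻¹ g)` for `h⁻¹ y ∈ B`).  If `y B ≠ g B`, `y B ⊆ g P K` then
`ℓ(pos y) > ℓ(pos g)` (`length_lt_of_mem_P`), so `f y = 0`.  Only `y B = g B` remains.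
(A convenient way: replace `c` by `c' = ∑_{cosets} f(σ C) • single (σ C) 1`, `c - c' ∈ ind θ`
(see `B1`), with `σ(gB) = g`; or the induction (2) can be done for such reduced `c` directly.)
(2) Strong induction on the measure `μ(f) = ∑_{C ∈ supp f ⊆ G ⧸ B} N ^ ℓ(pos C)`, `N > card W`
(or any other suitable well founded measure).  If `f = 0` then `c ∈ ind θ` (`mem_ind_of_Psi`), so
its class is `0`.  Otherwise choose `g = b * n` (`b ∈ B`, `n ∈ N`; possible by `pos_spec`, up to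
right multiplication by `B`) with `f g ≠ 0` and `ℓ(pos g)` maximal, `w = pos g = ν n`.  By the top
lemma for `{i}`, `i ∈ J`, every `i ∈ J` is a right descent of `w`.  Let `L` be the set of the right
descents of `w` in `I(θ)`.  If `L = J` the top lemma for `K = I(θ) \ J` contradicts `hc`.  So
`J ⊂ L ⊆ I(θ)`.  Put `c₁ = c - f(g) • (single g 1 * D.etaG κ n L) * (± a unit)`: more precisely
`n L 1 ∈ T ∩ G_L`, so the coefficient function of `single g 1 * etaG` takes the value `1` at `g`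
(`θ (n L 1) = 1` by `θ_eq_one_of_mem_GJ`), and its other support cosets are `g (n L x) B`,
`x ∈ W_L`, `x ≠ 1`, with `pos = w x` (`g = b n`, `n * n L x ∈ N`), of smaller length
(`length_mul_of_descents`).  Then `c₁` satisfies the hypotheses (`Psi_etaG`, `L` meets `{i}` for
`i ∈ J`, and `L` meets `K = I(θ) \ J`), and `μ(f₁) < μ(f)`.  The class of
`single g 1 * etaG κ n L` is in `MJ θ n L ≤ MJ' θ n J`.
-/

set_option autoImplicit false

namespace Pool.Agent.Helper89.SX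

open Matrix MonoidAlgebra

namespace Datum

variable {p : ℕ} [Fact p.Prime] {F : Type*} [Field F] [CharP F p] {G : Type*} [Group G]
  {I : Type*} {C : CoxeterMatrix I} {W : Type*} [Group W] {cs : CoxeterSystem C W}
  (D : Datum p F G cs) {κ : Type*} [Field κ]

open Classical in
private theorem B3_Psi_eta [Fintype W] (n : Set I → W → G) (L : Set I) (P : Subgroup G)
    (χ : P →* κˣ) (g : G) (a : κ) (x : G) :
    Psi P χ (single g a * D.etaG κ n L) x =
      ∑ w ∈ Finset.univ.filter (· ∈ D.WJ L),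
        a * (-1) ^ cs.length w * dl P χ ((g * n L w)⁻¹ * x) := by
  simp only [etaG, Finset.mul_sum, map_sum, Finset.sum_apply, single_mul_single, Psi_single]

private theorem B3_pos {n : Set I → W → G} (hn : D.IsReps n) {L : Set I} {w' : W}
    (hw' : w' ∈ D.WJ L) {b : G} (hb : b ∈ D.B) (m : D.N) {x : G}
    (hx : (b * m * n L w')⁻¹ * x ∈ D.P (∅ : Set I)) : D.pos x = D.ν m * w' := by
  obtain ⟨-, hN, hν⟩ := hn L w' hw'
  rw [D.P_empty] at hx
  have e : x = (b * (m * n L w')) * ((b * m * n L w')⁻¹ * x) := by group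
  rw [e, D.pos_mul_right hx, D.pos_mul_left hb]
  have h2 := D.pos_N (m * ⟨n L w', hN⟩)
  rw [map_mul, hν] at h2
  exact h2

private theorem B3_step [Fintype W] {n : Set I → W → G} (hn : D.IsReps n) {θ : D.T →* κˣ}
    {J : Set I} (hJ : J ⊆ D.Iθ θ) {χ : D.P (D.Iθ θ \ J) →* κˣ} (h : D.Extends θ χ)
    {χ₀ : D.P (∅ : Set I) →* κˣ} (h₀ : D.Extends θ χ₀) (c : MonoidAlgebra κ G)
    (hJc : ∀ i ∈ J, ∀ χ' : D.P {i} →* κˣ, D.Extends θ χ' → Psi (D.P {i}) χ' c = 0)
    (hc : Psi (D.P (D.Iθ θ \ J)) χ c = 0) {y : G} (hy : Psi (D.P ∅) χ₀ c y ≠ 0)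
    (hmax : ∀ x, Psi (D.P ∅) χ₀ c x ≠ 0 → cs.length (D.pos x) ≤ cs.length (D.pos y)) :
    ∃ d : MonoidAlgebra κ G, (D.ind θ).mkQ d ∈ D.MJ' θ n J ∧
      (∀ i ∈ J, ∀ χ' : D.P {i} →* κˣ, D.Extends θ χ' → Psi (D.P {i}) χ' d = 0) ∧
      Psi (D.P (D.Iθ θ \ J)) χ d = 0 ∧
      (∀ x, Psi (D.P ∅) χ₀ (c - d) x ≠ 0 → cs.length (D.pos x) ≤ cs.length (D.pos y)) ∧
      (∀ x, Psi (D.P ∅) χ₀ (c - d) x ≠ 0 → cs.length (D.pos x) = cs.length (D.pos y) →
        Psi (D.P ∅) χ₀ c x ≠ 0 ∧ y⁻¹ * x ∉ D.P (∅ : Set I)) := by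
  classical
  obtain ⟨b, hb, m, b', hb', hm, e⟩ := D.pos_spec y
  have hPb' : b' ∈ D.P (∅ : Set I) := D.B_le_P ∅ hb'
  -- the representative `g = b * m` of the coset of `y`
  have hgy : y = b * m * b' := e
  have hposg : D.pos (b * m) = D.pos y := by
    rw [hgy, D.pos_mul_right hb']
  have hfg : Psi (D.P ∅) χ₀ c (b * m) ≠ 0 := by
    intro h1
    have h2 := Psi_rightEq (D.P ∅) χ₀ c (b * m) b' hPb'
    rw [← hgy, h1, mul_zero] at h2
    exact hy h2
  have hmax' : ∀ x, Psi (D.P ∅) χ₀ c x ≠ 0 →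
      cs.length (D.pos x) ≤ cs.length (D.pos (b * m)) := by
    rw [hposg]; exact hmax
  -- the set of right descents in `I(θ)`
  let L : Set I := {i | i ∈ D.Iθ θ ∧ cs.IsRightDescent (D.pos y) i}
  have hLθ : L ⊆ D.Iθ θ := fun i hi => hi.1
  have hJL : J ⊆ L := by
    intro i hi
    refine ⟨hJ hi, ?_⟩
    by_contra hnd
    obtain ⟨χ', hχ'⟩ := D.exists_extends θ (Set.singleton_subset_iff.2 (hJ hi))
    have h1 := D.top_ne_zero h₀ hχ' c (b * m) hmax' (by
      intro j hj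
      rw [Set.mem_singleton_iff.1 hj, hposg]
      exact hnd)
    rw [hJc i hi χ' hχ'] at h1
    exact hfg h1.symm
  have hne : ∃ i ∈ L, i ∉ J := by
    by_contra hno
    push Not at hno
    have h1 := D.top_ne_zero h₀ h c (b * m) hmax' (by
      intro j hj hd
      rw [hposg] at hd
      exact hj.2 (hno j ⟨hj.1, hd⟩))
    rw [hc] at h1
    exact hfg h1.symm
  obtain ⟨i₀, hi₀L, hi₀J⟩ := hne
  have hJL' : J ⊂ L := ⟨hJL, fun hle => hi₀J (hle hi₀L)⟩
  have hdesc : ∀ i ∈ L, cs.IsRightDescent (D.ν m) i := by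
    intro i hi
    rw [hm]
    exact hi.2
  refine ⟨single (b * m) (Psi (D.P ∅) χ₀ c (b * m)) * D.etaG κ n L, ?_, ?_, ?_, ?_⟩
  · have h1 : (D.ind θ).mkQ (single (b * m) (Psi (D.P ∅) χ₀ c (b * m)) * D.etaG κ n L) =
        (single (b * (m : G)) (Psi (D.P ∅) χ₀ c (b * m)) : MonoidAlgebra κ G) •
          D.eta θ n L := by
      rw [eta, ← map_smul, smul_eq_mul]
    rw [h1]
    have h2 : D.MJ θ n L ≤ D.MJ' θ n J :=
      le_iSup₂_of_le (f := fun (K : Set I) (_ : K ∈ {K : Set I | J ⊂ K ∧ K ⊆ D.Iθ θ}) =>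
        D.MJ θ n K) L ⟨hJL', hLθ⟩ le_rfl
    exact h2 (Submodule.smul_mem _ _ (Submodule.subset_span rfl))
  · intro i hi χ' hχ'
    exact Psi_mul_eq_zero _ _ _ (D.Psi_etaG hn hLθ (Set.mem_singleton i) (hJL hi) hχ')
  · exact Psi_mul_eq_zero _ _ _
      (D.Psi_etaG hn hLθ (show i₀ ∈ D.Iθ θ \ J from ⟨hLθ hi₀L, hi₀J⟩) hi₀L h)
  · -- the length of a coset in the support of `g η_L`
    have hlen : ∀ (x : G) (w' : W), w' ∈ D.WJ L →
        (b * m * n L w')⁻¹ * x ∈ D.P (∅ : Set I) →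
        cs.length (D.pos x) + cs.length w' = cs.length (D.pos y) := by
      intro x w' hw' hx
      rw [D.B3_pos hn hw' hb m hx, ← hm]
      exact length_mul_of_descents cs L hdesc hw'
    have hdl : ∀ (x : G) (w' : W), w' ∈ D.WJ L →
        dl (D.P ∅) χ₀ ((b * m * n L w')⁻¹ * x) ≠ 0 →
        cs.length (D.pos x) + cs.length w' = cs.length (D.pos y) := fun x w' hw' hx =>
      hlen x w' hw' ((dl_ne_zero_iff _ _ _).1 hx)
    -- the value at elements of maximal length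
    have hval : ∀ x, cs.length (D.pos x) = cs.length (D.pos y) →
        Psi (D.P ∅) χ₀ (single (b * m) (Psi (D.P ∅) χ₀ c (b * m)) * D.etaG κ n L) x =
          Psi (D.P ∅) χ₀ c (b * m) * dl (D.P ∅) χ₀ ((b * m)⁻¹ * x) := by
      intro x hx
      have h1L : (1 : W) ∈ D.WJ L := one_mem _
      rw [D.B3_Psi_eta, Finset.sum_eq_single (1 : W)]
      · rw [cs.length_one, pow_zero, mul_one]
        congr 1
        obtain ⟨hGJ, hN, hν⟩ := hn L 1 h1L
        have hT : n L 1 ∈ D.T := (D.ν_eq_one _).1 hν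
        have hP : n L 1 ∈ D.P (∅ : Set I) := D.B_le_P ∅ ((le_sup_left : D.T ≤ D.B) hT)
        have h2 := D.θ_eq_one_of_mem_GJ hLθ ⟨n L 1, hT⟩ hGJ
        have h3 := h₀.apply_T (n L 1) hP hT
        rw [h2] at h3
        have h4 := dl_mul_left (D.P ∅) χ₀ ((b * m)⁻¹ * x) hP
        rw [h3, Units.val_one, one_mul] at h4
        rw [← h4]
        congr 1
        group
      · intro w' hw' hne
        by_contra h5
        have h6 := hdl x w' (Finset.mem_filter.1 hw').2 (right_ne_zero_of_mul h5)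
        have h7 : cs.length w' = 0 := by omega
        exact hne (cs.length_eq_zero_iff.1 h7)
      · intro h8
        exact absurd (Finset.mem_filter.2 ⟨Finset.mem_univ _, h1L⟩) h8
    refine ⟨?_, ?_⟩
    · intro x hx
      rw [map_sub, Pi.sub_apply] at hx
      by_cases hcx : Psi (D.P ∅) χ₀ c x = 0
      · rw [hcx, zero_sub, neg_ne_zero, D.B3_Psi_eta] at hx
        obtain ⟨w', hw', h9⟩ := Finset.exists_ne_zero_of_sum_ne_zero hx
        have h6 := hdl x w' (Finset.mem_filter.1 hw').2 (right_ne_zero_of_mul h9)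
        omega
      · exact hmax x hcx
    · intro x hx hlx
      rw [map_sub, Pi.sub_apply, hval x hlx] at hx
      have hnot : y⁻¹ * x ∉ D.P (∅ : Set I) := by
        intro hyx
        apply hx
        have hgx : (b * m)⁻¹ * x ∈ D.P (∅ : Set I) := by
          have e2 : (b * (m : G))⁻¹ * x = b' * (y⁻¹ * x) := by
            rw [hgy]; group
          rw [e2]
          exact mul_mem hPb' hyx
        have h1 := Psi_rightEq (D.P ∅) χ₀ c (b * m) _ hgx
        rw [mul_inv_cancel_left] at h1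
        rw [h1, dl, dif_pos hgx, mul_comm, sub_self]
      refine ⟨?_, hnot⟩
      have hgx : (b * m)⁻¹ * x ∉ D.P (∅ : Set I) := by
        intro hgx
        apply hnot
        have e2 : y⁻¹ * x = b'⁻¹ * ((b * (m : G))⁻¹ * x) := by
          rw [hgy]; group
        rw [e2]
        exact mul_mem (inv_mem hPb') hgx
      rw [dl, dif_neg hgx, mul_zero, sub_zero] at hx
      exact hx

private theorem B3_ind [Fintype W] {n : Set I → W → G} (hn : D.IsReps n) {θ : D.T →* κˣ}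
    {J : Set I} (hJ : J ⊆ D.Iθ θ) {χ : D.P (D.Iθ θ \ J) →* κˣ} (h : D.Extends θ χ)
    {χ₀ : D.P (∅ : Set I) →* κˣ} (h₀ : D.Extends θ χ₀) (m k : ℕ)
    (ih : ∀ c : MonoidAlgebra κ G,
      (∀ i ∈ J, ∀ χ' : D.P {i} →* κˣ, D.Extends θ χ' → Psi (D.P {i}) χ' c = 0) →
      Psi (D.P (D.Iθ θ \ J)) χ c = 0 →
      (∀ x, Psi (D.P ∅) χ₀ c x ≠ 0 → cs.length (D.pos x) ≤ m) →
      (∃ S : Finset G, S.card ≤ k ∧ ∀ x, Psi (D.P ∅) χ₀ c x ≠ 0 →
        cs.length (D.pos x) = m → ∃ y ∈ S, y⁻¹ * x ∈ D.P (∅ : Set I)) →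
      (D.ind θ).mkQ c ∈ D.MJ' θ n J) :
    ∀ c : MonoidAlgebra κ G,
      (∀ i ∈ J, ∀ χ' : D.P {i} →* κˣ, D.Extends θ χ' → Psi (D.P {i}) χ' c = 0) →
      Psi (D.P (D.Iθ θ \ J)) χ c = 0 →
      (∀ x, Psi (D.P ∅) χ₀ c x ≠ 0 → cs.length (D.pos x) ≤ m) →
      (∃ S : Finset G, S.card ≤ k + 1 ∧ ∀ x, Psi (D.P ∅) χ₀ c x ≠ 0 →
        cs.length (D.pos x) = m → ∃ y ∈ S, y⁻¹ * x ∈ D.P (∅ : Set I)) →
      (D.ind θ).mkQ c ∈ D.MJ' θ n J := by
  classical
  rintro c hJc hc hm ⟨S, hS, hSc⟩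
  have hpos : ∀ y x : G, y⁻¹ * x ∈ D.P (∅ : Set I) → D.pos x = D.pos y := by
    intro y x hyx
    rw [D.P_empty] at hyx
    have h2 := D.pos_mul_right hyx y
    rwa [mul_inv_cancel_left] at h2
  by_cases hex : ∃ y ∈ S, Psi (D.P ∅) χ₀ c y ≠ 0 ∧ cs.length (D.pos y) = m
  · obtain ⟨y, hyS, hy, hym⟩ := hex
    obtain ⟨d, hd, hJd, hd', hle, hnot⟩ := D.B3_step hn hJ h h₀ c hJc hc hy
      (by rw [hym]; exact hm)
    rw [hym] at hle hnot
    have h1 : (D.ind θ).mkQ (c - d) ∈ D.MJ' θ n J := by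
      refine ih (c - d) ?_ ?_ hle ⟨S.erase y, ?_, ?_⟩
      · intro i hi χ' hχ'
        rw [map_sub, hJc i hi χ' hχ', hJd i hi χ' hχ', sub_zero]
      · rw [map_sub, hc, hd', sub_zero]
      · rw [Finset.card_erase_of_mem hyS]
        omega
      · intro x hx hlx
        obtain ⟨h2, h3⟩ := hnot x hx hlx
        obtain ⟨z, hz, hzx⟩ := hSc x h2 hlx
        refine ⟨z, Finset.mem_erase.2 ⟨?_, hz⟩, hzx⟩
        rintro rfl
        exact h3 hzx
    have h4 : (D.ind θ).mkQ c = (D.ind θ).mkQ (c - d) + (D.ind θ).mkQ d := by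
      rw [← map_add, sub_add_cancel]
    rw [h4]
    exact add_mem h1 hd
  · refine ih c hJc hc hm ⟨∅, by simp, ?_⟩
    intro x hx hlx
    exfalso
    obtain ⟨y, hy, hyx⟩ := hSc x hx hlx
    refine hex ⟨y, hy, ?_, ?_⟩
    · intro h1
      apply hx
      have h2 := Psi_rightEq (D.P ∅) χ₀ c y _ hyx
      rw [mul_inv_cancel_left] at h2
      rw [h2, h1, mul_zero]
    · rw [← hpos y x hyx, hlx]

/-- **SX-B3.** -/
theorem mem_MJ'_of_Psi [Fintype W] {n : Set I → W → G} (hn : D.IsReps n) {θ : D.T →* κˣ}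
    {J : Set I} (hJ : J ⊆ D.Iθ θ) {χ : D.P (D.Iθ θ \ J) →* κˣ} (h : D.Extends θ χ)
    (c : MonoidAlgebra κ G)
    (hJc : ∀ i ∈ J, ∀ χ' : D.P {i} →* κˣ, D.Extends θ χ' → Psi (D.P {i}) χ' c = 0)
    (hc : Psi (D.P (D.Iθ θ \ J)) χ c = 0) : (D.ind θ).mkQ c ∈ D.MJ' θ n J := by
  classical
  obtain ⟨χ₀, h₀⟩ := D.exists_extends θ (Set.empty_subset (D.Iθ θ))
  have key : ∀ m k : ℕ, ∀ c : MonoidAlgebra κ G,
      (∀ i ∈ J, ∀ χ' : D.P {i} →* κˣ, D.Extends θ χ' → Psi (D.P {i}) χ' c = 0) →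
      Psi (D.P (D.Iθ θ \ J)) χ c = 0 →
      (∀ x, Psi (D.P ∅) χ₀ c x ≠ 0 → cs.length (D.pos x) ≤ m) →
      (∃ S : Finset G, S.card ≤ k ∧ ∀ x, Psi (D.P ∅) χ₀ c x ≠ 0 →
        cs.length (D.pos x) = m → ∃ y ∈ S, y⁻¹ * x ∈ D.P (∅ : Set I)) →
      (D.ind θ).mkQ c ∈ D.MJ' θ n J := by
    intro m
    induction m with
    | zero =>
      intro k
      induction k with
      | zero =>
        rintro c - - hm ⟨S, hS, hSc⟩
        have hS0 : S = ∅ := Finset.card_eq_zero.1 (Nat.le_zero.1 hS)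
        subst hS0
        have hzero : Psi (D.P ∅) χ₀ c = 0 := by
          funext x
          by_contra hx
          obtain ⟨y, hy, -⟩ := hSc x hx (Nat.le_zero.1 (hm x hx))
          exact absurd hy (Finset.notMem_empty y)
        have h1 := D.mem_ind_of_Psi h₀ hzero
        have h2 : (D.ind θ).mkQ c = 0 := by
          rw [Submodule.mkQ_apply, Submodule.Quotient.mk_eq_zero]
          exact h1
        rw [h2]
        exact zero_mem _
      | succ k ihk => exact D.B3_ind hn hJ h h₀ 0 k ihk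
    | succ m ihm =>
      intro k
      induction k with
      | zero =>
        rintro c h1 h2 hm ⟨S, hS, hSc⟩
        have hS0 : S = ∅ := Finset.card_eq_zero.1 (Nat.le_zero.1 hS)
        subst hS0
        obtain ⟨S', hS'⟩ := Psi_finMod (D.P ∅) χ₀ c
        refine ihm S'.card c h1 h2 ?_ ⟨S', le_rfl, fun x hx _ => hS' x hx⟩
        intro x hx
        have h3 := hm x hx
        by_contra h4
        obtain ⟨y, hy, -⟩ := hSc x hx (by omega)
        exact absurd hy (Finset.notMem_empty y)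
      | succ k ihk => exact D.B3_ind hn hJ h h₀ (m + 1) k ihk
  -- conclusion
  obtain ⟨S, hS⟩ := Psi_finMod (D.P ∅) χ₀ c
  have hbd : ∀ x, Psi (D.P ∅) χ₀ c x ≠ 0 →
      cs.length (D.pos x) ≤ S.sup fun y => cs.length (D.pos y) := by
    intro x hx
    obtain ⟨y, hy, hyx⟩ := hS x hx
    have h1 : D.pos x = D.pos y := by
      rw [D.P_empty] at hyx
      have h2 := D.pos_mul_right hyx y
      rwa [mul_inv_cancel_left] at h2
    rw [h1]
    exact Finset.le_sup (f := fun y => cs.length (D.pos y)) hy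
  exact key _ S.card c hJc hc hbd ⟨S, le_rfl, fun x hx _ => hS x hx⟩

end Datum

end Pool.Agent.Helper89.SX
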