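import Mathlib
import Pool.Agent.Helper89.SX.St.B3

/-!
# SX-B4: the embedding of `E(θ)_J` in functions on `G`

Proof.  Take `K = I(θ) \ J`, `χ` an extension of `θ` (`exists_extends`).  `Psi (P K) χ` kills
`ind θ` (`Psi_ind`), so it factors through `M(θ) = k[G] ⧸ ind θ` (as a `κ`-linear map: `liftQ` over
`κ` of the restricted scalars, or `Quotient.lift`), restrict it to `M(θ)_J`; it kills `M(θ)'_J`
(`Psi_etaG`: every `L` with `J ⊂ L ⊆ I(θ)` meets `K`; `Psi_mul_eq_zero`), so it factors through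
`E(θ)_J`.  Injective: if `c ∈ k[G]` has class in `M(θ)_J` (so `c - a * etaG κ n J ∈ ind θ` for some
`a`) and `Psi (P K) χ c = 0` then `Psi (P {i}) χ' c = 0` for `i ∈ J` (`Psi_etaG`, `Psi_ind`), so
`mem_MJ'_of_Psi` applies.
-/

set_option autoImplicit false

namespace Pool.Agent.Helper89.SX

open Matrix MonoidAlgebra

namespace Datum

variable {p : ℕ} [Fact p.Prime] {F : Type*} [Field F] [CharP F p] {G : Type*} [Group G]
  {I : Type*} {C : CoxeterMatrix I} {W : Type*} [Group W] {cs : CoxeterSystem C W}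
  (D : Datum p F G cs) {κ : Type*} [Field κ]

/-- **SX-B4.** -/
theorem exists_ev [Fintype W] {n : Set I → W → G} (hn : D.IsReps n) {θ : D.T →* κˣ}
    {J : Set I} (hJ : J ⊆ D.Iθ θ) {χ : D.P (D.Iθ θ \ J) →* κˣ} (h : D.Extends θ χ) :
    ∃ ev : D.E θ n J →ₗ[κ] (G → κ), Function.Injective ev ∧
      (∀ g x, ev ((single g (1 : κ) : MonoidAlgebra κ G) • x) = lt g (ev x)) ∧
      (∀ x, RightEq (D.P (D.Iθ θ \ J)) χ (ev x)) ∧ ∀ x, FinMod (D.P (D.Iθ θ \ J)) (ev x) := by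
  classical
  have hΨ : ∀ c ∈ (D.ind θ).restrictScalars κ, Psi (D.P (D.Iθ θ \ J)) χ c = 0 := fun c hc =>
    D.Psi_ind h ((Submodule.restrictScalars_mem κ _ _).1 hc)
  let Ψ₁ : D.MM θ →ₗ[κ] (G → κ) :=
    (((D.ind θ).restrictScalars κ).liftQ (Psi (D.P (D.Iθ θ \ J)) χ)
      (fun c hc => by rw [LinearMap.mem_ker]; exact hΨ c hc)) ∘ₗ
      (Submodule.Quotient.restrictScalarsEquiv κ (D.ind θ)).symm.toLinearMap
  have hΨ₁ : ∀ c, Ψ₁ ((D.ind θ).mkQ c) = Psi (D.P (D.Iθ θ \ J)) χ c := fun c => rfl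
  -- the submodule killed by `Ψ₁` together with all its translates
  let Z : Submodule (MonoidAlgebra κ G) (D.MM θ) :=
    { carrier := {y | ∀ a : MonoidAlgebra κ G, Ψ₁ (a • y) = 0}
      add_mem' := fun {x y} hx hy a => by rw [smul_add, map_add, hx a, hy a, add_zero]
      zero_mem' := fun a => by rw [smul_zero, map_zero]
      smul_mem' := fun b x hx a => by rw [← mul_smul]; exact hx (a * b) }
  have hZ : D.MJ' θ n J ≤ Z := by
    refine iSup₂_le fun L hL => ?_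
    obtain ⟨hJL, hLI⟩ := hL
    refine (Submodule.span_singleton_le_iff_mem _ _).2 ?_
    intro a
    obtain ⟨i, hiL, hiJ⟩ := Set.exists_of_ssubset hJL
    have e : a • D.eta θ n L = (D.ind θ).mkQ (a * D.etaG κ n L) := by
      rw [← smul_eq_mul, map_smul]; rfl
    rw [e, hΨ₁]
    exact Psi_mul_eq_zero _ _ _ (D.Psi_etaG hn hLI (i := i) (K := D.Iθ θ \ J) ⟨hLI hiL, hiJ⟩ hiL h)
  let Ψ₂ : D.MJ θ n J →ₗ[κ] (G → κ) := Ψ₁ ∘ₗ ((D.MJ θ n J).subtype.restrictScalars κ)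
  let N' : Submodule (MonoidAlgebra κ G) (D.MJ θ n J) := (D.MJ' θ n J).comap (D.MJ θ n J).subtype
  have hΨ₂ : ∀ y ∈ N'.restrictScalars κ, Ψ₂ y = 0 := by
    intro y hy
    have h1 : (y : D.MM θ) ∈ Z := hZ hy
    have h2 := h1 1
    rw [one_smul] at h2
    exact h2
  let ev : D.E θ n J →ₗ[κ] (G → κ) :=
    ((N'.restrictScalars κ).liftQ Ψ₂ (fun c hc => by rw [LinearMap.mem_ker]; exact hΨ₂ c hc)) ∘ₗ
      (Submodule.Quotient.restrictScalarsEquiv κ N').symm.toLinearMap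
  have hev : ∀ y : D.MJ θ n J, ev (Submodule.Quotient.mk y) = Ψ₁ (y : D.MM θ) := fun y => rfl
  have hrep : ∀ x : D.E θ n J, ∃ y : D.MJ θ n J, ∃ a : MonoidAlgebra κ G,
      x = Submodule.Quotient.mk y ∧ (y : D.MM θ) = (D.ind θ).mkQ (a * D.etaG κ n J) := by
    intro x
    obtain ⟨y, rfl⟩ := Submodule.Quotient.mk_surjective _ x
    obtain ⟨a, ha⟩ := Submodule.mem_span_singleton.1 y.2
    refine ⟨y, a, rfl, ?_⟩
    rw [← ha, ← smul_eq_mul, map_smul]
    rfl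
  refine ⟨ev, ?_, ?_, ?_, ?_⟩
  · rw [injective_iff_map_eq_zero]
    intro x hx
    obtain ⟨y, a, rfl, hy⟩ := hrep x
    rw [hev, hy, hΨ₁] at hx
    rw [Submodule.Quotient.mk_eq_zero, Submodule.mem_comap]
    change (y : D.MM θ) ∈ D.MJ' θ n J
    rw [hy]
    refine D.mem_MJ'_of_Psi hn hJ h _ (fun i hi χ' hχ' => ?_) hx
    exact Psi_mul_eq_zero _ _ _ (D.Psi_etaG hn hJ (Set.mem_singleton i) hi hχ')
  · intro g x
    obtain ⟨y, a, rfl, hy⟩ := hrep x
    have e : (single g (1 : κ) : MonoidAlgebra κ G) • (Submodule.Quotient.mk y : D.E θ n J) =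
        Submodule.Quotient.mk ((single g (1 : κ) : MonoidAlgebra κ G) • y) := rfl
    rw [e, hev, hev, Submodule.coe_smul, hy, ← map_smul, hΨ₁, hΨ₁, smul_eq_mul, Psi_single_mul]
  · intro x
    obtain ⟨y, a, rfl, hy⟩ := hrep x
    rw [hev, hy, hΨ₁]
    exact Psi_rightEq _ _ _
  · intro x
    obtain ⟨y, a, rfl, hy⟩ := hrep x
    rw [hev, hy, hΨ₁]
    exact Psi_finMod _ _ _

end Datum

end Pool.Agent.Helper89.SX
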