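import Mathlib
import Pool.Agent.Helper89.SX.Defs3

/-!
# SX-S1: from the rational Steinberg module to the Steinberg module over `k`

Proof.  Define the additive map `J : (G ⧸ B →₀ ℚ) →+ M(tr)`, `single c r ↦ (r : k) • [single g 1]`
for any `g` in the coset `c` (`Quotient.out`; the class of `single (g b) 1` is that of `single g 1`
for `b ∈ B`, because `single b 1 - 1 ∈ ind 1` for `b ∈ T` and `b ∈ U`).  `J (act g x) =
single g 1 • J x` (check on `single`).  `J e = η` (the class of `single n 1`, `n ∈ N`, depends only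
on `ν n`: `ν_eq_iff`), so `J` maps `StQ` to the span of `η`.
-/

set_option autoImplicit false

namespace Pool.Agent.Helper89.SX

open Matrix MonoidAlgebra

namespace Datum

variable {p : ℕ} [Fact p.Prime] {F : Type*} [Field F] [CharP F p] {G : Type*} [Group G]
  {I : Type*} {C : CoxeterMatrix I} {W : Type*} [Group W] {cs : CoxeterSystem C W}
  (D : Datum p F G cs) [Fintype W]

omit [Fintype W] in
private theorem mkQ_mul_B (k : Type*) [Field k] {b : G} (hb : b ∈ D.B) (g : G) (r : k) :
    (D.ind (1 : D.T →* kˣ)).mkQ (single (g * b) r) =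
      (D.ind (1 : D.T →* kˣ)).mkQ (single g r) := by
  have key : ∀ x : G, (single x (1 : k) - single 1 1 : MonoidAlgebra k G) ∈
      D.ind (1 : D.T →* kˣ) → ∀ (g : G) (r : k),
      (D.ind (1 : D.T →* kˣ)).mkQ (single (g * x) r) =
        (D.ind (1 : D.T →* kˣ)).mkQ (single g r) := by
    intro x hx g r
    rw [← sub_eq_zero, ← map_sub, Submodule.mkQ_apply, Submodule.Quotient.mk_eq_zero]
    have h := (D.ind (1 : D.T →* kˣ)).smul_mem (single g r) hx
    rw [smul_eq_mul, mul_sub, single_mul_single, single_mul_single, mul_one, mul_one] at h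
    exact h
  have hb' : b ∈ Subgroup.closure ((D.T : Set G) ∪ (D.U : Set G)) := by
    have h2 : D.B = Subgroup.closure ((D.T : Set G) ∪ (D.U : Set G)) := by
      unfold B
      rw [Subgroup.closure_union, Subgroup.closure_eq, Subgroup.closure_eq]
    rwa [h2] at hb
  induction hb' using Subgroup.closure_induction generalizing g with
  | mem x hx =>
    rcases hx with hx | hx
    · refine key x ?_ g r
      refine Submodule.subset_span (Or.inl ⟨⟨x, hx⟩, ?_⟩)
      simp
    · refine key x ?_ g r
      exact Submodule.subset_span (Or.inr ⟨x, hx, rfl⟩)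
  | one => rw [mul_one]
  | mul x y hx hy hx' hy' =>
    have hxB : x ∈ D.B := by
      unfold B
      rw [← Subgroup.closure_eq D.T, ← Subgroup.closure_eq D.U, ← Subgroup.closure_union]
      exact hx
    have hyB : y ∈ D.B := by
      unfold B
      rw [← Subgroup.closure_eq D.T, ← Subgroup.closure_eq D.U, ← Subgroup.closure_union]
      exact hy
    rw [← mul_assoc, hy' hyB, hx' hxB]
  | inv x hx hx' =>
    have hxB : x ∈ D.B := by
      unfold B
      rw [← Subgroup.closure_eq D.T, ← Subgroup.closure_eq D.U, ← Subgroup.closure_union]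
      exact hx
    have h := hx' hxB (g * x⁻¹)
    rw [inv_mul_cancel_right] at h
    exact h.symm

/-- **SX-S1.** -/
theorem exists_j (k : Type*) [Field k] [CharZero k] {n : Set I → W → G} (hn : D.IsReps n) :
    ∃ j : D.StQ →+ D.St k n,
      (∀ g x, j (D.actS g x) = (single g (1 : k) : MonoidAlgebra k G) • j x) ∧
      (j D.eS : D.MM (1 : D.T →* kˣ)) = D.eta 1 n Set.univ := by
  classical
  -- the additive map
  let J : D.X →+ D.MM (1 : D.T →* kˣ) := Finsupp.liftAddHom fun c : G ⧸ D.B =>
    ((D.ind (1 : D.T →* kˣ)).mkQ.toAddMonoidHom).comp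
      ((singleAddHom (R := k) (M := G) c.out).comp (Rat.castHom k).toAddMonoidHom)
  have hJ0 : ∀ (c : G ⧸ D.B) (r : ℚ), J (Finsupp.single c r) =
      (D.ind (1 : D.T →* kˣ)).mkQ (single c.out (r : k)) := by
    intro c r
    simp [J]
  have hJ1 : ∀ (g : G) (r : ℚ), J (Finsupp.single (g : G ⧸ D.B) r) =
      (D.ind (1 : D.T →* kˣ)).mkQ (single g (r : k)) := by
    intro g r
    rw [hJ0]
    obtain ⟨b, hb⟩ := QuotientGroup.mk_out_eq_mul D.B g
    rw [hb]
    exact D.mkQ_mul_B k b.2 g _
  have hact : ∀ (g : G) (x : D.X), J (D.act g x) =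
      (single g (1 : k) : MonoidAlgebra k G) • J x := by
    intro g x
    induction x using Finsupp.induction_linear with
    | zero => simp
    | add x y hx hy => rw [map_add, map_add, map_add, hx, hy, smul_add]
    | single c r =>
      obtain ⟨h, rfl⟩ := QuotientGroup.mk_surjective c
      have h1 : D.act g (Finsupp.single (h : G ⧸ D.B) r) =
          Finsupp.single ((g * h : G) : G ⧸ D.B) r := by
        unfold act
        rw [Finsupp.lmapDomain_apply, Finsupp.mapDomain_single]
        rfl
      rw [h1, hJ1, hJ1, ← map_smul, smul_eq_mul, single_mul_single, one_mul]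
  have hrat : ∀ (r : ℚ) (x : D.X), J (r • x) =
      (single 1 (r : k) : MonoidAlgebra k G) • J x := by
    intro r x
    induction x using Finsupp.induction_linear with
    | zero => simp
    | add x y hx hy => rw [smul_add, map_add, map_add, hx, hy, smul_add]
    | single c q =>
      obtain ⟨h, rfl⟩ := QuotientGroup.mk_surjective c
      rw [Finsupp.smul_single, smul_eq_mul, hJ1, hJ1, ← map_smul, smul_eq_mul, single_mul_single,
        one_mul, Rat.cast_mul]
  have he : J D.eQ = D.eta 1 n Set.univ := by
    have hW : ∀ w : W, w ∈ D.WJ Set.univ := by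
      intro w
      unfold WJ
      rw [Set.image_univ, cs.subgroup_closure_range_simple]
      trivial
    unfold eQ eta etaG
    rw [map_sum, map_sum, Finset.filter_true_of_mem (fun w _ => hW w)]
    refine Finset.sum_congr rfl fun w _ => ?_
    have h1 : ((-1 : ℚ) ^ cs.length w) • D.δ (D.rep w) =
        Finsupp.single ((D.rep w : G) : G ⧸ D.B) ((-1 : ℚ) ^ cs.length w) := by
      unfold δ
      rw [Finsupp.smul_single, smul_eq_mul, mul_one]
    rw [h1, hJ1]
    obtain ⟨-, hN, hν⟩ := hn Set.univ w (hW w)
    have hT : (D.rep w)⁻¹ * n Set.univ w ∈ D.T := by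
      have h2 : D.ν (⟨D.rep w, D.rep_mem w⟩⁻¹ * ⟨n Set.univ w, hN⟩) = 1 := by
        rw [map_mul, map_inv, D.ν_rep, hν, inv_mul_cancel]
      exact (D.ν_eq_one _).1 h2
    have h3 := D.mkQ_mul_B k (Subgroup.mem_sup_left hT : _ ∈ D.B) (D.rep w)
      ((((-1 : ℚ) ^ cs.length w : ℚ)) : k)
    rw [mul_inv_cancel_left] at h3
    rw [← h3]
    congr 2
    push_cast
    rfl
  have hmem : ∀ x ∈ D.StQ, J x ∈ D.MJ (1 : D.T →* kˣ) n Set.univ := by
    intro x hx
    unfold StQ at hx
    induction hx using Submodule.span_induction with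
    | mem x hx =>
      obtain ⟨g, rfl⟩ := hx
      simp only
      rw [hact, he]
      exact Submodule.smul_mem _ _ (Submodule.subset_span rfl)
    | zero => rw [map_zero]; exact Submodule.zero_mem _
    | add x y hx hy hx' hy' => rw [map_add]; exact Submodule.add_mem _ hx' hy'
    | smul r x hx hx' => rw [hrat]; exact Submodule.smul_mem _ _ hx'
  refine ⟨{ toFun := fun x => ⟨J x, hmem x x.2⟩
            map_zero' := ?_
            map_add' := ?_ }, ?_, ?_⟩
  · apply Subtype.ext
    simp
  · intro x y
    apply Subtype.ext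
    simp
  · intro g x
    apply Subtype.ext
    exact hact g x
  · exact he

end Datum

end Pool.Agent.Helper89.SX
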