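import Mathlib

/-!
# SX-L2: the Gram matrix estimate

Proof.  Let `Q = #k`, `Q₀ = #k₀`, `h(a) = g a` below, `Λ = {c ^ 2 : c ∈ k, c ≠ 0}`.
(1) For `a ∈ k`: `‖∑_{s ∈ k₀} ζ(s a)‖² = ∑_{s,s' ∈ k₀} ⟨ζ(s a), ζ(s' a)⟩ = ∑_{s,s'} g((s' - s) a)
= Q₀ g(0) + Q₀ (Q₀ - 1) g(a)`, since `s' - s ∈ k₀ \ {0}` is `c ^ 2` with `c ∈ k`.  This is real and
`≥ 0`; `g(0) = ‖ζ 0‖²` is real, `0 ≤ g(0) ≤ A²`.  So (for `Q₀ > 1`) `g(a)` is real and
`g(a) ≥ -g(0)/(Q₀ - 1)`.  (Work with real parts.)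
(2) `‖∑_{a ∈ k} ζ(a)‖² = ∑_{a,b ∈ k} g(b - a) = Q ∑_{a ∈ k} g(a)`, so `∑_{a ∈ k} g(a) ≤ A²/Q`.
(3) `∑_{a ∈ Λ} g(a) = #Λ g(1)`, `2 #Λ ≥ Q - 1` (`c ↦ c ^ 2` is at most two to one on `k \ {0}`),
`0 ∉ Λ ⊆ k`.  By (1), (2): `#Λ g(1) ≤ A²/Q - g(0) + (Q - 1 - #Λ) g(0)/(Q₀ - 1)`, hence
`g(1) ≤ A²/(Q #Λ) + A²/(Q₀ - 1)`.
(4) `‖∑_{s ∈ k₀} ζ(s)‖² = Q₀ (g(0) + (Q₀ - 1) g(1)) ≤ Q₀ (A² + (Q₀ - 1) A²/(Q #Λ) + A²) ≤ 3 Q₀ A²`,
as `Q₀ - 1 ≤ Q ≤ Q #Λ`.
-/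

set_option autoImplicit false

namespace Pool.Agent.Helper89.SX

/-- The square of the norm of a sum. -/
private theorem normsq_sum {F : Type*} {E : Type*} [NormedAddCommGroup E] [InnerProductSpace ℂ E]
    (S : Finset F) (v : F → E) :
    ‖∑ a ∈ S, v a‖ ^ 2 = ∑ a ∈ S, ∑ b ∈ S, (inner ℂ (v a) (v b) : ℂ).re := by
  have h := @inner_self_eq_norm_sq ℂ E _ _ _ (∑ a ∈ S, v a)
  have h2 : (inner ℂ (∑ a ∈ S, v a) (∑ a ∈ S, v a) : ℂ)
      = ∑ a ∈ S, ∑ b ∈ S, (inner ℂ (v a) (v b) : ℂ) := by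
    rw [sum_inner]
    refine Finset.sum_congr rfl fun a _ => ?_
    rw [inner_sum]
  rw [h2] at h
  rw [← h]
  simp

private theorem gram_aux {F : Type*} [Field F] {E : Type*} [NormedAddCommGroup E]
    [InnerProductSpace ℂ E] (k k₀ : Finset F) (hsub' : ∀ a ∈ k₀, ∀ b ∈ k₀, a - b ∈ k₀)
    (hmul : ∀ a ∈ k, ∀ b ∈ k, a * b ∈ k)
    (hk : k₀ ⊆ k) (hsq : ∀ s ∈ k₀, ∃ c ∈ k, s = c ^ 2)
    (ζ : F → E) (g : F → ℂ) (hg : ∀ a ∈ k, ∀ b ∈ k, inner ℂ (ζ a) (ζ b) = g (b - a))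
    (hinv : ∀ c ∈ k, c ≠ 0 → ∀ a ∈ k, g (c ^ 2 * a) = g a) (a : F) (ha : a ∈ k) :
    ‖∑ s ∈ k₀, ζ (s * a)‖ ^ 2 = k₀.card * ((g 0).re + (k₀.card - 1) * (g a).re) := by
  classical
  rw [normsq_sum]
  have h1 : ∀ s ∈ k₀, ∑ b ∈ k₀, (inner ℂ (ζ (s * a)) (ζ (b * a)) : ℂ).re
      = (g 0).re + (k₀.card - 1) * (g a).re := by
    intro s hs
    rw [← Finset.add_sum_erase _ _ hs]
    have e1 : (inner ℂ (ζ (s * a)) (ζ (s * a)) : ℂ) = g 0 := by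
      rw [hg _ (hmul _ (hk hs) _ ha) _ (hmul _ (hk hs) _ ha), sub_self]
    rw [e1]
    congr 1
    rw [Finset.sum_congr rfl (g := fun _ => (g a).re)]
    · rw [Finset.sum_const, Finset.card_erase_of_mem hs, nsmul_eq_mul,
        Nat.cast_sub (Finset.card_pos.mpr ⟨s, hs⟩)]
      simp
    · intro b hb
      have hb' := Finset.mem_of_mem_erase hb
      rw [hg _ (hmul _ (hk hs) _ ha) _ (hmul _ (hk hb') _ ha)]
      obtain ⟨c, hc, hc2⟩ := hsq _ (hsub' _ hb' _ hs)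
      have hc0 : c ≠ 0 := by
        rintro rfl
        have : b - s = 0 := by rw [hc2]; ring
        exact Finset.ne_of_mem_erase hb (sub_eq_zero.mp this)
      have : b * a - s * a = c ^ 2 * a := by rw [← hc2]; ring
      rw [this, hinv c hc hc0 a ha]
  rw [Finset.sum_congr rfl h1, Finset.sum_const, nsmul_eq_mul]

/-- **SX-L2.** -/
theorem gram {F : Type*} [Field F] {E : Type*} [NormedAddCommGroup E] [InnerProductSpace ℂ E]
    (k k₀ : Finset F) (h0 : (0 : F) ∈ k) (h1 : (1 : F) ∈ k)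
    (hsub : ∀ a ∈ k, ∀ b ∈ k, a - b ∈ k) (hmul : ∀ a ∈ k, ∀ b ∈ k, a * b ∈ k)
    (h0' : (0 : F) ∈ k₀) (h1' : (1 : F) ∈ k₀) (hsub' : ∀ a ∈ k₀, ∀ b ∈ k₀, a - b ∈ k₀)
    (hk : k₀ ⊆ k) (hsq : ∀ s ∈ k₀, ∃ c ∈ k, s = c ^ 2)
    (ζ : F → E) (g : F → ℂ) (hg : ∀ a ∈ k, ∀ b ∈ k, inner ℂ (ζ a) (ζ b) = g (b - a))
    (hinv : ∀ c ∈ k, c ≠ 0 → ∀ a ∈ k, g (c ^ 2 * a) = g a) (A : ℝ) (hA : ‖ζ 0‖ ≤ A)
    (hA' : ‖∑ a ∈ k, ζ a‖ ≤ A) : ‖∑ a ∈ k₀, ζ a‖ ^ 2 ≤ 3 * k₀.card * A ^ 2 := by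
  classical
  have hA0 : 0 ≤ A := le_trans (norm_nonneg _) hA
  have h01 : (0 : F) ≠ 1 := zero_ne_one
  -- cardinalities
  have hQ0 : 2 ≤ k₀.card := by
    have : ({0, 1} : Finset F) ⊆ k₀ := by
      intro x hx
      rw [Finset.mem_insert, Finset.mem_singleton] at hx
      rcases hx with rfl | rfl
      · exact h0'
      · exact h1'
    have h2 := Finset.card_le_card this
    rwa [Finset.card_pair h01] at h2
  have hQQ : k₀.card ≤ k.card := Finset.card_le_card hk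
  have hg0 : (g 0).re = ‖ζ 0‖ ^ 2 := by
    have h := hg 0 h0 0 h0
    rw [sub_zero] at h
    rw [← h]
    exact @inner_self_eq_norm_sq ℂ E _ _ _ (ζ 0)
  have hg0n : 0 ≤ (g 0).re := by rw [hg0]; positivity
  have hg0A : (g 0).re ≤ A ^ 2 := by
    rw [hg0]
    exact pow_le_pow_left₀ (norm_nonneg _) hA 2
  have hc0 : (2 : ℝ) ≤ k₀.card := by exact_mod_cast hQ0
  have hcQ : (k₀.card : ℝ) ≤ k.card := by exact_mod_cast hQQ
  -- (1)
  have step1 : ∀ a ∈ k, - (g 0).re ≤ (k₀.card - 1) * (g a).re := by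
    intro a ha
    have h := gram_aux k k₀ hsub' hmul hk hsq ζ g hg hinv a ha
    have h2 : 0 ≤ (k₀.card : ℝ) * ((g 0).re + (k₀.card - 1) * (g a).re) := by
      rw [← h]; positivity
    have h3 : 0 ≤ (g 0).re + (k₀.card - 1) * (g a).re :=
      nonneg_of_mul_nonneg_right h2 (by linarith)
    linarith
  -- (2)
  have step2 : (k.card : ℝ) * ∑ a ∈ k, (g a).re ≤ A ^ 2 := by
    have h := normsq_sum k ζ
    have h2 : ∀ a ∈ k, ∑ b ∈ k, (inner ℂ (ζ a) (ζ b) : ℂ).re = ∑ b ∈ k, (g b).re := by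
      intro a ha
      refine Finset.sum_bij (fun b _ => b - a) (fun b hb => hsub b hb a ha)
        (fun b _ b' _ hbb => sub_left_injective hbb) ?_ ?_
      · intro b hb
        refine ⟨b - (0 - a), hsub b hb _ (hsub 0 h0 a ha), by ring⟩
      · intro b hb
        rw [hg a ha b hb]
    rw [Finset.sum_congr rfl h2, Finset.sum_const, nsmul_eq_mul] at h
    rw [← h]
    exact pow_le_pow_left₀ (norm_nonneg _) hA' 2
  -- (3)
  set Λ : Finset F := (k.erase 0).image (fun c => c ^ 2) with hΛ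
  have hΛk : Λ ⊆ k.erase 0 := by
    intro x hx
    rw [hΛ, Finset.mem_image] at hx
    obtain ⟨c, hc, rfl⟩ := hx
    refine Finset.mem_erase.mpr ⟨pow_ne_zero _ (Finset.ne_of_mem_erase hc), ?_⟩
    have := hmul c (Finset.mem_of_mem_erase hc) c (Finset.mem_of_mem_erase hc)
    rwa [← sq] at this
  have hΛc : (k.erase 0).card ≤ 2 * Λ.card := by
    rw [hΛ]
    refine Finset.card_le_mul_card_image _ _ fun a ha => ?_
    rw [Finset.mem_image] at ha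
    obtain ⟨c, hc, rfl⟩ := ha
    have hs : (k.erase 0).filter (fun x => x ^ 2 = c ^ 2) ⊆ {c, -c} := by
      intro x hx
      rw [Finset.mem_filter] at hx
      rw [Finset.mem_insert, Finset.mem_singleton]
      exact sq_eq_sq_iff_eq_or_eq_neg.mp hx.2
    exact (Finset.card_le_card hs).trans Finset.card_le_two
  have hΛ1 : 1 ≤ Λ.card := by
    refine Finset.card_pos.mpr ⟨1, ?_⟩
    rw [hΛ, Finset.mem_image]
    exact ⟨1, Finset.mem_erase.mpr ⟨h01.symm, h1⟩, by ring⟩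
  have hcard : (k.card : ℝ) - 1 ≤ 2 * Λ.card := by
    have h := hΛc
    rw [Finset.card_erase_of_mem h0] at h
    have h2 : k.card ≤ 2 * Λ.card + 1 := by omega
    have h3 : (k.card : ℝ) ≤ 2 * Λ.card + 1 := by exact_mod_cast h2
    linarith
  have hΛ1' : (1 : ℝ) ≤ Λ.card := by exact_mod_cast hΛ1
  have hgΛ : ∑ a ∈ Λ, (g a).re = Λ.card * (g 1).re := by
    rw [Finset.sum_congr rfl (g := fun _ => (g 1).re), Finset.sum_const, nsmul_eq_mul]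
    intro a ha
    rw [hΛ, Finset.mem_image] at ha
    obtain ⟨c, hc, rfl⟩ := ha
    have := hinv c (Finset.mem_of_mem_erase hc) (Finset.ne_of_mem_erase hc) 1 h1
    rw [mul_one] at this
    rw [this]
  have hsplit : ∑ a ∈ k, (g a).re
      = (g 0).re + (Λ.card * (g 1).re + ∑ a ∈ (k.erase 0) \ Λ, (g a).re) := by
    rw [← Finset.add_sum_erase _ _ h0, ← hgΛ, add_comm (∑ a ∈ Λ, (g a).re),
      Finset.sum_sdiff hΛk]
  have hrest : - (((k.card : ℝ) - 1 - Λ.card) * (g 0).re)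
      ≤ (k₀.card - 1) * ∑ a ∈ (k.erase 0) \ Λ, (g a).re := by
    rw [Finset.mul_sum]
    have h : ∑ a ∈ (k.erase 0) \ Λ, (- (g 0).re)
        ≤ ∑ a ∈ (k.erase 0) \ Λ, ((k₀.card : ℝ) - 1) * (g a).re :=
      Finset.sum_le_sum fun a ha => step1 a (Finset.mem_of_mem_erase (Finset.mem_sdiff.mp ha).1)
    rw [Finset.sum_const, nsmul_eq_mul, Finset.card_sdiff_of_subset hΛk,
      Nat.cast_sub (Finset.card_le_card hΛk), Finset.card_erase_of_mem h0,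
      Nat.cast_sub (Finset.card_pos.mpr ⟨0, h0⟩)] at h
    push_cast at h
    linarith
  -- (4)
  have hfin := gram_aux k k₀ hsub' hmul hk hsq ζ g hg hinv 1 h1
  simp only [mul_one] at hfin
  rw [hfin]
  set Q : ℝ := (k.card : ℝ) with hQ
  set q : ℝ := (k₀.card : ℝ) with hq
  set L : ℝ := (Λ.card : ℝ) with hL
  set R : ℝ := ∑ a ∈ (k.erase 0) \ Λ, (g a).re with hR
  set x : ℝ := (g 0).re with hx
  set y : ℝ := (g 1).re with hy
  rw [hsplit] at step2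
  -- L * ((q - 1) * y) ≤ (q - 1) * A ^ 2 / Q + L * x
  have hQ2 : 2 ≤ Q := by linarith
  have k1 : Q * ((q - 1) * (x + (L * y + R))) ≤ (q - 1) * A ^ 2 := by
    have := mul_le_mul_of_nonneg_left step2 (show 0 ≤ q - 1 by linarith)
    linarith [this]
  have k2 : Q * ((q - 1) * x + L * ((q - 1) * y) - (Q - 1 - L) * x) ≤ (q - 1) * A ^ 2 := by
    have : Q * ((q - 1) * x + L * ((q - 1) * y) - (Q - 1 - L) * x)
        ≤ Q * ((q - 1) * (x + (L * y + R))) := by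
      refine mul_le_mul_of_nonneg_left ?_ (by linarith)
      linarith
    linarith
  have k3 : (Q - 1 - L) * x ≤ L * x := mul_le_mul_of_nonneg_right (by linarith) hg0n
  have k4 : 0 ≤ (q - 1) * x := mul_nonneg (by linarith) hg0n
  have k5 : Q * (L * ((q - 1) * y - x)) ≤ (q - 1) * A ^ 2 := by
    refine le_trans (mul_le_mul_of_nonneg_left ?_ (by linarith)) k2
    linarith
  have hAA : 0 ≤ A ^ 2 := by positivity
  have k6 : (q - 1) * y - x ≤ A ^ 2 := by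
    by_contra hcon
    rw [not_le] at hcon
    have h1 : Q * (L * A ^ 2) < Q * (L * ((q - 1) * y - x)) :=
      mul_lt_mul_of_pos_left (mul_lt_mul_of_pos_left hcon (by linarith)) (by linarith)
    have h2 : (q - 1) * A ^ 2 ≤ Q * (L * A ^ 2) := by
      rw [← mul_assoc]
      refine mul_le_mul_of_nonneg_right ?_ hAA
      nlinarith
    linarith
  have k7 : x + (q - 1) * y ≤ 3 * A ^ 2 := by linarith
  calc q * (x + (q - 1) * y) ≤ q * (3 * A ^ 2) := mul_le_mul_of_nonneg_left k7 (by linarith)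
    _ = 3 * q * A ^ 2 := by ring

end Pool.Agent.Helper89.SX
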