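import Mathlib
import Pool.Agent.Helper89.SX.Defs3
import Pool.Agent.Helper89.SX.St.A2

/-!
# SX-T2: the finite levels

Hints.
* `mem_Gm`: `Gm` is the `toFinset` of `{g | Fr^[m] g = g}`.  Iterates of a homomorphism:
  `MonoidHom.iterate_map_mul`, `MonoidHom.iterate_map_inv`.
* `exists_level`: for a finite set, take the product of the periods (`Fr_fixed`).
* `mem_fm`: roots of `X ^ (q ^ m) - X`, a non-zero polynomial since `q ^ m > 1` (`q = p ^ e`,
  `e > 0`); `Polynomial.mem_roots`.  Closure under `-`, `*`: `sub_pow_char_pow`,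
  `q ^ m = p ^ (e m)`.
* `card_fm`: `X ^ (q ^ m) - X` is separable (`galois_poly_separable`), so it has `q ^ m` roots in the
  algebraically closed field (`IsAlgClosed.splits`, `Polynomial.nodup_roots`,
  `Polynomial.splits_iff_card_roots`).
* `exists_sq`: `s = c ^ 2` in `F`; `(c ^ Q) ^ 2 = s ^ Q = s = c ^ 2` for `Q = q ^ m₀`, so
  `c ^ Q = ± c`, `c ^ (Q ^ 2) = c` (in characteristic `2`, `± c = c`; in general
  `(-c) ^ Q = - c ^ Q` for odd `Q`, or `(-1) ^ Q = -1` in characteristic `p`), hence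
  `c ^ (q ^ m) = c` for `2 m₀ ∣ m`.
* `fixed_up`: `Fr^[m] (φ(up a)) = φ(up (a ^ q ^ m))`.
-/

set_option autoImplicit false

namespace Pool.Agent.Helper89.SX

open Matrix MonoidAlgebra

namespace Datum

variable {p : ℕ} [Fact p.Prime] {F : Type*} [Field F] [CharP F p] {G : Type*} [Group G]
  {I : Type*} {C : CoxeterMatrix I} {W : Type*} [Group W] {cs : CoxeterSystem C W}
  (D : Datum p F G cs)

theorem mem_Gm {m : ℕ} (hm : 0 < m) {g : G} : g ∈ D.Gm m ↔ D.Fr^[m] g = g := by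
  unfold Gm
  rw [dif_pos hm, Set.Finite.mem_toFinset]
  rfl

private theorem T2_pos {m : ℕ} {g : G} (hg : g ∈ D.Gm m) : 0 < m := by
  by_contra h
  unfold Gm at hg
  rw [dif_neg h] at hg
  exact absurd hg (Finset.notMem_empty _)

theorem one_mem_Gm {m : ℕ} (hm : 0 < m) : (1 : G) ∈ D.Gm m := by
  rw [D.mem_Gm hm]
  exact iterate_map_one D.Fr m

theorem mul_mem_Gm {m : ℕ} {g h : G} (hg : g ∈ D.Gm m) (hh : h ∈ D.Gm m) : g * h ∈ D.Gm m := by
  have hm := D.T2_pos hg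
  rw [D.mem_Gm hm] at *
  rw [iterate_map_mul, hg, hh]

theorem inv_mem_Gm {m : ℕ} {g : G} (hg : g ∈ D.Gm m) : g⁻¹ ∈ D.Gm m := by
  have hm := D.T2_pos hg
  rw [D.mem_Gm hm] at *
  rw [iterate_map_inv, hg]

theorem Gm_mono {m m' : ℕ} (h : m ∣ m') (hm' : 0 < m') : D.Gm m ⊆ D.Gm m' := by
  intro g hg
  have hm := D.T2_pos hg
  rw [D.mem_Gm hm] at hg
  rw [D.mem_Gm hm']
  obtain ⟨k, rfl⟩ := h
  rw [Function.iterate_mul]
  exact Function.iterate_fixed hg k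

/-- **SX-T2a.** Every finite set is contained in a finite level. -/
theorem exists_level (S : Finset G) : ∃ m, 0 < m ∧ S ⊆ D.Gm m := by
  classical
  induction S using Finset.induction_on with
  | empty => exact ⟨1, one_pos, Finset.empty_subset _⟩
  | insert g S _ ih =>
    obtain ⟨m, hm, hS⟩ := ih
    obtain ⟨k, hk, hg⟩ := D.Fr_fixed g
    refine ⟨k * m, Nat.mul_pos hk hm, Finset.insert_subset ?_ ?_⟩
    · exact D.Gm_mono (Dvd.intro m rfl) (Nat.mul_pos hk hm) ((D.mem_Gm hk).2 hg)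
    · exact hS.trans (D.Gm_mono (Dvd.intro_left k rfl) (Nat.mul_pos hk hm))

theorem one_lt_q : 1 < D.q := by
  unfold q
  exact Nat.one_lt_pow D.e_pos.ne' (Fact.out : p.Prime).one_lt

private theorem T2_q_pow (m : ℕ) : D.q ^ m = p ^ (D.e * m) := by
  unfold q
  rw [pow_mul]

private theorem T2_one_lt {m : ℕ} (hm : 0 < m) : 1 < D.q ^ m := Nat.one_lt_pow hm.ne' D.one_lt_q

private theorem T2_ne {m : ℕ} (hm : 0 < m) :
    (Polynomial.X ^ (D.q ^ m) - Polynomial.X : Polynomial F) ≠ 0 :=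
  FiniteField.X_pow_card_sub_X_ne_zero F (D.T2_one_lt hm)

theorem mem_fm {m : ℕ} (hm : 0 < m) {a : F} : a ∈ D.fm m ↔ a ^ D.q ^ m = a := by
  classical
  unfold fm
  rw [Multiset.mem_toFinset, Polynomial.mem_roots (D.T2_ne hm), Polynomial.IsRoot.def,
    Polynomial.eval_sub, Polynomial.eval_pow, Polynomial.eval_X, sub_eq_zero]

theorem zero_mem_fm {m : ℕ} (hm : 0 < m) : (0 : F) ∈ D.fm m := by
  rw [D.mem_fm hm]
  exact zero_pow (by have := D.T2_one_lt hm; omega)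

theorem one_mem_fm {m : ℕ} (hm : 0 < m) : (1 : F) ∈ D.fm m := by
  rw [D.mem_fm hm]
  exact one_pow _

theorem sub_mem_fm {m : ℕ} (hm : 0 < m) {a b : F} (ha : a ∈ D.fm m) (hb : b ∈ D.fm m) :
    a - b ∈ D.fm m := by
  rw [D.mem_fm hm] at *
  rw [D.T2_q_pow] at *
  rw [sub_pow_char_pow, ha, hb]

theorem mul_mem_fm {m : ℕ} (hm : 0 < m) {a b : F} (ha : a ∈ D.fm m) (hb : b ∈ D.fm m) :
    a * b ∈ D.fm m := by
  rw [D.mem_fm hm] at *
  rw [mul_pow, ha, hb]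

theorem inv_mem_fm {m : ℕ} (hm : 0 < m) {a : F} (ha : a ∈ D.fm m) : a⁻¹ ∈ D.fm m := by
  rw [D.mem_fm hm] at *
  rw [inv_pow, ha]

theorem fm_mono {m m' : ℕ} (hm : 0 < m) (h : m ∣ m') (hm' : 0 < m') : D.fm m ⊆ D.fm m' := by
  intro a ha
  rw [D.mem_fm hm] at ha
  rw [D.mem_fm hm']
  obtain ⟨k, rfl⟩ := h
  rw [pow_mul]
  have h1 : ∀ k : ℕ, a ^ (D.q ^ m) ^ k = a := by
    intro k
    induction k with
    | zero => rw [pow_zero, pow_one]
    | succ k ih => rw [pow_succ, pow_mul, ih, ha]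
  exact h1 k

theorem card_fm [IsAlgClosed F] {m : ℕ} (hm : 0 < m) : (D.fm m).card = D.q ^ m := by
  classical
  unfold fm
  have hq : D.q ^ m ≠ 0 := by have := D.T2_one_lt hm; omega
  have hp : p ∣ D.q ^ m := by
    rw [D.T2_q_pow]
    exact dvd_pow_self p (Nat.mul_pos D.e_pos hm).ne'
  have hsep : (Polynomial.X ^ (D.q ^ m) - Polynomial.X : Polynomial F).Separable :=
    galois_poly_separable p (D.q ^ m) hp
  rw [Multiset.toFinset_card_of_nodup (Polynomial.nodup_roots hsep)]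
  have h1 := (IsAlgClosed.splits (Polynomial.X ^ (D.q ^ m) - Polynomial.X : Polynomial F))
  rw [← h1.natDegree_eq_card_roots, FiniteField.X_pow_card_sub_X_natDegree_eq F (D.T2_one_lt hm)]

private theorem T2_neg_pow (m : ℕ) (c : F) : (-c) ^ D.q ^ m = -c ^ D.q ^ m := by
  rw [D.T2_q_pow]
  have h := sub_pow_char_pow (R := F) (p := p) (n := D.e * m) 0 c
  rw [zero_sub] at h
  rw [h, zero_pow (pow_ne_zero _ (Fact.out : p.Prime).ne_zero), zero_sub]

/-- **SX-T2b.** -/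
theorem exists_sq [IsAlgClosed F] {m₀ m : ℕ} (h₀ : 0 < m₀) (hm : 0 < m) (h : 2 * m₀ ∣ m) {s : F}
    (hs : s ∈ D.fm m₀) : ∃ c ∈ D.fm m, s = c ^ 2 := by
  obtain ⟨c, hc⟩ := IsAlgClosed.exists_pow_nat_eq s (n := 2) two_pos
  refine ⟨c, ?_, hc.symm⟩
  have h2 : 0 < 2 * m₀ := by omega
  refine D.fm_mono h2 h hm ?_
  rw [D.mem_fm h2]
  rw [D.mem_fm h₀] at hs
  have h3 : (c ^ D.q ^ m₀) ^ 2 = c ^ 2 := by
    rw [← pow_mul, mul_comm, pow_mul, hc, hs]
  have h4 : D.q ^ (2 * m₀) = D.q ^ m₀ * D.q ^ m₀ := by rw [two_mul, pow_add]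
  rw [h4, pow_mul]
  rcases sq_eq_sq_iff_eq_or_eq_neg.1 h3 with h5 | h5
  · rw [h5, h5]
  · rw [h5, D.T2_neg_pow, h5, neg_neg]

private theorem T2_iter_up (m : ℕ) (i : I) (a : F) :
    D.Fr^[m] (D.φ i (up a)) = D.φ i (up (a ^ D.q ^ m)) := by
  induction m with
  | zero => rw [Function.iterate_zero, id, pow_zero, pow_one]
  | succ m ih => rw [Function.iterate_succ_apply', ih, D.Fr_up, ← pow_mul, ← pow_succ]

private theorem T2_iter_lo (m : ℕ) (i : I) (a : F) :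
    D.Fr^[m] (D.φ i (lo a)) = D.φ i (lo (a ^ D.q ^ m)) := by
  induction m with
  | zero => rw [Function.iterate_zero, id, pow_zero, pow_one]
  | succ m ih => rw [Function.iterate_succ_apply', ih, D.Fr_lo, ← pow_mul, ← pow_succ]

private theorem T2_map_dg (f : F →+* F) (c : Fˣ) (n : ℕ) (hf : f c = ((c ^ n : Fˣ) : F)) :
    SpecialLinearGroup.map f (dg c) = dg (c ^ n) := by
  have h2 : f ((c⁻¹ : Fˣ) : F) = (((c ^ n)⁻¹ : Fˣ) : F) := by
    rw [Units.val_inv_eq_inv_val, map_inv₀, hf, Units.val_inv_eq_inv_val]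
  ext i j
  fin_cases i <;> fin_cases j
  · exact hf
  · exact map_zero f
  · exact map_zero f
  · exact h2

private theorem T2_Fr_dg (i : I) (c : Fˣ) : D.Fr (D.φ i (dg c)) = D.φ i (dg (c ^ D.q)) := by
  rw [D.Fr_φ, T2_map_dg _ c D.q]
  rw [iterateFrobenius_def, Units.val_pow_eq_pow_val]
  rfl

private theorem T2_iter_dg (m : ℕ) (i : I) (c : Fˣ) :
    D.Fr^[m] (D.φ i (dg c)) = D.φ i (dg (c ^ D.q ^ m)) := by
  induction m with
  | zero => rw [Function.iterate_zero, id, pow_zero, pow_one]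
  | succ m ih => rw [Function.iterate_succ_apply', ih, D.T2_Fr_dg, ← pow_mul, ← pow_succ]

theorem up_mem_Gm {m : ℕ} (hm : 0 < m) (i : I) {a : F} (ha : a ∈ D.fm m) :
    D.φ i (up a) ∈ D.Gm m := by
  rw [D.mem_fm hm] at ha
  rw [D.mem_Gm hm, D.T2_iter_up, ha]

theorem lo_mem_Gm {m : ℕ} (hm : 0 < m) (i : I) {a : F} (ha : a ∈ D.fm m) :
    D.φ i (lo a) ∈ D.Gm m := by
  rw [D.mem_fm hm] at ha
  rw [D.mem_Gm hm, D.T2_iter_lo, ha]

theorem dg_mem_Gm {m : ℕ} (hm : 0 < m) (i : I) {c : Fˣ} (hc : (c : F) ∈ D.fm m) :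
    D.φ i (dg c) ∈ D.Gm m := by
  rw [D.mem_fm hm] at hc
  have h : c ^ D.q ^ m = c := Units.ext (by rw [Units.val_pow_eq_pow_val, hc])
  rw [D.mem_Gm hm, D.T2_iter_dg, h]

theorem s_mem_Gm {m : ℕ} (hm : 0 < m) (i : I) : D.s i ∈ D.Gm m := by
  rw [D.mem_Gm hm]
  exact Function.iterate_fixed (D.Fr_s i) m

theorem rep_mem_Gm {m : ℕ} (hm : 0 < m) (w : W) : D.rep w ∈ D.Gm m := by
  rw [D.mem_Gm hm]
  exact Function.iterate_fixed (D.Fr_rep w) m

/-- If `φ(up a) s_i B` is fixed by `Fr^[m]` then `a ∈ F_m` (`up_s_inj`). -/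
theorem mem_fm_of_fixed {m : ℕ} (hm : 0 < m) (i : I) {a : F} {b g : G} (hb : b ∈ D.B)
    (hg : g ∈ D.Gm m) (h : g = D.φ i (up a) * D.s i * b) : a ∈ D.fm m := by
  have hg' := (D.mem_Gm hm).1 hg
  have hs := (D.mem_Gm hm).1 (D.s_mem_Gm hm i)
  have hbm : D.Fr^[m] b ∈ D.B := by
    have : ∀ k : ℕ, D.Fr^[k] b ∈ D.B := by
      intro k
      induction k with
      | zero => exact hb
      | succ k ih =>
        rw [Function.iterate_succ_apply']
        exact D.Fr_mem_B ih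
    exact this m
  rw [h, iterate_map_mul, iterate_map_mul, hs, D.T2_iter_up] at hg'
  rw [D.mem_fm hm]
  refine D.up_s_inj i (b := b * (D.Fr^[m] b)⁻¹) (D.B.mul_mem hb (D.B.inv_mem hbm)) ?_
  rw [← mul_assoc, ← hg']
  group

end Datum

end Pool.Agent.Helper89.SX
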