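import Mathlib
import Pool.Agent.Helper89.SX.St.T2

/-!
# SX-N1: norms

Hints.  `res S v` is the restriction of `v` to `S`, `‖res S v‖² = ∑_{g ∈ S} ‖v g‖²`
(`EuclideanSpace.norm_sq_eq`).
* `inner_res_lt`: reindex by `x ↦ g⁻¹ x`, a permutation of `G_m`.
* `norm_χ`: `g ∈ P` has finite order (`Fr_fixed`, `Fr_finite`: `g` is in a finite group), so `χ g`
  is a root of unity (`norm_eq_one_of_pow_eq_one`).
* `norm_bound`: let `S` be as in `FinMod`.  For `x ∈ G_m` with `v x ≠ 0` pick `y ∈ S` with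
  `y⁻¹ x ∈ P`; `‖v x‖ = ‖v y‖`.  For every `y`, the set of `x ∈ G_m` with `y⁻¹ x ∈ P` is empty or a
  coset `x₀ (P ∩ G_m)`, so has at most `#(P ∩ G_m)` elements.  So
  `∑ ‖v x‖² ≤ (∑_{y ∈ S} ‖v y‖²) #(P ∩ G_m)`.
* `orbit_bound`: the sets `x_j (P ∩ G_m)` are disjoint subsets of `G_m`, on which
  `‖v‖ = ‖v (x_j)‖`.
-/

set_option autoImplicit false

namespace Pool.Agent.Helper89.SX

open Matrix MonoidAlgebra

namespace Datum

variable {p : ℕ} [Fact p.Prime] {F : Type*} [Field F] [CharP F p] {G : Type*} [Group G]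
  {I : Type*} {C : CoxeterMatrix I} {W : Type*} [Group W] {cs : CoxeterSystem C W}
  (D : Datum p F G cs)

open Classical in
/-- `P ∩ G_m` -/
noncomputable def Pm (P : Subgroup G) (m : ℕ) : Finset G := (D.Gm m).filter (· ∈ P)

omit [Group G] in
private theorem norm_sq_res (S : Finset G) (v : G → ℂ) :
    ‖res S v‖ ^ 2 = ∑ g ∈ S, ‖v g‖ ^ 2 := by
  rw [EuclideanSpace.norm_sq_eq, ← Finset.sum_coe_sort S (fun g => ‖v g‖ ^ 2)]
  rfl

theorem Pm_card_pos (P : Subgroup G) {m : ℕ} (hm : 0 < m) : 0 < (D.Pm P m).card := by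
  classical
  refine Finset.card_pos.mpr ⟨1, ?_⟩
  unfold Pm
  exact Finset.mem_filter.mpr ⟨D.one_mem_Gm hm, P.one_mem⟩

theorem inner_res_lt {m : ℕ} {g : G} (hg : g ∈ D.Gm m) (v v' : G → ℂ) :
    inner ℂ (res (D.Gm m) (lt g v)) (res (D.Gm m) (lt g v')) =
      inner ℂ (res (D.Gm m) v) (res (D.Gm m) v') := by
  classical
  have key : ∀ w w' : G → ℂ, inner ℂ (res (D.Gm m) w) (res (D.Gm m) w') =
      ∑ x ∈ D.Gm m, inner ℂ (w x) (w' x) := by
    intro w w'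
    rw [PiLp.inner_apply, ← Finset.sum_coe_sort (D.Gm m) (fun x => inner ℂ (w x) (w' x))]
    rfl
  rw [key, key]
  refine Finset.sum_bij' (fun x _ => g⁻¹ * x) (fun x _ => g * x) ?_ ?_ ?_ ?_ ?_
  · intro x hx
    exact D.mul_mem_Gm (D.inv_mem_Gm hg) hx
  · intro x hx
    exact D.mul_mem_Gm hg hx
  · intro x _
    group
  · intro x _
    group
  · intro x _
    rfl

theorem norm_res_lt {m : ℕ} {g : G} (hg : g ∈ D.Gm m) (v : G → ℂ) :
    ‖res (D.Gm m) (lt g v)‖ = ‖res (D.Gm m) v‖ := by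
  have h := D.inner_res_lt hg v v
  rw [inner_self_eq_norm_sq_to_K, inner_self_eq_norm_sq_to_K] at h
  have h2 : ‖res (D.Gm m) (lt g v)‖ ^ 2 = ‖res (D.Gm m) v‖ ^ 2 := by
    exact_mod_cast h
  exact (sq_eq_sq₀ (norm_nonneg _) (norm_nonneg _)).mp h2

include D in
theorem norm_χ (P : Subgroup G) (χ : P →* ℂˣ) (g : P) : ‖(χ g : ℂ)‖ = 1 := by
  obtain ⟨m, hm, hfix⟩ := D.Fr_fixed (g : G)
  have hmem : ∀ n : ℕ, ((g : G) ^ n) ∈ D.Gm m := by
    intro n
    induction n with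
    | zero => rw [pow_zero]; exact D.one_mem_Gm hm
    | succ n ih => rw [pow_succ]; exact D.mul_mem_Gm ih ((D.mem_Gm hm).mpr hfix)
  have hfin : IsOfFinOrder (g : G) := by
    rw [← finite_powers]
    refine (D.Gm m).finite_toSet.subset ?_
    rintro _ ⟨n, rfl⟩
    exact hmem n
  obtain ⟨n, hn, hgn⟩ := isOfFinOrder_iff_pow_eq_one.mp hfin
  have h1 : g ^ n = 1 := Subtype.ext (by simpa using hgn)
  have h2 : ((χ g : ℂˣ) : ℂ) ^ n = 1 := by
    rw [← Units.val_pow_eq_pow_val, ← map_pow, h1, map_one, Units.val_one]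
  exact Complex.norm_eq_one_of_pow_eq_one h2 hn.ne'

include D in
private theorem norm_right (P : Subgroup G) (χ : P →* ℂˣ) {v : G → ℂ} (hv : RightEq P χ v)
    {x y : G} (h : y⁻¹ * x ∈ P) : ‖v x‖ = ‖v y‖ := by
  have h1 : x = y * (y⁻¹ * x) := by group
  rw [h1, hv y _ h, norm_mul, Units.val_inv_eq_inv_val, norm_inv, D.norm_χ P χ, inv_one, one_mul]

private theorem card_coset_le (P : Subgroup G) (m : ℕ) (y : G) [DecidablePred fun x => y⁻¹ * x ∈ P] :
    ((D.Gm m).filter fun x => y⁻¹ * x ∈ P).card ≤ (D.Pm P m).card := by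
  classical
  rcases Finset.eq_empty_or_nonempty ((D.Gm m).filter fun x => y⁻¹ * x ∈ P) with h | ⟨x₀, hx₀⟩
  · rw [h, Finset.card_empty]
    exact Nat.zero_le _
  · rw [Finset.mem_filter] at hx₀
    refine Finset.card_le_card_of_injOn (fun x => x₀⁻¹ * x) ?_ ?_
    · intro x hx
      rw [Finset.mem_coe, Finset.mem_filter] at hx
      unfold Pm
      rw [Finset.mem_coe, Finset.mem_filter]
      refine ⟨D.mul_mem_Gm (D.inv_mem_Gm hx₀.1) hx.1, ?_⟩
      show x₀⁻¹ * x ∈ P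
      have h1 : x₀⁻¹ * x = (y⁻¹ * x₀)⁻¹ * (y⁻¹ * x) := by group
      rw [h1]
      exact P.mul_mem (P.inv_mem hx₀.2) hx.2
    · intro a _ b _ hab
      exact mul_left_cancel hab

/-- **SX-N1a.** -/
theorem norm_bound (P : Subgroup G) (χ : P →* ℂˣ) {v : G → ℂ} (hv : RightEq P χ v)
    (hf : FinMod P v) :
    ∃ c : ℝ, 0 ≤ c ∧ ∀ m, 0 < m → ‖res (D.Gm m) v‖ ^ 2 ≤ c * (D.Pm P m).card := by
  classical
  obtain ⟨S, hS⟩ := hf
  refine ⟨∑ y ∈ S, ‖v y‖ ^ 2, Finset.sum_nonneg fun _ _ => sq_nonneg _, fun m _ => ?_⟩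
  rw [norm_sq_res]
  calc ∑ x ∈ D.Gm m, ‖v x‖ ^ 2
      ≤ ∑ x ∈ D.Gm m, ∑ y ∈ S, if y⁻¹ * x ∈ P then ‖v y‖ ^ 2 else 0 := by
        refine Finset.sum_le_sum fun x _ => ?_
        by_cases hx : v x = 0
        · rw [hx, norm_zero, zero_pow two_ne_zero]
          refine Finset.sum_nonneg fun y _ => ?_
          split_ifs
          · exact sq_nonneg _
          · exact le_refl _
        · obtain ⟨y, hy, hyx⟩ := hS x hx
          have h1 : ‖v x‖ ^ 2 = if y⁻¹ * x ∈ P then ‖v y‖ ^ 2 else 0 := by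
            rw [if_pos hyx, D.norm_right P χ hv hyx]
          rw [h1]
          refine Finset.single_le_sum (f := fun y => if y⁻¹ * x ∈ P then ‖v y‖ ^ 2 else 0)
            (fun z _ => ?_) hy
          show 0 ≤ if z⁻¹ * x ∈ P then ‖v z‖ ^ 2 else 0
          split_ifs
          · exact sq_nonneg _
          · exact le_refl _
    _ = ∑ y ∈ S, ∑ x ∈ D.Gm m, if y⁻¹ * x ∈ P then ‖v y‖ ^ 2 else 0 := Finset.sum_comm
    _ = ∑ y ∈ S, (((D.Gm m).filter fun x => y⁻¹ * x ∈ P).card : ℝ) * ‖v y‖ ^ 2 := by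
        refine Finset.sum_congr rfl fun y _ => ?_
        rw [← Finset.sum_filter, Finset.sum_const, nsmul_eq_mul]
    _ ≤ ∑ y ∈ S, ((D.Pm P m).card : ℝ) * ‖v y‖ ^ 2 := by
        refine Finset.sum_le_sum fun y _ => mul_le_mul_of_nonneg_right ?_ (sq_nonneg _)
        exact_mod_cast D.card_coset_le P m y
    _ = (∑ y ∈ S, ‖v y‖ ^ 2) * (D.Pm P m).card := by
        rw [← Finset.mul_sum, mul_comm]

/-- **SX-N1b.** -/
theorem orbit_bound (P : Subgroup G) (χ : P →* ℂˣ) {v : G → ℂ} (hv : RightEq P χ v) {m : ℕ}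
    (hm : 0 < m) {N : ℕ} (x : Fin N → G) (hx : ∀ j, x j ∈ D.Gm m)
    (hd : ∀ i j, i ≠ j → (x i)⁻¹ * x j ∉ P) :
    (∑ j, ‖v (x j)‖ ^ 2) * (D.Pm P m).card ≤ ‖res (D.Gm m) v‖ ^ 2 := by
  classical
  rw [norm_sq_res]
  have hmemP : ∀ g, g ∈ D.Pm P m ↔ g ∈ D.Gm m ∧ g ∈ P := fun g => by
    unfold Pm
    exact Finset.mem_filter
  have hinj : Set.InjOn (fun z : Fin N × G => x z.1 * z.2)
      ((Finset.univ ×ˢ D.Pm P m : Finset (Fin N × G)) : Set (Fin N × G)) := by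
    rintro ⟨i, g⟩ hg ⟨j, h⟩ hh heq
    rw [Finset.mem_coe, Finset.mem_product] at hg hh
    have hgP := ((hmemP g).mp hg.2).2
    have hhP := ((hmemP h).mp hh.2).2
    have heq' : x i * g = x j * h := heq
    have hij : i = j := by
      by_contra hne
      refine hd i j hne ?_
      have h1 : (x i)⁻¹ * x j = g * h⁻¹ := by
        have : x j = x i * g * h⁻¹ := by rw [heq']; group
        rw [this]; group
      rw [h1]
      exact P.mul_mem hgP (P.inv_mem hhP)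
    subst hij
    rw [mul_left_cancel heq']
  calc (∑ j, ‖v (x j)‖ ^ 2) * (D.Pm P m).card
      = ∑ z ∈ Finset.univ ×ˢ D.Pm P m, ‖v (x z.1 * z.2)‖ ^ 2 := by
        rw [Finset.sum_product, Finset.sum_mul]
        refine Finset.sum_congr rfl fun j _ => ?_
        have h1 : ∀ g ∈ D.Pm P m, ‖v (x j * g)‖ ^ 2 = ‖v (x j)‖ ^ 2 := by
          intro g hg
          have hgP := ((hmemP g).mp hg).2
          have h2 : (x j)⁻¹ * (x j * g) ∈ P := by
            have : (x j)⁻¹ * (x j * g) = g := by group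
            rw [this]
            exact hgP
          rw [D.norm_right P χ hv h2]
        rw [Finset.sum_congr rfl h1, Finset.sum_const, nsmul_eq_mul, mul_comm]
    _ = ∑ y ∈ (Finset.univ ×ˢ D.Pm P m).image (fun z : Fin N × G => x z.1 * z.2), ‖v y‖ ^ 2 := by
        rw [Finset.sum_image hinj]
    _ ≤ ∑ y ∈ D.Gm m, ‖v y‖ ^ 2 := by
        refine Finset.sum_le_sum_of_subset_of_nonneg ?_ fun _ _ _ => sq_nonneg _
        intro y hy
        rw [Finset.mem_image] at hy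
        obtain ⟨⟨j, g⟩, hz, rfl⟩ := hy
        rw [Finset.mem_product] at hz
        exact D.mul_mem_Gm (hx j) ((hmemP g).mp hz.2).1

end Datum

end Pool.Agent.Helper89.SX
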