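import Mathlib
import Pool.Agent.Helper89.SX.St.T2

/-!
# SX-T3a: Bruhat decomposition at the finite levels (`panel_mem`, `finite_bruhat`)

Proofs.
* `panel_mem`: `mem_P_singleton` and `mem_fm_of_fixed`.
* `finite_bruhat`: induction on `ℓ(pos g)`.  If `pos g = 1` take `b = 1`.  Otherwise let `i` be a
  right descent of `w = pos g`, `w' = w s_i`.  The `i`-panel `g P_i` of `g B` contains exactly one
  chamber `C'` with `pos = w'`; it is of the form `g B`… more precisely: `g = b₁ n b₂` with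
  `ν n = w`; put `x = b₁ n s_i⁻¹`, `pos x = w'`, `g⁻¹ x ∈ P {i}`.  For any `h ∈ P {i}` with
  `pos (x h) = w'` one has `h ∈ B` (`length_lt_of_mem_P` for `K = {i}`, `pos x = w'` has no descent
  `i`).  `Fr^[m] x = g (Fr^[m] (g⁻¹ x))` is in `g P_i = x P_i` and has `pos = w'` (`pos_Fr`), so
  `x⁻¹ Fr^[m] x ∈ B`.  Now `g⁻¹ x ∈ P {i}`: either `g⁻¹ x ∈ B` (impossible: `pos g ≠ w'`) or
  `g⁻¹ x = φ(up a) s_i b`; apply `Fr^[m]`: `φ(up (a ^ q ^ m)) s_i Fr^[m] b = g⁻¹ Fr^[m] x ∈
  φ(up a) s_i B`, so `a ∈ F_m` (`up_s_inj`), and `g' = g φ(up a) s_i ∈ G_m`, `g' B = x B`,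
  `pos g' = w'`.  By induction `g' = b' rep(w') b''` with `b' ∈ B ∩ G_m`.  Put `y = b' rep(w') ∈ G_m`.
  Then `y⁻¹ g ∈ P {i} ∩ G_m`, not in `B`, so `y⁻¹ g = φ(up a') s_i b₃`, `a' ∈ F_m`, and
  `g = b' (rep(w') φ(up a') rep(w')⁻¹) rep(w') s_i b₃` with `rep(w') φ(up a') rep(w')⁻¹ ∈ U ∩ G_m`
  (`conj_pos`) and `rep(w') s_i ∈ rep(w) T`.
* `panel_apply`: the chambers `g B` and `g φ(up a) s_i B`, `a ∈ F_m`, are pairwise different
  (`up_s_inj`, `s_not_mem_B`), and they are the chambers `x B`, `x ∈ G_m`, with `g⁻¹ x ∈ P {i}`.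
* `panel_congr`: both sides have the same value at every chamber (`panel_apply`, and they vanish at
  the chambers without representative in `G_m`).
* `panel_eq_lo`: `φ(up a) s_i B = φ(lo a⁻¹) B` for `a ≠ 0` (`up_mul_s`, `φ(dg _) , φ(up _) ∈ B`);
  `up 0 = lo 0 = 1`; the map `a ↦ a⁻¹` permutes `F_m \ {0}`.
-/

set_option autoImplicit false

namespace Pool.Agent.Helper89.SX

open Matrix MonoidAlgebra

namespace Datum

variable {p : ℕ} [Fact p.Prime] {F : Type*} [Field F] [CharP F p] {G : Type*} [Group G]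
  {I : Type*} {C : CoxeterMatrix I} {W : Type*} [Group W] {cs : CoxeterSystem C W}
  (D : Datum p F G cs)

/-- **SX-T3a.** -/
theorem panel_mem {m : ℕ} (hm : 0 < m) {i : I} {g : G} (hg : g ∈ D.Gm m) (hP : g ∈ D.P {i}) :
    g ∈ D.B ∨ ∃ a ∈ D.fm m, ∃ b ∈ D.B, g = D.φ i (up a) * D.s i * b := by
  rcases D.mem_P_singleton hP with h | ⟨a, b, hb, h⟩
  · exact Or.inl h
  · exact Or.inr ⟨a, D.mem_fm_of_fixed hm i hb hg h, b, hb, h⟩

private theorem Fr_it_mul (m : ℕ) (x y : G) : D.Fr^[m] (x * y) = D.Fr^[m] x * D.Fr^[m] y :=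
  iterate_map_mul D.Fr m x y

private theorem Fr_it_inv (m : ℕ) (x : G) : D.Fr^[m] x⁻¹ = (D.Fr^[m] x)⁻¹ :=
  iterate_map_inv D.Fr m x

private theorem Fr_it_s (m : ℕ) (i : I) : D.Fr^[m] (D.s i) = D.s i := by
  induction m with
  | zero => rfl
  | succ m ih => rw [Function.iterate_succ_apply', ih, D.Fr_s]

private theorem Fr_it_up (m : ℕ) (i : I) (a : F) :
    D.Fr^[m] (D.φ i (up a)) = D.φ i (up (a ^ D.q ^ m)) := by
  induction m with
  | zero => simp
  | succ m ih =>
    rw [Function.iterate_succ_apply', ih, D.Fr_up, ← pow_mul, ← pow_succ]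

private theorem Fr_it_mem_B (m : ℕ) {b : G} (hb : b ∈ D.B) : D.Fr^[m] b ∈ D.B := by
  induction m with
  | zero => exact hb
  | succ m ih => rw [Function.iterate_succ_apply']; exact D.Fr_mem_B ih

private theorem pos_Fr_it (m : ℕ) (g : G) : D.pos (D.Fr^[m] g) = D.pos g := by
  induction m with
  | zero => rfl
  | succ m ih => rw [Function.iterate_succ_apply', D.pos_Fr, ih]

/-- **SX-T3b.** -/
theorem finite_bruhat {m : ℕ} (hm : 0 < m) {g : G} (hg : g ∈ D.Gm m) :
    ∃ b ∈ D.B, b ∈ D.Gm m ∧ ∃ b' ∈ D.B, g = b * D.rep (D.pos g) * b' := by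
  obtain ⟨k, hk⟩ : ∃ k, cs.length (D.pos g) = k := ⟨_, rfl⟩
  induction k using Nat.strong_induction_on generalizing g with
  | _ k ih =>
    by_cases h1 : D.pos g = 1
    · have hgB : g ∈ D.B := (D.pos_eq_one_iff g).1 h1
      have hr : D.rep (D.pos g) ∈ D.T := by
        rw [h1]
        have := (D.ν_eq_one ⟨D.rep 1, D.rep_mem 1⟩).1 (D.ν_rep 1)
        exact this
      have hrB : D.rep (D.pos g) ∈ D.B := (le_sup_left : D.T ≤ D.B) hr
      refine ⟨1, one_mem _, D.one_mem_Gm hm, (D.rep (D.pos g))⁻¹ * g,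
        mul_mem (inv_mem hrB) hgB, ?_⟩
      group
    · obtain ⟨i, hi⟩ := cs.exists_rightDescent_of_ne_one h1
      obtain ⟨b₁, hb₁, n, b₂, hb₂, hn, hgn⟩ := D.pos_spec g
      set w := D.pos g with hw
      have hlt : cs.length (w * cs.simple i) < cs.length w := hi
      have hne : w * cs.simple i ≠ w := by
        intro h
        rw [h] at hlt
        exact lt_irrefl _ hlt
      have hnd : ¬ cs.IsRightDescent (w * cs.simple i) i := by
        intro h
        unfold CoxeterSystem.IsRightDescent at h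
        rw [mul_assoc, cs.simple_mul_simple_self, mul_one] at h
        exact lt_asymm h hlt
      -- the element `x`
      obtain ⟨si, hsi⟩ : ∃ si : D.N, si = ⟨D.s i, D.s_mem_N i⟩ := ⟨_, rfl⟩
      have hνs : D.ν si = cs.simple i := by rw [hsi]; exact D.ν_wt i
      have hcs : (si : G) = D.s i := by rw [hsi]
      obtain ⟨x, hx⟩ : ∃ x : G, x = b₁ * ((n * si⁻¹ : D.N) : G) := ⟨_, rfl⟩
      have hpx : D.pos x = w * cs.simple i := by
        rw [hx, D.pos_mul_left hb₁, D.pos_N, map_mul, map_inv, hνs, hn, cs.inv_simple]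
      have hgx : g⁻¹ * x = b₂⁻¹ * (D.s i)⁻¹ := by
        rw [hx, hgn]
        simp only [Subgroup.coe_mul, Subgroup.coe_inv, hcs]
        group
      have hsP : D.s i ∈ D.P {i} := D.s_mem_P (Set.mem_singleton i)
      have hBP : D.B ≤ D.P {i} := D.B_le_P _
      have hgxP : g⁻¹ * x ∈ D.P {i} := by
        rw [hgx]
        exact mul_mem (inv_mem (hBP hb₂)) (inv_mem hsP)
      have hFg : D.Fr^[m] g = g := (D.mem_Gm hm).1 hg
      obtain ⟨y, hy⟩ : ∃ y : G, y = D.Fr^[m] x := ⟨_, rfl⟩
      have hpy : D.pos y = w * cs.simple i := by rw [hy, D.pos_Fr_it, hpx]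
      have hgy : g⁻¹ * y = (D.Fr^[m] b₂)⁻¹ * (D.s i)⁻¹ := by
        have := congrArg D.Fr^[m] hgx
        rw [D.Fr_it_mul, D.Fr_it_inv, hFg, D.Fr_it_mul, D.Fr_it_inv, D.Fr_it_inv,
          D.Fr_it_s, ← hy] at this
        exact this
      have hgyP : g⁻¹ * y ∈ D.P {i} := by
        rw [hgy]
        exact mul_mem (inv_mem (hBP (D.Fr_it_mem_B m hb₂))) (inv_mem hsP)
      have hxyP : x⁻¹ * y ∈ D.P {i} := by
        have : x⁻¹ * y = (g⁻¹ * x)⁻¹ * (g⁻¹ * y) := by group
        rw [this]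
        exact mul_mem (inv_mem hgxP) hgyP
      have hxyB : x⁻¹ * y ∈ D.B := by
        by_contra hnB
        have := D.length_lt_of_mem_P (K := {i}) (g := x) (h := x⁻¹ * y)
          (by
            intro j hj
            rw [Set.mem_singleton_iff] at hj
            subst hj
            rw [hpx]
            exact hnd) hxyP hnB
        rw [mul_inv_cancel_left, hpx, hpy] at this
        exact lt_irrefl _ this
      rcases D.mem_P_singleton hgxP with h | ⟨a, b, hb, hab⟩
      · exfalso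
        apply hne
        rw [← hpx]
        have : x = g * (g⁻¹ * x) := by group
        rw [this, D.pos_mul_right h]
      · have haf : a ∈ D.fm m := by
          rw [D.mem_fm hm]
          have h2 : g⁻¹ * y = D.φ i (up (a ^ D.q ^ m)) * D.s i * D.Fr^[m] b := by
            have := congrArg D.Fr^[m] hab
            rw [D.Fr_it_mul, D.Fr_it_inv, hFg, D.Fr_it_mul, D.Fr_it_mul, D.Fr_it_up,
              D.Fr_it_s, ← hy] at this
            exact this
          have h3 : g⁻¹ * y = D.φ i (up a) * D.s i * (b * (x⁻¹ * y)) := by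
            have : g⁻¹ * y = (g⁻¹ * x) * (x⁻¹ * y) := by group
            rw [this, hab]
            group
          have h4 : D.φ i (up (a ^ D.q ^ m)) * D.s i =
              D.φ i (up a) * D.s i * (b * (x⁻¹ * y) * (D.Fr^[m] b)⁻¹) := by
            have h5 := h2.symm.trans h3
            have : D.φ i (up (a ^ D.q ^ m)) * D.s i =
                (D.φ i (up (a ^ D.q ^ m)) * D.s i * D.Fr^[m] b) * (D.Fr^[m] b)⁻¹ := by group
            rw [this, h5]
            group
          exact D.up_s_inj i (mul_mem (mul_mem hb hxyB) (inv_mem (D.Fr_it_mem_B m hb))) h4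
        obtain ⟨g', hg'⟩ : ∃ g' : G, g' = g * (D.φ i (up a) * D.s i) := ⟨_, rfl⟩
        have hg'm : g' ∈ D.Gm m := by
          rw [hg']
          exact D.mul_mem_Gm hg (D.mul_mem_Gm (D.up_mem_Gm hm i haf) (D.s_mem_Gm hm i))
        have hg'x : g' = x * b⁻¹ := by
          have : x = g * (g⁻¹ * x) := by group
          rw [this, hab, hg']
          group
        have hpg' : D.pos g' = w * cs.simple i := by
          rw [hg'x, D.pos_mul_right (inv_mem hb), hpx]
        obtain ⟨b', hb', hb'm, b'', hb'', hg'b⟩ :=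
          ih (cs.length (w * cs.simple i)) (by rw [← hk]; exact hlt) hg'm (by rw [hpg'])
        rw [hpg'] at hg'b
        obtain ⟨z, hz⟩ : ∃ z : G, z = b' * D.rep (w * cs.simple i) := ⟨_, rfl⟩
        rw [← hz] at hg'b
        have hzm : z ∈ D.Gm m := by
          rw [hz]
          exact D.mul_mem_Gm hb'm (D.rep_mem_Gm hm _)
        have hpz : D.pos z = w * cs.simple i := by
          rw [hz, D.pos_mul_left hb', D.pos_rep]
        have hzg : z⁻¹ * g = b'' * ((D.s i)⁻¹ * D.φ i (up a)⁻¹) := by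
          have h6 : z⁻¹ * g' = b'' := by rw [hg'b, inv_mul_cancel_left]
          rw [map_inv, ← h6, hg']
          group
        have hzgP : z⁻¹ * g ∈ D.P {i} := by
          rw [hzg]
          exact mul_mem (hBP hb'') (mul_mem (inv_mem hsP) (D.φ_mem_P (Set.mem_singleton i) _))
        rcases D.panel_mem hm (D.mul_mem_Gm (D.inv_mem_Gm hzm) hg) hzgP with h | ⟨a', ha', b₃, hb₃, h⟩
        · exfalso
          apply hne
          rw [← hpz]
          have : g = z * (z⁻¹ * g) := by group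
          rw [hw, this, D.pos_mul_right h]
        · obtain ⟨n', hn'⟩ : ∃ n' : D.N, n' = ⟨D.rep (w * cs.simple i), D.rep_mem _⟩ := ⟨_, rfl⟩
          have hνn' : D.ν n' = w * cs.simple i := by rw [hn']; exact D.ν_rep _
          have hcn' : (n' : G) = D.rep (w * cs.simple i) := by rw [hn']
          have hn'm : (n' : G) ∈ D.Gm m := by rw [hcn']; exact D.rep_mem_Gm hm _
          have hu : (n' : G) * D.φ i (up a') * (n' : G)⁻¹ ∈ D.U :=
            D.conj_pos n' i (by rw [hνn']; exact hnd) a'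
          have hum : (n' : G) * D.φ i (up a') * (n' : G)⁻¹ ∈ D.Gm m :=
            D.mul_mem_Gm (D.mul_mem_Gm hn'm (D.up_mem_Gm hm i ha')) (D.inv_mem_Gm hn'm)
          obtain ⟨t, ht, hte⟩ := (D.ν_eq_iff ⟨D.rep w, D.rep_mem w⟩ (n' * si)).1 (by
            rw [map_mul, hνn', hνs, mul_assoc, cs.simple_mul_simple_self, mul_one, D.ν_rep])
          refine ⟨b' * ((n' : G) * D.φ i (up a') * (n' : G)⁻¹),
            mul_mem hb' ((le_sup_right : D.U ≤ D.B) hu), D.mul_mem_Gm hb'm hum, t * b₃,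
            mul_mem ((le_sup_left : D.T ≤ D.B) ht) hb₃, ?_⟩
          have h7 : g = z * (D.φ i (up a') * D.s i * b₃) := by
            rw [← h]
            group
          have h8 : (n' : G) * D.s i = D.rep w * t := by rw [← hcs]; exact hte
          have h9 : g = b' * ((n' : G) * D.φ i (up a') * (n' : G)⁻¹) * ((n' : G) * D.s i) * b₃ := by
            rw [h7, hz, ← hcn']
            group
          rw [h9, h8]
          simp only [mul_assoc]

end Datum

end Pool.Agent.Helper89.SX
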