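import Mathlib
import Pool.Agent.Helper89.SX.St.T3a

/-!
# SX-T3: panels (`panel_apply`, ..., `act_panel`)

Proofs.
* `panel_mem`: `mem_P_singleton` and `mem_fm_of_fixed`.
* `finite_bruhat`: induction on `ℓ(pos g)`.  If `pos g = 1` take `b = 1`.  Otherwise let `i` be a
  right descent of `w = pos g`, `w' = w s_i`.  The `i`-panel `g P_i` of `g B` contains exactly one
  chamber `C'` with `pos = w'`; it is of the form `g B`… more precisely: `g = b₁ n b₂` with
  `ν n = w`; put `x = b₁ n s_i⁻¹`, `pos x = w'`, `g⁻¹ x ∈ P {i}`.  For any `h ∈ P {i}` with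
  `pos (x h) = w'` one has `h ∈ B` (`length_lt_of_mem_P` for `K = {i}`, `pos x = w'` has no descent
  `i`).  `Fr^[m] x = g (Fr^[m] (g⁻¹ x))` is in `g P_i = x P_i` and has `pos = w'` (`pos_Fr`), so
  `x⁻¹ Fr^[m] x ∈ B`.  Now `g⁻¹ x ∈ P {i}`: either `g⁻¹ x ∈ B` (impossible: `pos g ≠ w'`) or
  `g⁻¹ x = φ(up a) s_i b`; apply `Fr^[m]`: `φ(up (a ^ q ^ m)) s_i Fr^[m] b = g⁻¹ Fr^[m] x ∈
  φ(up a) s_i B`, so `a ∈ F_m` (`up_s_inj`), and `g' = g φ(up a) s_i ∈ G_m`, `g' B = x B`,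
  `pos g' = w'`.  By induction `g' = b' rep(w') b''` with `b' ∈ B ∩ G_m`.  Put `y = b' rep(w') ∈ G_m`.
  Then `y⁻¹ g ∈ P {i} ∩ G_m`, not in `B`, so `y⁻¹ g = φ(up a') s_i b₃`, `a' ∈ F_m`, and
  `g = b' (rep(w') φ(up a') rep(w')⁻¹) rep(w') s_i b₃` with `rep(w') φ(up a') rep(w')⁻¹ ∈ U ∩ G_m`
  (`conj_pos`) and `rep(w') s_i ∈ rep(w) T`.
* `panel_apply`: the chambers `g B` and `g φ(up a) s_i B`, `a ∈ F_m`, are pairwise different
  (`up_s_inj`, `s_not_mem_B`), and they are the chambers `x B`, `x ∈ G_m`, with `g⁻¹ x ∈ P {i}`.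
* `panel_congr`: both sides have the same value at every chamber (`panel_apply`, and they vanish at
  the chambers without representative in `G_m`).
* `panel_eq_lo`: `φ(up a) s_i B = φ(lo a⁻¹) B` for `a ≠ 0` (`up_mul_s`, `φ(dg _) , φ(up _) ∈ B`);
  `up 0 = lo 0 = 1`; the map `a ↦ a⁻¹` permutes `F_m \ {0}`.
-/

set_option autoImplicit false

namespace Pool.Agent.Helper89.SX

open Matrix MonoidAlgebra

private theorem up_zero' {F : Type*} [Field F] : (up (0 : F)) = 1 := by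
  apply Subtype.ext
  ext i j
  fin_cases i <;> fin_cases j <;> simp [up]

private theorem lo_zero' {F : Type*} [Field F] : (lo (0 : F)) = 1 := by
  apply Subtype.ext
  ext i j
  fin_cases i <;> fin_cases j <;> simp [lo]

namespace Datum

variable {p : ℕ} [Fact p.Prime] {F : Type*} [Field F] [CharP F p] {G : Type*} [Group G]
  {I : Type*} {C : CoxeterMatrix I} {W : Type*} [Group W] {cs : CoxeterSystem C W}
  (D : Datum p F G cs)

private theorem U_le_B : D.U ≤ D.B := le_sup_right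

private theorem T_le_B : D.T ≤ D.B := le_sup_left

private theorem up_mem_B (i : I) (a : F) : D.φ i (up a) ∈ D.B := D.U_le_B (D.φ_up i a)

private theorem dg_mem_B (i : I) (c : Fˣ) : D.φ i (dg c) ∈ D.B := D.T_le_B (D.φ_dg i c)

private theorem up_s_not_mem_B (i : I) (a : F) : D.φ i (up a) * D.s i ∉ D.B := by
  intro h
  exact D.s_not_mem_B i ((D.B.mul_mem_cancel_left (D.up_mem_B i a)).mp h)

private theorem δ_apply_of_mem {g x : G} (h : g⁻¹ * x ∈ D.B) : D.δ g (x : G ⧸ D.B) = 1 := by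
  unfold δ
  rw [QuotientGroup.eq.mpr h, Finsupp.single_eq_same]

private theorem δ_apply_of_not_mem {g x : G} (h : g⁻¹ * x ∉ D.B) : D.δ g (x : G ⧸ D.B) = 0 := by
  unfold δ
  exact Finsupp.single_eq_of_ne (fun e => h (QuotientGroup.eq.mp e.symm))

private theorem panel_apply' (m : ℕ) (g : G) (i : I) (c : G ⧸ D.B) :
    D.panel m g i c = D.δ g c + ∑ a ∈ D.fm m, D.δ (g * D.φ i (up a) * D.s i) c := by
  unfold panel
  rw [Finsupp.add_apply, Finsupp.finsetSum_apply]

open Classical in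
/-- **SX-T3c.** -/
theorem panel_apply {m : ℕ} (hm : 0 < m) (i : I) {g x : G} (hg : g ∈ D.Gm m) (hx : x ∈ D.Gm m) :
    D.panel m g i (x : G ⧸ D.B) = if g⁻¹ * x ∈ D.P {i} then 1 else 0 := by
  rw [D.panel_apply' m g i (x : G ⧸ D.B)]
  by_cases hP : g⁻¹ * x ∈ D.P {i}
  · rw [if_pos hP]
    rcases D.panel_mem hm (D.mul_mem_Gm (D.inv_mem_Gm hg) hx) hP with hB | ⟨a, ha, b, hb, he⟩
    · rw [D.δ_apply_of_mem hB, Finset.sum_eq_zero, add_zero]
      intro a _
      apply D.δ_apply_of_not_mem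
      intro h
      have e1 : (g * D.φ i (up a) * D.s i)⁻¹ * x = (D.φ i (up a) * D.s i)⁻¹ * (g⁻¹ * x) := by
        group
      rw [e1] at h
      exact D.up_s_not_mem_B i a
        ((D.B.inv_mem_iff).mp ((D.B.mul_mem_cancel_right hB).mp h))
    · have h0 : g⁻¹ * x ∉ D.B := by
        rw [he]
        intro h
        exact D.up_s_not_mem_B i a ((D.B.mul_mem_cancel_right hb).mp h)
      rw [D.δ_apply_of_not_mem h0, zero_add, Finset.sum_eq_single a]
      · apply D.δ_apply_of_mem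
        have e1 : (g * D.φ i (up a) * D.s i)⁻¹ * x = (D.φ i (up a) * D.s i)⁻¹ * (g⁻¹ * x) := by
          group
        rw [e1, he]
        have e2 : (D.φ i (up a) * D.s i)⁻¹ * (D.φ i (up a) * D.s i * b) = b := by group
        rw [e2]
        exact hb
      · intro a' _ hne
        apply D.δ_apply_of_not_mem
        intro h
        have e1 : (g * D.φ i (up a') * D.s i)⁻¹ * x = (D.φ i (up a') * D.s i)⁻¹ * (g⁻¹ * x) := by
          group
        rw [e1, he] at h
        apply hne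
        have e3 : D.φ i (up a') * D.s i = D.φ i (up a) * D.s i *
            (b * ((D.φ i (up a') * D.s i)⁻¹ * (D.φ i (up a) * D.s i * b))⁻¹) := by
          group
        exact D.up_s_inj i (D.B.mul_mem hb (D.B.inv_mem h)) e3
      · intro h
        exact absurd ha h
  · rw [if_neg hP]
    have h0 : g⁻¹ * x ∉ D.B := fun h => hP (D.B_le_P _ h)
    rw [D.δ_apply_of_not_mem h0, zero_add]
    apply Finset.sum_eq_zero
    intro a _
    apply D.δ_apply_of_not_mem
    intro h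
    apply hP
    have e1 : g⁻¹ * x = D.φ i (up a) * D.s i * ((g * D.φ i (up a) * D.s i)⁻¹ * x) := by group
    rw [e1]
    exact (D.P {i}).mul_mem ((D.P {i}).mul_mem (D.B_le_P _ (D.up_mem_B i a))
      (D.s_mem_P (Set.mem_singleton i))) (D.B_le_P _ h)

theorem panel_support {m : ℕ} (hm : 0 < m) (i : I) {g : G} (hg : g ∈ D.Gm m) (c : G ⧸ D.B)
    (hc : D.panel m g i c ≠ 0) : ∃ x ∈ D.Gm m, c = (x : G ⧸ D.B) := by
  rw [D.panel_apply' m g i c] at hc
  by_contra hno
  push Not at hno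
  apply hc
  have h1 : ∀ y ∈ D.Gm m, D.δ y c = 0 := by
    intro y hy
    unfold δ
    exact Finsupp.single_eq_of_ne (fun e => hno y hy e)
  rw [h1 g hg, zero_add]
  apply Finset.sum_eq_zero
  intro a ha
  exact h1 _ (D.mul_mem_Gm (D.mul_mem_Gm hg (D.up_mem_Gm hm i ha)) (D.s_mem_Gm hm i))

theorem panel_congr {m : ℕ} (hm : 0 < m) (i : I) {g g' : G} (hg : g ∈ D.Gm m) (hg' : g' ∈ D.Gm m)
    (h : g⁻¹ * g' ∈ D.P {i}) : D.panel m g i = D.panel m g' i := by
  classical
  apply Finsupp.ext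
  intro c
  by_cases hc : ∃ x ∈ D.Gm m, c = (x : G ⧸ D.B)
  · obtain ⟨x, hx, rfl⟩ := hc
    rw [D.panel_apply hm i hg hx, D.panel_apply hm i hg' hx]
    have e1 : g⁻¹ * x = (g⁻¹ * g') * (g'⁻¹ * x) := by group
    have e2 : g⁻¹ * x ∈ D.P {i} ↔ g'⁻¹ * x ∈ D.P {i} := by
      rw [e1]
      exact (D.P {i}).mul_mem_cancel_left h
    by_cases h1 : g'⁻¹ * x ∈ D.P {i}
    · rw [if_pos h1, if_pos (e2.mpr h1)]
    · rw [if_neg h1, if_neg (fun h2 => h1 (e2.mp h2))]
  · have h1 : D.panel m g i c = 0 := by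
      by_contra h0
      exact hc (D.panel_support hm i hg c h0)
    have h2 : D.panel m g' i c = 0 := by
      by_contra h0
      exact hc (D.panel_support hm i hg' c h0)
    rw [h1, h2]

theorem panel_eq_lo {m : ℕ} (hm : 0 < m) (i : I) (g : G) :
    D.panel m g i = D.δ (g * D.s i) + ∑ a ∈ D.fm m, D.δ (g * D.φ i (lo a)) := by
  classical
  unfold panel
  rw [← Finset.add_sum_erase _ _ (D.zero_mem_fm hm), ← Finset.add_sum_erase _ _ (D.zero_mem_fm hm)]
  rw [up_zero', lo_zero', map_one, mul_one]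
  have hsum : ∑ a ∈ (D.fm m).erase 0, D.δ (g * D.φ i (up a) * D.s i) =
      ∑ a ∈ (D.fm m).erase 0, D.δ (g * D.φ i (lo a)) := by
    refine Finset.sum_nbij' (fun a => a⁻¹) (fun a => a⁻¹) ?_ ?_ ?_ ?_ ?_
    · intro a ha
      rw [Finset.mem_erase] at ha ⊢
      exact ⟨inv_ne_zero ha.1, D.inv_mem_fm hm ha.2⟩
    · intro a ha
      rw [Finset.mem_erase] at ha ⊢
      exact ⟨inv_ne_zero ha.1, D.inv_mem_fm hm ha.2⟩
    · intro a _
      exact inv_inv a
    · intro a _
      exact inv_inv a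
    · intro a ha
      rw [Finset.mem_erase] at ha
      have h := D.up_mul_s i (Units.mk0 a ha.1)
      rw [Units.val_mk0] at h
      rw [mul_assoc g, h, ← mul_assoc, ← mul_assoc, D.δ_mul_B _ (D.up_mem_B i _),
        D.δ_mul_B _ (D.dg_mem_B i _)]
      rw [Units.val_inv_eq_inv_val, Units.val_mk0]
  rw [hsum]
  abel

theorem act_panel (m : ℕ) (g h : G) (i : I) : D.act g (D.panel m h i) = D.panel m (g * h) i := by
  unfold panel
  rw [map_add, map_sum, D.act_δ]
  congr 1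
  apply Finset.sum_congr rfl
  intro a _
  rw [D.act_δ]
  simp only [mul_assoc]

end Datum

end Pool.Agent.Helper89.SX
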