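import Mathlib
import Pool.Agent.Helper89.SX.St.T3
import Pool.Agent.Helper89.SX.St.L2
import Pool.Agent.Helper89.SX.St.N1

/-!
# SX-K1: the panel estimate

Notation: `Q₀ = #F_{m₀}`, `z(x, y) = Z (δ x) (δ y)`, norms are `‖res (Gm m) ·‖`.
Proof of `panel_est`.
(a) `∑_{a ∈ F_{m₀}} δ (g φ(lo a)) = panel m₀ g i - δ (g s_i)` (`panel_eq_lo`), and
`g s_i ∈ G_{m₀} ⊆ G_m`, so the norm of `Z (δ (g s_i)) (δ g₂)` is `≤ A`.  It remains to show
`‖Z (panel m₀ g i) (δ g₂)‖ ≤ A + 2 √Q₀ A`.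
(b) Apply `finite_bruhat` to `g₂⁻¹ g ∈ G_{m₀}`: `g₂⁻¹ g = b rep(v) b'`, `b ∈ B ∩ G_{m₀}`.  Let
`v' = v` if `i` is not a right descent of `v`, `v' = v s_i` otherwise; in both cases `i` is not a
right descent of `v'`, and `(g₂ b rep(v'))⁻¹ g ∈ P {i}` (`b' ∈ B`; `rep(v) ∈ rep(v') s_i T` in the
second case).  By `panel_congr` `panel m₀ g i = panel m₀ (g₂ b rep(v')) i = act (g₂ b) (panel m₀
rep(v') i)`, and `δ g₂ = act (g₂ b) (δ 1)`.  As `g₂ b ∈ G_m`, `hZ` and `norm_res_lt`: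
`‖Z (panel m₀ g i) (δ g₂)‖ = ‖Z (panel m₀ rep(v') i) (δ 1)‖`.
(c) Put `r = rep(v')`, `y(a) = r φ(up a) r⁻¹ ∈ U ∩ G_m` for `a ∈ F_m` (`conj_pos`),
`ζ(a) = Z (δ (r φ(up a) s_i)) (δ 1) = Z (act (y a) (δ (r s_i))) (act (y a) (δ 1)) =
lt (y a) (Z (δ (r s_i)) (δ 1))`.  So `Z (panel m₀ r i) (δ 1) = Z (δ r) (δ 1) + ∑_{a ∈ F_{m₀}} ζ(a)`
and `0 = Z (panel m r i) (δ 1) = Z (δ r) (δ 1) + ∑_{a ∈ F_m} ζ(a)` (`hp`).
(d) `gram` for `k = F_m`, `k₀ = F_{m₀}`, `ζ' = res ∘ ζ`: `⟨ζ'(a), ζ'(b)⟩ = h(b - a)`,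
`h(c) = ⟨ζ'(0), ζ'(c)⟩` (`inner_res_lt`, `y(a)⁻¹ y(b) = y(b - a)`); invariance: for `c ∈ F_m`, `c ≠ 0`,
`t = r φ(dg c) r⁻¹ ∈ T ∩ G_m` satisfies `t y(a) t⁻¹ = y(c² a)` (`dg_conj_up`) and
`lt t (ζ 0) = ζ 0` because `t r s_i B = r s_i B`, `t B = B`.  Result:
`‖∑_{a ∈ F_{m₀}} ζ'(a)‖² ≤ 3 Q₀ A² ≤ (2 √Q₀ A)²`.
-/

set_option autoImplicit false

namespace Pool.Agent.Helper89.SX

open Matrix MonoidAlgebra

namespace Datum

variable {p : ℕ} [Fact p.Prime] {F : Type*} [Field F] [CharP F p] {G : Type*} [Group G]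
  {I : Type*} {C : CoxeterMatrix I} {W : Type*} [Group W] {cs : CoxeterSystem C W}
  (D : Datum p F G cs)

private theorem K1_lt_mul {G : Type*} [Group G] (g h : G) (v : G → ℂ) :
    lt (g * h) v = lt g (lt h v) := by
  funext x
  show v ((g * h)⁻¹ * x) = v (h⁻¹ * (g⁻¹ * x))
  rw [_root_.mul_inv_rev, mul_assoc]

/-- **SX-K1.** -/
theorem panel_est [IsAlgClosed F] {m₀ m : ℕ} (h₀ : 0 < m₀) (hm : 0 < m) (hd : 2 * m₀ ∣ m)
    (Z : D.X →ₗ[ℚ] D.X →ₗ[ℚ] (G → ℂ))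
    (hZ : ∀ g ∈ D.Gm m, ∀ x y, Z (D.act g x) (D.act g y) = lt g (Z x y))
    (hp : ∀ i, ∀ g ∈ D.Gm m, ∀ y, Z (D.panel m g i) y = 0) {A : ℝ}
    (hA : ∀ g₁ ∈ D.Gm m, ∀ g₂ ∈ D.Gm m, ‖res (D.Gm m) (Z (D.δ g₁) (D.δ g₂))‖ ≤ A)
    {g g₂ : G} (hg : g ∈ D.Gm m₀) (hg₂ : g₂ ∈ D.Gm m₀) (i : I) :
    ‖res (D.Gm m) (Z (∑ a ∈ D.fm m₀, D.δ (g * D.φ i (lo a))) (D.δ g₂))‖ ≤
      (2 + 2 * Real.sqrt (D.fm m₀).card) * A := by
  classical
  have hdm : m₀ ∣ m := Dvd.dvd.trans (dvd_mul_left m₀ 2) hd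
  have hGm : D.Gm m₀ ⊆ D.Gm m := D.Gm_mono hdm hm
  have hfm : D.fm m₀ ⊆ D.fm m := D.fm_mono h₀ hdm hm
  have hA0 : 0 ≤ A :=
    le_trans (norm_nonneg _) (hA 1 (D.one_mem_Gm hm) 1 (D.one_mem_Gm hm))
  have hUB : ∀ u ∈ D.U, u ∈ D.B := fun u hu => (le_sup_right : D.U ≤ D.T ⊔ D.U) hu
  have hTB : ∀ t ∈ D.T, t ∈ D.B := fun t ht => (le_sup_left : D.T ≤ D.T ⊔ D.U) ht
  -- the estimate for the panel
  have key : ‖res (D.Gm m) (Z (D.panel m₀ g i) (D.δ g₂))‖ ≤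
      (1 + 2 * Real.sqrt (D.fm m₀).card) * A := by
    obtain ⟨b, hb, hbm, b', hb', hgb⟩ :=
      D.finite_bruhat h₀ (D.mul_mem_Gm (D.inv_mem_Gm hg₂) hg)
    set v := D.pos (g₂⁻¹ * g) with hv
    obtain ⟨v', hv', hP⟩ : ∃ v' : W, ¬ cs.IsRightDescent v' i ∧
        (g₂ * b * D.rep v')⁻¹ * g ∈ D.P {i} := by
      by_cases hdes : cs.IsRightDescent v i
      · refine ⟨v * cs.simple i, ?_, ?_⟩
        · exact (cs.isRightDescent_iff_not_isRightDescent_mul).mp hdes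
        · have hν : D.ν (⟨D.rep (v * cs.simple i), D.rep_mem _⟩ * ⟨D.s i, D.s_mem_N i⟩ : D.N) =
              D.ν ⟨D.rep v, D.rep_mem v⟩ := by
            rw [map_mul, D.ν_rep, D.ν_rep]
            have : D.ν ⟨D.s i, D.s_mem_N i⟩ = cs.simple i := D.ν_wt i
            rw [this, mul_assoc, cs.simple_mul_simple_self, mul_one]
          obtain ⟨t, ht, hteq⟩ := (D.ν_eq_iff _ _).mp hν
          have hteq' : D.rep v = D.rep (v * cs.simple i) * D.s i * t := hteq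
          have h1 : (g₂ * b * D.rep (v * cs.simple i))⁻¹ * g = D.s i * t * b' := by
            have h2 : g = g₂ * (b * D.rep v * b') := by
              rw [← hgb]; group
            rw [h2, hteq']
            group
          rw [h1]
          exact (D.P {i}).mul_mem ((D.P {i}).mul_mem (D.s_mem_P rfl)
            (D.B_le_P _ (hTB t ht))) (D.B_le_P _ hb')
      · refine ⟨v, hdes, ?_⟩
        have h1 : (g₂ * b * D.rep v)⁻¹ * g = b' := by
          have h2 : g = g₂ * (b * D.rep v * b') := by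
            rw [← hgb]; group
          rw [h2]
          group
        rw [h1]
        exact D.B_le_P _ hb'
    set r := D.rep v' with hr
    have hrN : r ∈ D.N := D.rep_mem v'
    have hνr : D.ν ⟨r, hrN⟩ = v' := D.ν_rep v'
    have hrm : r ∈ D.Gm m := D.rep_mem_Gm hm v'
    have hrm₀ : r ∈ D.Gm m₀ := D.rep_mem_Gm h₀ v'
    -- reduction to `rep v'`
    have hred : ‖res (D.Gm m) (Z (D.panel m₀ g i) (D.δ g₂))‖ =
        ‖res (D.Gm m) (Z (D.panel m₀ r i) (D.δ 1))‖ := by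
      have e1 : D.panel m₀ g i = D.act (g₂ * b) (D.panel m₀ r i) := by
        rw [D.act_panel]
        exact (D.panel_congr h₀ i (D.mul_mem_Gm (D.mul_mem_Gm hg₂ hbm) hrm₀) hg hP).symm
      have e2 : D.δ g₂ = D.act (g₂ * b) (D.δ 1) := by
        rw [D.act_δ, mul_one, D.δ_mul_B g₂ hb]
      have hgbm : g₂ * b ∈ D.Gm m := D.mul_mem_Gm (hGm hg₂) (hGm hbm)
      rw [e1, e2, hZ _ hgbm, D.norm_res_lt hgbm]
    rw [hred]
    set w0 : G → ℂ := Z (D.δ (r * D.s i)) (D.δ 1) with hw0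
    set y : F → G := fun a => r * D.φ i (up a) * r⁻¹ with hy
    have hyU : ∀ a, y a ∈ D.U := by
      intro a
      have h1 := D.conj_pos ⟨r, hrN⟩ i (by rw [hνr]; exact hv') a
      exact h1
    have hym : ∀ a ∈ D.fm m, y a ∈ D.Gm m := fun a ha =>
      D.mul_mem_Gm (D.mul_mem_Gm hrm (D.up_mem_Gm hm i ha)) (D.inv_mem_Gm hrm)
    have hup : ∀ a c : F, (up (a + c) : SpecialLinearGroup (Fin 2) F) = up a * up c := by
      intro a c
      apply Subtype.ext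
      show !![1, a + c; 0, 1] = !![1, a; 0, 1] * !![1, c; 0, 1]
      rw [Matrix.mul_fin_two]
      simp [add_comm]
    have hyadd : ∀ a c, y (a + c) = y a * y c := by
      intro a c
      simp only [hy, hup, map_mul]
      group
    have hy0 : y 0 = 1 := by
      have := hyadd 0 0
      rw [add_zero] at this
      exact left_eq_mul.mp this
    have hyB : ∀ a, D.act (y a) (D.δ 1) = D.δ 1 := by
      intro a
      rw [D.act_δ, mul_one]
      have := D.δ_mul_B 1 (hUB _ (hyU a))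
      rwa [one_mul] at this
    have hZy : ∀ a ∈ D.fm m,
        Z (D.δ (r * D.φ i (up a) * D.s i)) (D.δ 1) = lt (y a) w0 := by
      intro a ha
      have e1 : D.δ (r * D.φ i (up a) * D.s i) = D.act (y a) (D.δ (r * D.s i)) := by
        rw [D.act_δ]
        congr 1
        simp only [hy]
        group
      rw [hw0, ← hZ (y a) (hym a ha), hyB a, ← e1]
    set ζ : F → EuclideanSpace ℂ (D.Gm m) := fun a =>
      res (D.Gm m) (Z (D.δ (r * D.φ i (up a) * D.s i)) (D.δ 1)) with hζ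
    have hζy : ∀ a ∈ D.fm m, ζ a = res (D.Gm m) (lt (y a) w0) := by
      intro a ha
      simp only [hζ]
      rw [hZy a ha]
    have hlt1 : ∀ v : G → ℂ, lt (1 : G) v = v := by
      intro v
      funext x
      show v ((1 : G)⁻¹ * x) = v x
      rw [inv_one, one_mul]
    have h0m : (0 : F) ∈ D.fm m := D.zero_mem_fm hm
    have hζ0 : ζ 0 = res (D.Gm m) w0 := by
      rw [hζy 0 h0m, hy0, hlt1]
    -- the two panel sums
    have hsum : ∀ m', res (D.Gm m) (Z (D.panel m' r i) (D.δ 1)) =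
        res (D.Gm m) (Z (D.δ r) (D.δ 1)) + ∑ a ∈ D.fm m', ζ a := by
      intro m'
      unfold panel
      rw [map_add, LinearMap.add_apply, map_add, map_sum, LinearMap.sum_apply, map_sum]
    have hZr : ‖res (D.Gm m) (Z (D.δ r) (D.δ 1))‖ ≤ A := hA r hrm 1 (D.one_mem_Gm hm)
    have hsumm : ‖∑ a ∈ D.fm m, ζ a‖ ≤ A := by
      have h1 := hsum m
      rw [hp i r hrm, map_zero] at h1
      have h2 : ∑ a ∈ D.fm m, ζ a = -(res (D.Gm m) (Z (D.δ r) (D.δ 1))) := by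
        rw [eq_neg_iff_add_eq_zero, add_comm]
        exact h1.symm
      rw [h2, norm_neg]
      exact hZr
    have hζ0A : ‖ζ 0‖ ≤ A :=
      hA _ (D.mul_mem_Gm (D.mul_mem_Gm hrm (D.up_mem_Gm hm i h0m)) (D.s_mem_Gm hm i)) 1
        (D.one_mem_Gm hm)
    have hgram : ‖∑ a ∈ D.fm m₀, ζ a‖ ^ 2 ≤ 3 * (D.fm m₀).card * A ^ 2 := by
      refine gram (D.fm m) (D.fm m₀) h0m (D.one_mem_fm hm)
        (fun a ha c hc => D.sub_mem_fm hm ha hc) (fun a ha c hc => D.mul_mem_fm hm ha hc)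
        (D.zero_mem_fm h₀) (D.one_mem_fm h₀) (fun a ha c hc => D.sub_mem_fm h₀ ha hc) hfm
        (fun s hs => D.exists_sq h₀ hm hd hs) ζ
        (fun c => inner ℂ (res (D.Gm m) w0) (res (D.Gm m) (lt (y c) w0))) ?_ ?_ A hζ0A hsumm
      · intro a ha c hc
        rw [hζy a ha, hζy c hc]
        have e1 : y c = y a * y (c - a) := by
          rw [← hyadd]
          congr 1
          ring
        rw [e1, K1_lt_mul (y a) (y (c - a)) w0, D.inner_res_lt (hym a ha)]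
      · intro c hc hc0 a ha
        set c' : Fˣ := Units.mk0 c hc0 with hc'
        set t : G := r * D.φ i (dg c') * r⁻¹ with ht
        have htT : t ∈ D.T := D.N_conj_T ⟨r, hrN⟩ (D.φ_dg i c')
        have htm : t ∈ D.Gm m :=
          D.mul_mem_Gm (D.mul_mem_Gm hrm (D.dg_mem_Gm hm i (by rw [hc']; exact hc)))
            (D.inv_mem_Gm hrm)
        have hty : y (c ^ 2 * a) = t * (y a * t⁻¹) := by
          have h1 := D.dg_conj_up i c' a
          have h2 : ((c' : Fˣ) : F) = c := rfl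
          rw [h2] at h1
          simp only [hy, ht]
          rw [← h1]
          group
        have htw : lt t w0 = w0 := by
          rw [hw0, ← hZ t htm]
          have e1 : D.act t (D.δ 1) = D.δ 1 := by
            rw [D.act_δ, mul_one]
            have := D.δ_mul_B 1 (hTB t htT)
            rwa [one_mul] at this
          have e2 : D.act t (D.δ (r * D.s i)) = D.δ (r * D.s i) := by
            rw [D.act_δ]
            have hsT : (D.s i)⁻¹ * D.φ i (dg c') * D.s i ∈ D.T := by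
              have h3 := D.N_conj_T ⟨(D.s i)⁻¹, D.N.inv_mem (D.s_mem_N i)⟩ (D.φ_dg i c')
              simpa using h3
            have h4 : t * (r * D.s i) = r * D.s i * ((D.s i)⁻¹ * D.φ i (dg c') * D.s i) := by
              simp only [ht]
              group
            rw [h4, D.δ_mul_B _ (hTB _ hsT)]
          rw [e1, e2]
        have htw' : lt t⁻¹ w0 = w0 := by
          conv_lhs => rw [← htw]
          rw [← K1_lt_mul, inv_mul_cancel, hlt1]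
        show inner ℂ (res (D.Gm m) w0) (res (D.Gm m) (lt (y (c ^ 2 * a)) w0)) =
          inner ℂ (res (D.Gm m) w0) (res (D.Gm m) (lt (y a) w0))
        rw [hty, K1_lt_mul t (y a * t⁻¹) w0, K1_lt_mul (y a) t⁻¹ w0, htw']
        have h5 := D.inner_res_lt htm w0 (lt (y a) w0)
        rw [htw] at h5
        exact h5
    have hfin : ‖∑ a ∈ D.fm m₀, ζ a‖ ≤ 2 * Real.sqrt (D.fm m₀).card * A := by
      have hQ : (0 : ℝ) ≤ (D.fm m₀).card := Nat.cast_nonneg _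
      have h1 : (2 * Real.sqrt (D.fm m₀).card * A) ^ 2 = 4 * (D.fm m₀).card * A ^ 2 := by
        have := Real.sq_sqrt hQ
        calc (2 * Real.sqrt (D.fm m₀).card * A) ^ 2
            = 4 * (Real.sqrt (D.fm m₀).card ^ 2) * A ^ 2 := by ring
          _ = 4 * (D.fm m₀).card * A ^ 2 := by rw [this]
      have h2 : 0 ≤ 2 * Real.sqrt (D.fm m₀).card * A :=
        mul_nonneg (mul_nonneg zero_le_two (Real.sqrt_nonneg _)) hA0
      have h3 : (0 : ℝ) ≤ (D.fm m₀).card * A ^ 2 := mul_nonneg hQ (sq_nonneg A)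
      refine le_of_sq_le_sq ?_ h2
      rw [h1]
      linarith
    rw [hsum m₀]
    calc ‖res (D.Gm m) (Z (D.δ r) (D.δ 1)) + ∑ a ∈ D.fm m₀, ζ a‖
        ≤ ‖res (D.Gm m) (Z (D.δ r) (D.δ 1))‖ + ‖∑ a ∈ D.fm m₀, ζ a‖ := norm_add_le _ _
      _ ≤ A + 2 * Real.sqrt (D.fm m₀).card * A := add_le_add hZr hfin
      _ = (1 + 2 * Real.sqrt (D.fm m₀).card) * A := by ring
  have hsplit : ∑ a ∈ D.fm m₀, D.δ (g * D.φ i (lo a)) =
      D.panel m₀ g i - D.δ (g * D.s i) := by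
    rw [D.panel_eq_lo h₀ i g, add_sub_cancel_left]
  rw [hsplit, map_sub, LinearMap.sub_apply, map_sub]
  have hgs : ‖res (D.Gm m) (Z (D.δ (g * D.s i)) (D.δ g₂))‖ ≤ A :=
    hA _ (D.mul_mem_Gm (hGm hg) (D.s_mem_Gm hm i)) _ (hGm hg₂)
  calc ‖res (D.Gm m) (Z (D.panel m₀ g i) (D.δ g₂)) -
        res (D.Gm m) (Z (D.δ (g * D.s i)) (D.δ g₂))‖
      ≤ ‖res (D.Gm m) (Z (D.panel m₀ g i) (D.δ g₂))‖ +
        ‖res (D.Gm m) (Z (D.δ (g * D.s i)) (D.δ g₂))‖ := norm_sub_le _ _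
    _ ≤ (1 + 2 * Real.sqrt (D.fm m₀).card) * A + A := add_le_add key hgs
    _ = (2 + 2 * Real.sqrt (D.fm m₀).card) * A := by ring

end Datum

end Pool.Agent.Helper89.SX
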