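import Mathlib
import Pool.Agent.Helper89.SX.St.K1

/-!
# SX-K2a: averages (K2a, K2b below and the small lemmas; `bounded` is the next piece)

Notation: `S = B ∩ G_{m₀}`, `Q₀ = #F_{m₀}`, `avg w = (1/#S) ∑_{u ∈ S} δ (u rep(w))`,
`E₁ = (1/#S) ∑_{u ∈ S} act u e = ∑_w (-1)^{ℓ(w)} avg w ∈ StM m₀ ≤ StM m`, `avg 1 = δ 1`.
(K2a) For `w ≠ 1`, `h, g₂ ∈ G_{m₀}`: `‖Z (act h (avg w)) (δ g₂)‖ ≤ 4 A / √Q₀`.
Proof: let `i` be a right descent of `w`.  For `a ∈ F_{m₀}` the element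
`y_a = rep(w) φ(lo a) rep(w)⁻¹` is in `U ∩ G_{m₀} ⊆ S` (`conj_lo`), and `u ↦ u y_a` permutes `S`; so
`avg w = (1/#S) ∑_u δ (u rep(w) φ(lo a))` for every `a`, hence
`avg w = (1/#S) ∑_u (1/Q₀) ∑_a δ (u rep(w) φ(lo a))`.  Apply `panel_est` to `g = h u rep(w)`:
the norm is `≤ (2 + 2 √Q₀) A / Q₀ ≤ 4 A / √Q₀`.
(K2b) The same in the second variable, by K2a for `Z.flip`.
(K2) For `w : W` let `Y_w = b ⟨E₁, _⟩ ⟨act rep(w) E₁, _⟩` and `c_w` from `norm_bound`.  Let `m`, `Z`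
be as in the statement and `A = max_w ‖Z (δ 1) (δ rep(w))‖`; by `finite_bruhat` at level `m`
(`g₁⁻¹ g₂ = b rep(w) b'`, translate by `g₁ b`) every `‖Z (δ g₁) (δ g₂)‖ ≤ A`.  By `agree`,
`Y_w = Z E₁ (act rep(w) E₁) = ∑_{w₁,w₂} ± Z (avg w₁) (act rep(w) (avg w₂))`; the term `(1,1)` is
`Z (δ 1) (δ rep(w))`, the terms with `w₁ ≠ 1` are `≤ 4 A/√Q₀` by K2a (`act rep(w) (avg w₂)` is an
average of elements `δ g₂`, `g₂ ∈ G_{m₀}`), the terms with `w₁ = 1`, `w₂ ≠ 1` by K2b.  So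
`‖Z (δ 1) (δ rep(w))‖ ≤ ‖Y_w‖ + (#W)² · 4 A / √Q₀ ≤ ‖Y_w‖ + A/2`, and `A ≤ 2 max_w ‖Y_w‖`,
`A² ≤ 4 max_w c_w #(P ∩ G_m)`.
-/

set_option autoImplicit false

namespace Pool.Agent.Helper89.SX

open Matrix MonoidAlgebra

namespace Datum

variable {p : ℕ} [Fact p.Prime] {F : Type*} [Field F] [CharP F p] {G : Type*} [Group G]
  {I : Type*} {C : CoxeterMatrix I} {W : Type*} [Group W] {cs : CoxeterSystem C W}
  (D : Datum p F G cs)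

/-- The average of the chambers `u rep(w) B` over `u ∈ B ∩ G_{m}`. -/
noncomputable def avg (m : ℕ) (w : W) : D.X :=
  ((D.Pm D.B m).card : ℚ)⁻¹ • ∑ u ∈ D.Pm D.B m, D.δ (u * D.rep w)

private lemma rat_smul_fun (c : ℚ) (v : G → ℂ) : c • v = (c : ℂ) • v := by
  funext x
  simp [Rat.smul_def]

private lemma res_rat_smul (S : Finset G) (c : ℚ) (v : G → ℂ) :
    res S (c • v) = (c : ℂ) • res S v := by
  rw [rat_smul_fun, map_smul]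

private lemma T_le_B : D.T ≤ D.B := le_sup_left

private lemma U_le_B : D.U ≤ D.B := le_sup_right

private lemma mem_Pm {P : Subgroup G} {m : ℕ} {g : G} : g ∈ D.Pm P m ↔ g ∈ D.Gm m ∧ g ∈ P := by
  classical
  unfold Pm
  rw [Finset.mem_filter]

theorem avg_one {m : ℕ} (hm : 0 < m) : D.avg m 1 = D.δ 1 := by
  have h1 : D.rep 1 ∈ D.B := by
    apply D.T_le_B
    have h2 := (D.ν_eq_one ⟨D.rep 1, D.rep_mem 1⟩).mp (D.ν_rep 1)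
    exact h2
  have h3 : ∑ u ∈ D.Pm D.B m, D.δ (u * D.rep 1) = ((D.Pm D.B m).card : ℚ) • D.δ 1 := by
    rw [Finset.sum_congr rfl (fun u hu => ?_), Finset.sum_const, ← Nat.cast_smul_eq_nsmul ℚ]
    have h4 := D.δ_mul_B 1 (D.B.mul_mem (D.mem_Pm.mp hu).2 h1)
    rw [one_mul] at h4
    exact h4
  unfold avg
  rw [h3, smul_smul, inv_mul_cancel₀, one_smul]
  exact_mod_cast (D.Pm_card_pos D.B hm).ne'

private lemma act_avg (m : ℕ) (h : G) (w : W) :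
    D.act h (D.avg m w) =
      ((D.Pm D.B m).card : ℚ)⁻¹ • ∑ u ∈ D.Pm D.B m, D.δ (h * (u * D.rep w)) := by
  unfold avg
  rw [map_smul, map_sum]
  simp only [act_δ]

/-- The average does not change when `rep w` is multiplied by `φ(lo a)` on the right. -/
private lemma sum_lo {m : ℕ} (hm : 0 < m) (h : G) {w : W} {i : I} (hi : cs.IsRightDescent w i)
    {a : F} (ha : a ∈ D.fm m) :
    ∑ u ∈ D.Pm D.B m, D.δ (h * (u * D.rep w) * D.φ i (lo a)) =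
      ∑ u ∈ D.Pm D.B m, D.δ (h * (u * D.rep w)) := by
  set y : G := D.rep w * D.φ i (lo a) * (D.rep w)⁻¹ with hy
  have hyU : y ∈ D.U := by
    have h1 := D.conj_lo ⟨D.rep w, D.rep_mem w⟩ i (by rw [D.ν_rep]; exact hi) a
    exact h1
  have hyG : y ∈ D.Gm m := D.mul_mem_Gm (D.mul_mem_Gm (D.rep_mem_Gm hm w) (D.lo_mem_Gm hm i ha))
    (D.inv_mem_Gm (D.rep_mem_Gm hm w))
  refine Finset.sum_bij' (fun u _ => u * y) (fun u _ => u * y⁻¹) ?_ ?_ ?_ ?_ ?_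
  · intro u hu
    rw [mem_Pm] at hu ⊢
    exact ⟨D.mul_mem_Gm hu.1 hyG, D.B.mul_mem hu.2 (D.U_le_B hyU)⟩
  · intro u hu
    rw [mem_Pm] at hu ⊢
    exact ⟨D.mul_mem_Gm hu.1 (D.inv_mem_Gm hyG), D.B.mul_mem hu.2 (D.B.inv_mem (D.U_le_B hyU))⟩
  · intro u _
    simp
  · intro u _
    simp
  · intro u _
    congr 1
    rw [hy]
    group

/-- **SX-K2a.** -/
theorem avg_est [IsAlgClosed F] {m₀ m : ℕ} (h₀ : 0 < m₀) (hm : 0 < m) (hd : 2 * m₀ ∣ m)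
    (Z : D.X →ₗ[ℚ] D.X →ₗ[ℚ] (G → ℂ))
    (hZ : ∀ g ∈ D.Gm m, ∀ x y, Z (D.act g x) (D.act g y) = lt g (Z x y))
    (hp : ∀ i, ∀ g ∈ D.Gm m, ∀ y, Z (D.panel m g i) y = 0) {A : ℝ}
    (hA : ∀ g₁ ∈ D.Gm m, ∀ g₂ ∈ D.Gm m, ‖res (D.Gm m) (Z (D.δ g₁) (D.δ g₂))‖ ≤ A)
    {h g₂ : G} (hh : h ∈ D.Gm m₀) (hg₂ : g₂ ∈ D.Gm m₀) {w : W} (hw : w ≠ 1) :
    ‖res (D.Gm m) (Z (D.act h (D.avg m₀ w)) (D.δ g₂))‖ ≤ 4 * A / Real.sqrt (D.fm m₀).card := by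
  obtain ⟨i, hi⟩ := cs.exists_rightDescent_of_ne_one hw
  set Q : ℕ := (D.fm m₀).card with hQ
  have hQ1 : 1 ≤ Q := Finset.card_pos.mpr ⟨0, D.zero_mem_fm h₀⟩
  set S : Finset G := D.Pm D.B m₀ with hS
  have hS0 : 0 < S.card := D.Pm_card_pos D.B h₀
  have hA0 : 0 ≤ A := (norm_nonneg _).trans (hA 1 (D.one_mem_Gm hm) 1 (D.one_mem_Gm hm))
  have key : D.act h (D.avg m₀ w) = ((S.card : ℚ)⁻¹ * (Q : ℚ)⁻¹) •
      ∑ u ∈ S, ∑ a ∈ D.fm m₀, D.δ (h * (u * D.rep w) * D.φ i (lo a)) := by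
    rw [Finset.sum_comm, Finset.sum_congr rfl (fun a ha => D.sum_lo h₀ h hi ha), Finset.sum_const,
      ← Nat.cast_smul_eq_nsmul ℚ, smul_smul, mul_assoc, inv_mul_cancel₀, mul_one, act_avg]
    exact_mod_cast (by omega : Q ≠ 0)
  rw [key, map_smul, LinearMap.smul_apply, res_rat_smul, norm_smul, map_sum, LinearMap.sum_apply,
    map_sum]
  have h1 : ∀ u ∈ S, ‖res (D.Gm m) (Z (∑ a ∈ D.fm m₀, D.δ (h * (u * D.rep w) * D.φ i (lo a)))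
      (D.δ g₂))‖ ≤ (2 + 2 * Real.sqrt Q) * A := by
    intro u hu
    rw [hS, mem_Pm] at hu
    exact D.panel_est h₀ hm hd Z hZ hp hA
      (D.mul_mem_Gm hh (D.mul_mem_Gm hu.1 (D.rep_mem_Gm h₀ w))) hg₂ i
  have h2 := (norm_sum_le S fun u => res (D.Gm m) (Z (∑ a ∈ D.fm m₀,
    D.δ (h * (u * D.rep w) * D.φ i (lo a))) (D.δ g₂))).trans (Finset.sum_le_sum h1)
  rw [Finset.sum_const, nsmul_eq_mul] at h2
  have h3 : ‖(((S.card : ℚ)⁻¹ * (Q : ℚ)⁻¹ : ℚ) : ℂ)‖ = (S.card : ℝ)⁻¹ * (Q : ℝ)⁻¹ := by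
    push_cast
    rw [norm_mul, norm_inv, norm_inv, Complex.norm_natCast, Complex.norm_natCast]
  rw [h3]
  have hSr : (0 : ℝ) < S.card := by exact_mod_cast hS0
  have hQr : (1 : ℝ) ≤ Q := by exact_mod_cast hQ1
  have hQr0 : (0 : ℝ) < Q := by linarith
  have hsq : Real.sqrt Q * Real.sqrt Q = Q := Real.mul_self_sqrt hQr0.le
  have hs1 : 1 ≤ Real.sqrt Q := by
    rw [Real.one_le_sqrt]
    exact hQr
  have hs0 : 0 < Real.sqrt Q := by linarith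
  calc (S.card : ℝ)⁻¹ * (Q : ℝ)⁻¹ * ‖∑ u ∈ S, res (D.Gm m) (Z (∑ a ∈ D.fm m₀,
        D.δ (h * (u * D.rep w) * D.φ i (lo a))) (D.δ g₂))‖
      ≤ (S.card : ℝ)⁻¹ * (Q : ℝ)⁻¹ * (S.card * ((2 + 2 * Real.sqrt Q) * A)) := by
        apply mul_le_mul_of_nonneg_left h2
        positivity
    _ = (2 + 2 * Real.sqrt Q) * A / Q := by
        field_simp
    _ ≤ 4 * A / Real.sqrt Q := by
        rw [div_le_div_iff₀ hQr0 hs0]
        nlinarith [mul_nonneg hA0 hs0.le, mul_nonneg (mul_nonneg hA0 hs0.le) (sub_nonneg.mpr hs1)]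

/-- Bounds for `Z` at pairs `(1, rep w)` give bounds everywhere. -/
theorem bound_of_rep {m : ℕ} (hm : 0 < m) (Z : D.X →ₗ[ℚ] D.X →ₗ[ℚ] (G → ℂ))
    (hZ : ∀ g ∈ D.Gm m, ∀ x y, Z (D.act g x) (D.act g y) = lt g (Z x y)) {A : ℝ}
    (hA : ∀ w : W, ‖res (D.Gm m) (Z (D.δ 1) (D.δ (D.rep w)))‖ ≤ A)
    {g₁ g₂ : G} (hg₁ : g₁ ∈ D.Gm m) (hg₂ : g₂ ∈ D.Gm m) :
    ‖res (D.Gm m) (Z (D.δ g₁) (D.δ g₂))‖ ≤ A := by
  obtain ⟨b, hb, hbG, b', hb', he⟩ := D.finite_bruhat hm (D.mul_mem_Gm (D.inv_mem_Gm hg₁) hg₂)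
  set w := D.pos (g₁⁻¹ * g₂) with hw
  have h1 : D.δ g₁ = D.act (g₁ * b) (D.δ 1) := by
    rw [act_δ, mul_one, δ_mul_B D g₁ hb]
  have h2 : D.δ g₂ = D.act (g₁ * b) (D.δ (D.rep w)) := by
    rw [act_δ, ← D.δ_mul_B (g₁ * b * D.rep w) hb']
    congr 1
    rw [mul_assoc, mul_assoc, ← mul_assoc b, ← he]
    group
  rw [h1, h2, hZ (g₁ * b) (D.mul_mem_Gm hg₁ hbG), D.norm_res_lt (D.mul_mem_Gm hg₁ hbG)]
  exact hA w

variable [Fintype W]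

/-- `E₁ = ∑_w (-1)^{ℓ(w)} avg w` is in the Steinberg module of `G_m`. -/
theorem sum_avg_mem {m : ℕ} (hm : 0 < m) {h : G} (hh : h ∈ D.Gm m) :
    D.act h (∑ w : W, ((-1 : ℚ) ^ cs.length w) • D.avg m w) ∈ D.StM m := by
  have key : D.act h (∑ w : W, ((-1 : ℚ) ^ cs.length w) • D.avg m w) =
      ((D.Pm D.B m).card : ℚ)⁻¹ • ∑ u ∈ D.Pm D.B m, D.act (h * u) D.eQ := by
    unfold eQ
    simp only [map_sum, map_smul, act_avg, act_δ]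
    rw [Finset.sum_comm, Finset.smul_sum]
    refine Finset.sum_congr rfl fun w _ => ?_
    rw [smul_comm, Finset.smul_sum]
    congr 1
    refine Finset.sum_congr rfl fun u _ => ?_
    rw [mul_assoc]
  rw [key]
  refine Submodule.smul_mem _ _ (Submodule.sum_mem _ fun u hu => ?_)
  exact Submodule.subset_span ⟨h * u, D.mul_mem_Gm hh (D.mem_Pm.mp hu).1, rfl⟩

end Datum

end Pool.Agent.Helper89.SX
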