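import Mathlib
import Pool.Agent.Helper89.SX.St.K2a

/-!
# SX-K2: boundedness (`avg_est` etc. in `K2a`)

Notation: `S = B ∩ G_{m₀}`, `Q₀ = #F_{m₀}`, `avg w = (1/#S) ∑_{u ∈ S} δ (u rep(w))`,
`E₁ = (1/#S) ∑_{u ∈ S} act u e = ∑_w (-1)^{ℓ(w)} avg w ∈ StM m₀ ≤ StM m`, `avg 1 = δ 1`.
(K2a) For `w ≠ 1`, `h, g₂ ∈ G_{m₀}`: `‖Z (act h (avg w)) (δ g₂)‖ ≤ 4 A / √Q₀`.
Proof: let `i` be a right descent of `w`.  For `a ∈ F_{m₀}` the element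
`y_a = rep(w) φ(lo a) rep(w)⁻¹` is in `U ∩ G_{m₀} ⊆ S` (`conj_lo`), and `u ↦ u y_a` permutes `S`; so
`avg w = (1/#S) ∑_u δ (u rep(w) φ(lo a))` for every `a`, hence
`avg w = (1/#S) ∑_u (1/Q₀) ∑_a δ (u rep(w) φ(lo a))`.  Apply `panel_est` to `g = h u rep(w)`:
the norm is `≤ (2 + 2 √Q₀) A / Q₀ ≤ 4 A / √Q₀`.
(K2b) The same in the second variable, by K2a for `Z.flip`.
(K2) For `w : W` let `Y_w = b ⟨E₁, _⟩ ⟨act rep(w) E₁, _⟩` and `c_w` from `norm_bound`.  Let `m`, `Z`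
be as in the statement and `A = max_w ‖Z (δ 1) (δ rep(w))‖`; by `finite_bruhat` at level `m`
(`g₁⁻¹ g₂ = b rep(w) b'`, translate by `g₁ b`) every `‖Z (δ g₁) (δ g₂)‖ ≤ A`.  By `agree`,
`Y_w = Z E₁ (act rep(w) E₁) = ∑_{w₁,w₂} ± Z (avg w₁) (act rep(w) (avg w₂))`; the term `(1,1)` is
`Z (δ 1) (δ rep(w))`, the terms with `w₁ ≠ 1` are `≤ 4 A/√Q₀` by K2a (`act rep(w) (avg w₂)` is an
average of elements `δ g₂`, `g₂ ∈ G_{m₀}`), the terms with `w₁ = 1`, `w₂ ≠ 1` by K2b.  So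
`‖Z (δ 1) (δ rep(w))‖ ≤ ‖Y_w‖ + (#W)² · 4 A / √Q₀ ≤ ‖Y_w‖ + A/2`, and `A ≤ 2 max_w ‖Y_w‖`,
`A² ≤ 4 max_w c_w #(P ∩ G_m)`.
-/

set_option autoImplicit false

namespace Pool.Agent.Helper89.SX

open Matrix MonoidAlgebra

namespace Datum

variable {p : ℕ} [Fact p.Prime] {F : Type*} [Field F] [CharP F p] {G : Type*} [Group G]
  {I : Type*} {C : CoxeterMatrix I} {W : Type*} [Group W] {cs : CoxeterSystem C W}
  (D : Datum p F G cs) [Fintype W]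

omit [Group G] in
private theorem norm_res_smul (S : Finset G) (q : ℚ) (v : G → ℂ) :
    ‖res S (q • v)‖ = |(q : ℝ)| * ‖res S v‖ := by
  have h : q • v = (q : ℂ) • v := by
    funext x
    simp only [Pi.smul_apply, smul_eq_mul]
    rw [Rat.smul_def]
  rw [h, map_smul, norm_smul]
  congr 1
  rw [← Complex.ofReal_ratCast, Complex.norm_real, Real.norm_eq_abs]

omit [Group G] in
private theorem norm_res_sum_le {ι : Type*} (S : Finset G) (s : Finset ι) (f : ι → G → ℂ) :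
    ‖res S (∑ i ∈ s, f i)‖ ≤ ∑ i ∈ s, ‖res S (f i)‖ := by
  rw [map_sum]
  exact norm_sum_le _ _

omit [Fintype W] in
private theorem norm_res_avg_le (m₀ m : ℕ) (h₀ : 0 < m₀) (L : D.X →ₗ[ℚ] (G → ℂ)) {c : ℝ}
    (r : G) (w : W) (hr : r ∈ D.Gm m₀)
    (hc : ∀ g ∈ D.Gm m₀, ‖res (D.Gm m) (L (D.δ g))‖ ≤ c) :
    ‖res (D.Gm m) (L (D.act r (D.avg m₀ w)))‖ ≤ c := by
  classical
  have hpos : 0 < (D.Pm D.B m₀).card := D.Pm_card_pos D.B h₀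
  have hposR : (0 : ℝ) < ((D.Pm D.B m₀).card : ℝ) := by exact_mod_cast hpos
  unfold avg
  rw [map_smul, map_sum, map_smul, map_sum, norm_res_smul]
  have h1 : ‖res (D.Gm m) (∑ u ∈ D.Pm D.B m₀, L (D.act r (D.δ (u * D.rep w))))‖ ≤
      (D.Pm D.B m₀).card * c := by
    refine (norm_res_sum_le _ _ _).trans ?_
    rw [← nsmul_eq_mul, ← Finset.sum_const]
    refine Finset.sum_le_sum fun u hu => ?_
    rw [D.act_δ]
    refine hc _ (D.mul_mem_Gm hr (D.mul_mem_Gm ?_ (D.rep_mem_Gm h₀ w)))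
    unfold Pm at hu
    exact (Finset.mem_filter.mp hu).1
  have h2 : |(((((D.Pm D.B m₀).card : ℚ)⁻¹) : ℚ) : ℝ)| = ((D.Pm D.B m₀).card : ℝ)⁻¹ := by
    push_cast
    exact abs_of_pos (inv_pos.mpr hposR)
  rw [h2]
  calc ((D.Pm D.B m₀).card : ℝ)⁻¹ *
        ‖res (D.Gm m) (∑ u ∈ D.Pm D.B m₀, L (D.act r (D.δ (u * D.rep w))))‖
      ≤ ((D.Pm D.B m₀).card : ℝ)⁻¹ * ((D.Pm D.B m₀).card * c) :=
        mul_le_mul_of_nonneg_left h1 (inv_nonneg.mpr hposR.le)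
    _ = c := by field_simp

private theorem StM_mono' {m₀ m : ℕ} (h : m₀ ∣ m) (hm : 0 < m) : D.StM m₀ ≤ D.StM m :=
  Submodule.span_mono (Set.image_mono (by exact_mod_cast D.Gm_mono h hm))

/-- **SX-K2.** -/
theorem bounded [IsAlgClosed F] (b : D.StQ →ₗ[ℚ] D.StQ →ₗ[ℚ] (G → ℂ)) (P : Subgroup G)
    (χ : P →* ℂˣ) (hr : ∀ x y, RightEq P χ (b x y)) (hf : ∀ x y, FinMod P (b x y))
    {m₀ : ℕ} (h₀ : 0 < m₀) (hbig : 64 * Fintype.card W ^ 4 ≤ (D.fm m₀).card) :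
    ∃ c : ℝ, 0 ≤ c ∧ ∀ m, 0 < m → 2 * m₀ ∣ m → ∀ Z, D.IsZ b m Z →
      ∀ g₁ ∈ D.Gm m, ∀ g₂ ∈ D.Gm m,
        ‖res (D.Gm m) (Z (D.δ g₁) (D.δ g₂))‖ ^ 2 ≤ c * (D.Pm P m).card := by
  classical
  have hone : (1 : G) ∈ D.Gm m₀ := D.one_mem_Gm h₀
  set E₁ : D.X := ∑ w : W, ((-1 : ℚ) ^ cs.length w) • D.avg m₀ w with hE₁
  have hE : ∀ h ∈ D.Gm m₀, D.act h E₁ ∈ D.StM m₀ := fun h hh => D.sum_avg_mem h₀ hh
  have hE1 : E₁ ∈ D.StM m₀ := by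
    have := hE 1 hone
    rwa [D.act_one] at this
  have hEw : ∀ w : W, D.act (D.rep w) E₁ ∈ D.StM m₀ := fun w => hE _ (D.rep_mem_Gm h₀ w)
  have hnb := fun w : W => D.norm_bound P χ
    (hr ⟨E₁, D.StM_le m₀ hE1⟩ ⟨D.act (D.rep w) E₁, D.StM_le m₀ (hEw w)⟩)
    (hf ⟨E₁, D.StM_le m₀ hE1⟩ ⟨D.act (D.rep w) E₁, D.StM_le m₀ (hEw w)⟩)
  choose cw hcw0 hcw using hnb
  refine ⟨4 * ∑ w, cw w, mul_nonneg (by norm_num) (Finset.sum_nonneg fun w _ => hcw0 w), ?_⟩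
  intro m hm hd Z hZ g₁ hg₁ g₂ hg₂
  have hd' : m₀ ∣ m := (Dvd.intro_left 2 rfl).trans hd
  have hmono : D.Gm m₀ ⊆ D.Gm m := D.Gm_mono hd' hm
  -- the maximum
  obtain ⟨w₀, -, hw₀⟩ := Finset.exists_max_image (Finset.univ : Finset W)
    (fun w => ‖res (D.Gm m) (Z (D.δ 1) (D.δ (D.rep w)))‖) ⟨1, Finset.mem_univ 1⟩
  set A : ℝ := ‖res (D.Gm m) (Z (D.δ 1) (D.δ (D.rep w₀)))‖ with hA
  have hA0 : 0 ≤ A := norm_nonneg _
  have hbd : ∀ g₁ ∈ D.Gm m, ∀ g₂ ∈ D.Gm m, ‖res (D.Gm m) (Z (D.δ g₁) (D.δ g₂))‖ ≤ A :=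
    fun g₁ h₁ g₂ h₂ => D.bound_of_rep hm Z hZ.equiv (fun w => hw₀ w (Finset.mem_univ w)) h₁ h₂
  -- the bound for one term
  set ε : ℝ := 4 * A / Real.sqrt (D.fm m₀).card with hε
  have hsqrt : (8 : ℝ) * (Fintype.card W : ℝ) ^ 2 ≤ Real.sqrt (D.fm m₀).card := by
    refine Real.le_sqrt_of_sq_le ?_
    have : (64 : ℝ) * (Fintype.card W : ℝ) ^ 4 ≤ (D.fm m₀).card := by exact_mod_cast hbig
    calc ((8 : ℝ) * (Fintype.card W : ℝ) ^ 2) ^ 2 = 64 * (Fintype.card W : ℝ) ^ 4 := by ring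
      _ ≤ _ := this
  have hW : (0 : ℝ) < (Fintype.card W : ℝ) := by exact_mod_cast Fintype.card_pos
  have hsq0 : 0 < Real.sqrt (D.fm m₀).card := lt_of_lt_of_le (by positivity) hsqrt
  have hε0 : 0 ≤ ε := by positivity
  have hεb : (Fintype.card W : ℝ) ^ 2 * ε ≤ A / 2 := by
    rw [hε, ← mul_div_assoc, div_le_iff₀ hsq0]
    nlinarith [mul_le_mul_of_nonneg_right hsqrt hA0]
  have hleft : ∀ w₁ : W, w₁ ≠ 1 → ∀ g ∈ D.Gm m₀,
      ‖res (D.Gm m) (Z (D.avg m₀ w₁) (D.δ g))‖ ≤ ε := by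
    intro w₁ hw₁ g hg
    have := D.avg_est h₀ hm hd Z hZ.equiv hZ.panel_left hbd hone hg hw₁
    rwa [D.act_one] at this
  have hright : ∀ w₂ : W, w₂ ≠ 1 → ∀ r ∈ D.Gm m₀,
      ‖res (D.Gm m) (Z (D.δ 1) (D.act r (D.avg m₀ w₂)))‖ ≤ ε := by
    intro w₂ hw₂ r hr'
    exact D.avg_est h₀ hm hd Z.flip (fun g hg x y => hZ.equiv g hg y x)
      (fun i g hg y => hZ.panel_right i g hg y) (fun g₁ h₁ g₂ h₂ => hbd g₂ h₂ g₁ h₁) hr' hone hw₂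
  have hsgn : ∀ w : W, |(((-1 : ℚ) ^ cs.length w : ℚ) : ℝ)| = 1 := by
    intro w
    push_cast
    rw [abs_pow]
    norm_num
  -- expansion
  have hYw : b ⟨E₁, D.StM_le m₀ hE1⟩ ⟨D.act (D.rep w₀) E₁, D.StM_le m₀ (hEw w₀)⟩ =
      Z E₁ (D.act (D.rep w₀) E₁) :=
    (hZ.agree E₁ (D.act (D.rep w₀) E₁) (D.StM_mono' hd' hm hE1) (D.StM_mono' hd' hm (hEw w₀))).symm
  have hr₀ : D.rep w₀ ∈ D.Gm m₀ := D.rep_mem_Gm h₀ w₀
  have hT1 : ∀ w₁ : W, w₁ ≠ 1 →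
      ‖res (D.Gm m) (Z (D.avg m₀ w₁) (D.act (D.rep w₀) E₁))‖ ≤ Fintype.card W * ε := by
    intro w₁ hw₁
    rw [hE₁, map_sum, map_sum]
    refine (norm_res_sum_le _ _ _).trans ?_
    rw [← nsmul_eq_mul, ← Finset.card_univ, ← Finset.sum_const]
    refine Finset.sum_le_sum fun w₂ _ => ?_
    rw [map_smul, map_smul, norm_res_smul, hsgn, one_mul]
    exact D.norm_res_avg_le m₀ m h₀ (Z (D.avg m₀ w₁)) _ w₂ hr₀ (hleft w₁ hw₁)
  have hsplit : E₁ = D.δ 1 + ∑ w ∈ Finset.univ.erase (1 : W),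
      ((-1 : ℚ) ^ cs.length w) • D.avg m₀ w := by
    rw [hE₁, ← Finset.add_sum_erase _ _ (Finset.mem_univ (1 : W)), D.avg_one h₀,
      cs.length_one, pow_zero, one_smul]
  have hmain : Z (D.δ 1) (D.δ (D.rep w₀)) =
      Z E₁ (D.act (D.rep w₀) E₁)
        - ∑ w ∈ Finset.univ.erase (1 : W),
          ((-1 : ℚ) ^ cs.length w) • Z (D.avg m₀ w) (D.act (D.rep w₀) E₁)
        - ∑ w ∈ Finset.univ.erase (1 : W),
          ((-1 : ℚ) ^ cs.length w) • Z (D.δ 1) (D.act (D.rep w₀) (D.avg m₀ w)) := by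
    have e1 : ∀ y : D.X, Z E₁ y = Z (D.δ 1) y +
        ∑ w ∈ Finset.univ.erase (1 : W), ((-1 : ℚ) ^ cs.length w) • Z (D.avg m₀ w) y := by
      intro y
      rw [hsplit, map_add, LinearMap.add_apply, map_sum, LinearMap.sum_apply]
      congr 1
      refine Finset.sum_congr rfl fun w _ => ?_
      rw [map_smul, LinearMap.smul_apply]
    have e2 : Z (D.δ 1) (D.act (D.rep w₀) E₁) = Z (D.δ 1) (D.δ (D.rep w₀)) +
        ∑ w ∈ Finset.univ.erase (1 : W),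
          ((-1 : ℚ) ^ cs.length w) • Z (D.δ 1) (D.act (D.rep w₀) (D.avg m₀ w)) := by
      rw [hsplit, map_add, D.act_δ, mul_one, map_add, map_sum, map_sum]
      congr 1
      refine Finset.sum_congr rfl fun w _ => ?_
      rw [map_smul, map_smul]
    rw [e1, e2]
    abel
  have hcardW : 1 ≤ Fintype.card W := Fintype.card_pos
  have hcardE : (((Finset.univ : Finset W).erase 1).card : ℝ) = (Fintype.card W : ℝ) - 1 := by
    rw [Finset.card_erase_of_mem (Finset.mem_univ _), Finset.card_univ, Nat.cast_sub hcardW]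
    simp
  have hS1 : ‖res (D.Gm m) (∑ w ∈ Finset.univ.erase (1 : W),
      ((-1 : ℚ) ^ cs.length w) • Z (D.avg m₀ w) (D.act (D.rep w₀) E₁))‖ ≤
      ((Fintype.card W : ℝ) - 1) * (Fintype.card W * ε) := by
    refine (norm_res_sum_le _ _ _).trans ?_
    rw [← hcardE, ← nsmul_eq_mul, ← Finset.sum_const]
    refine Finset.sum_le_sum fun w hw => ?_
    rw [norm_res_smul, hsgn, one_mul]
    exact hT1 w (Finset.ne_of_mem_erase hw)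
  have hS2 : ‖res (D.Gm m) (∑ w ∈ Finset.univ.erase (1 : W),
      ((-1 : ℚ) ^ cs.length w) • Z (D.δ 1) (D.act (D.rep w₀) (D.avg m₀ w)))‖ ≤
      ((Fintype.card W : ℝ) - 1) * ε := by
    refine (norm_res_sum_le _ _ _).trans ?_
    rw [← hcardE, ← nsmul_eq_mul, ← Finset.sum_const]
    refine Finset.sum_le_sum fun w hw => ?_
    rw [norm_res_smul, hsgn, one_mul]
    exact hright w (Finset.ne_of_mem_erase hw) _ hr₀
  have hAle : A ≤ ‖res (D.Gm m) (Z E₁ (D.act (D.rep w₀) E₁))‖ + A / 2 := by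
    have h1 : A ≤ ‖res (D.Gm m) (Z E₁ (D.act (D.rep w₀) E₁))‖
        + ((Fintype.card W : ℝ) - 1) * (Fintype.card W * ε) + ((Fintype.card W : ℝ) - 1) * ε := by
      rw [hA, hmain, map_sub, map_sub]
      refine (norm_sub_le _ _).trans (add_le_add ((norm_sub_le _ _).trans ?_) hS2)
      exact add_le_add le_rfl hS1
    have h2 : ((Fintype.card W : ℝ) - 1) * (Fintype.card W * ε) + ((Fintype.card W : ℝ) - 1) * ε
        ≤ (Fintype.card W : ℝ) ^ 2 * ε := by nlinarith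
    linarith
  have hA2 : A ≤ 2 * ‖res (D.Gm m) (Z E₁ (D.act (D.rep w₀) E₁))‖ := by linarith
  have hN0 : (0 : ℝ) ≤ (D.Pm P m).card := Nat.cast_nonneg _
  have hfin : A ^ 2 ≤ 4 * (∑ w, cw w) * (D.Pm P m).card := by
    have h1 := hcw w₀ m hm
    rw [hYw] at h1
    have h2 : cw w₀ ≤ ∑ w, cw w := Finset.single_le_sum (fun w _ => hcw0 w) (Finset.mem_univ w₀)
    have h3 : A ^ 2 ≤ 4 * ‖res (D.Gm m) (Z E₁ (D.act (D.rep w₀) E₁))‖ ^ 2 := by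
      nlinarith [norm_nonneg (res (D.Gm m) (Z E₁ (D.act (D.rep w₀) E₁)))]
    nlinarith [mul_le_mul_of_nonneg_right h2 hN0]
  refine le_trans ?_ hfin
  exact pow_le_pow_left₀ (norm_nonneg _) (hbd g₁ hg₁ g₂ hg₂) 2

end Datum

end Pool.Agent.Helper89.SX
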