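import Mathlib
import Pool.Agent.Helper89.SX.St.A3

/-!
# SX-T1: facts on the torus

Hints.
* `T_comm`: `torus` is an isomorphism from a commutative group.
* `T_divisible`: `F` is algebraically closed: every unit is an `n`-th power (`n > 0`).
* `T_torsion`: `t = torus c`, `Fr^[m] t = t` gives `c j ^ (q ^ m) = c j`, so `t ^ (q ^ m - 1) = 1`.
* `exists_distinct`: `H ∩ T` has infinite index in `T` (a divisible abelian group has no proper
  subgroup of finite index: if the index is `n` then `t' ^ n ∈ H` for all `t'`), so there are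
  arbitrarily many elements of `T` in different cosets of `H`.
* `exists_ne_one`: `m T m⁻¹ ⊆ P K`.  Write `m = b₁ n b₂` (`pos_spec`), `b₂ = t₂ u₂`.  For `t ∈ T`:
  `m t m⁻¹ = b₁ (n t n⁻¹) y b₁⁻¹`, `y = n (t⁻¹ u t u⁻¹) n⁻¹` with `u = t₂ u₂ t₂⁻¹ ∈ U` (conjugating by
  `t₂ ∈ T` does nothing to `t`), `t⁻¹ u t u⁻¹ ∈ U`, so `y` has order a power of `p` (`unipotent`).
  `b₁ ∈ B ≤ P K`, `n t n⁻¹ ∈ T ≤ P K`, so `y ∈ P K`, and `χ y` is a value of `θ`
  (`Extends.exists_T`), so of order prime to `p` (`T_torsion`), and of order a power of `p`: `χ y = 1`.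
  So `χ (m t m⁻¹) = θ (n t n⁻¹)`.  If this were `1` for all `t` then `θ = 1`
  (`n⁻¹ T n = T`, `N_conj_T`).
-/

set_option autoImplicit false

namespace Pool.Agent.Helper89.SX

open Matrix MonoidAlgebra

namespace Datum

variable {p : ℕ} [Fact p.Prime] {F : Type*} [Field F] [CharP F p] {G : Type*} [Group G]
  {I : Type*} {C : CoxeterMatrix I} {W : Type*} [Group W] {cs : CoxeterSystem C W}
  (D : Datum p F G cs) {κ : Type*} [Field κ]

theorem T_comm {t t' : G} (h : t ∈ D.T) (h' : t' ∈ D.T) : t * t' = t' * t := by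
  have h1 : (⟨t, h⟩ : D.T) * ⟨t', h'⟩ = ⟨t', h'⟩ * ⟨t, h⟩ := by
    apply D.torus.symm.injective
    rw [map_mul, map_mul, mul_comm]
  exact congrArg Subtype.val h1

theorem T_divisible [IsAlgClosed F] {n : ℕ} (hn : 0 < n) {t : G} (h : t ∈ D.T) :
    ∃ t' ∈ D.T, t' ^ n = t := by
  obtain ⟨c, hc⟩ := D.torus.surjective ⟨t, h⟩
  have h1 : ∀ j, ∃ d : Fˣ, d ^ n = c j := by
    intro j
    obtain ⟨z, hz⟩ := IsAlgClosed.exists_pow_nat_eq (c j : F) hn
    have hz0 : z ≠ 0 := by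
      rintro rfl
      rw [zero_pow hn.ne'] at hz
      exact (c j).ne_zero hz.symm
    exact ⟨Units.mk0 z hz0, Units.ext (by simpa using hz)⟩
  choose d hd using h1
  refine ⟨(D.torus d : G), (D.torus d).2, ?_⟩
  have h2 : (D.torus d) ^ n = ⟨t, h⟩ := by
    rw [← map_pow, ← hc]
    exact congrArg _ (funext hd)
  have h3 := congrArg Subtype.val h2
  simpa using h3

theorem T_torsion {t : G} (h : t ∈ D.T) : ∃ m : ℕ, 0 < m ∧ m.Coprime p ∧ t ^ m = 1 := by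
  obtain ⟨c, hc⟩ := D.torus.surjective ⟨t, h⟩
  obtain ⟨m, hm, hf⟩ := D.Fr_fixed t
  have hp : 1 < p := (Fact.out : p.Prime).one_lt
  have hq : 1 < D.q := Nat.one_lt_pow D.e_pos.ne' hp
  have hqm : 1 < D.q ^ m := Nat.one_lt_pow hm.ne' hq
  have h1 : ∀ k : ℕ, D.Fr^[k] t = (D.torus (fun j => c j ^ D.q ^ k) : G) := by
    intro k
    induction k with
    | zero => simp [hc]
    | succ k ih =>
      rw [Function.iterate_succ_apply', ih, D.Fr_torus]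
      congr 2
      funext j
      rw [← pow_mul, pow_succ]
      rfl
  have h2 : (fun j => c j ^ D.q ^ m) = c := by
    apply D.torus.injective
    apply Subtype.ext
    rw [← h1 m, hf, hc]
  have h3 : c ^ (D.q ^ m - 1) = 1 := by
    funext j
    have h4 : c j ^ D.q ^ m = c j := congrFun h2 j
    have h5 : c j ^ (D.q ^ m - 1) * c j = 1 * c j := by
      rw [← pow_succ, Nat.sub_add_cancel hqm.le, h4, one_mul]
    exact mul_right_cancel h5
  refine ⟨D.q ^ m - 1, by omega, ?_, ?_⟩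
  · have h4 : p ∣ D.q ^ m := dvd_pow (dvd_pow_self p D.e_pos.ne') hm.ne'
    have h5 : ¬ p ∣ D.q ^ m - 1 := by
      intro h6
      have h7 : p ∣ D.q ^ m - (D.q ^ m - 1) := Nat.dvd_sub h4 h6
      have h8 : D.q ^ m - (D.q ^ m - 1) = 1 := by omega
      rw [h8] at h7
      exact absurd (Nat.le_of_dvd one_pos h7) (by omega)
    exact ((Nat.Prime.coprime_iff_not_dvd Fact.out).2 h5).symm
  · have h4 : (⟨t, h⟩ : D.T) ^ (D.q ^ m - 1) = 1 := by
      rw [← hc, ← map_pow, h3, map_one]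
    have h5 := congrArg Subtype.val h4
    simpa using h5

/-- **SX-T1a.** -/
theorem exists_distinct [IsAlgClosed F] (H : Subgroup G) (hH : ¬ D.T ≤ H) (N : ℕ) :
    ∃ t : Fin N → G, (∀ j, t j ∈ D.T) ∧ ∀ i j, i ≠ j → (t i)⁻¹ * t j ∉ H := by
  have hinf : Infinite (D.T ⧸ H.subgroupOf D.T) := by
    by_contra hfin
    rw [not_infinite_iff_finite] at hfin
    have hidx : 0 < (H.subgroupOf D.T).index := by
      rw [Subgroup.index]
      exact Nat.card_pos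
    have hnorm : (H.subgroupOf D.T).Normal := by
      refine ⟨fun x hx g => ?_⟩
      have h1 : g * x = x * g := Subtype.ext (D.T_comm g.2 x.2)
      rw [h1, mul_inv_cancel_right]
      exact hx
    apply hH
    intro t ht
    obtain ⟨t', ht', e⟩ := D.T_divisible hidx ht
    have h2 := Subgroup.pow_index_mem (H.subgroupOf D.T) (⟨t', ht'⟩ : D.T)
    rw [Subgroup.mem_subgroupOf] at h2
    rw [← e]
    simpa using h2
  let emb := Infinite.natEmbedding (D.T ⧸ H.subgroupOf D.T)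
  refine ⟨fun j => ((emb j).out : D.T), fun j => ((emb j).out : D.T).2, fun i j hij hmem => ?_⟩
  have h1 : ((emb i).out : D.T)⁻¹ * (emb j).out ∈ H.subgroupOf D.T := by
    rw [Subgroup.mem_subgroupOf]
    simpa using hmem
  have h2 := QuotientGroup.eq.2 h1
  rw [QuotientGroup.out_eq', QuotientGroup.out_eq'] at h2
  exact hij (Fin.ext (emb.injective h2))

/-- **SX-T1b.** -/
theorem exists_ne_one {θ : D.T →* κˣ} (hθ : θ ≠ 1) {K : Set I} {χ : D.P K →* κˣ}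
    (h : D.Extends θ χ) (m : G) (hm : ∀ t ∈ D.T, m * t * m⁻¹ ∈ D.P K) :
    ∃ t, ∃ ht : t ∈ D.T, χ ⟨m * t * m⁻¹, hm t ht⟩ ≠ 1 := by
  by_contra hcon
  push Not at hcon
  obtain ⟨b₁, hb₁, n, b₂, hb₂, -, em⟩ := D.pos_spec m
  obtain ⟨t₂, ht₂, u₂, hu₂, rfl⟩ := D.mem_B.1 hb₂
  have hTP : D.T ≤ D.P K := le_trans (le_sup_left : D.T ≤ D.B) le_sup_left
  have hBP : D.B ≤ D.P K := le_sup_left
  have hu : t₂ * u₂ * t₂⁻¹ ∈ D.U := D.conj_U t₂ ht₂ u₂ hu₂
  apply hθ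
  ext1 s
  have ht : (n : G)⁻¹ * s * n ∈ D.T := by
    have := D.N_conj_T n⁻¹ s.2
    simpa using this
  set t : G := (n : G)⁻¹ * s * n with htdef
  have hst : (s : G) = n * t * (n : G)⁻¹ := by rw [htdef]; group
  have hv : t⁻¹ * (t₂ * u₂ * t₂⁻¹) * t * (t₂ * u₂ * t₂⁻¹)⁻¹ ∈ D.U :=
    D.U.mul_mem (D.conj_U' ht hu) (D.U.inv_mem hu)
  set v : G := t⁻¹ * (t₂ * u₂ * t₂⁻¹) * t * (t₂ * u₂ * t₂⁻¹)⁻¹ with hvdef
  have hcomm : t₂ * t * t₂⁻¹ = t := by
    rw [D.T_comm ht₂ ht, mul_inv_cancel_right]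
  have e1 : m * t * m⁻¹ = b₁ * (n * t * (n : G)⁻¹) * (n * v * (n : G)⁻¹) * b₁⁻¹ := by
    have e2 : t * v = (t₂ * u₂ * t₂⁻¹) * (t₂ * t * t₂⁻¹) * (t₂ * u₂ * t₂⁻¹)⁻¹ := by
      rw [hcomm, hvdef]
      group
    have e3 : b₁ * (n * t * (n : G)⁻¹) * (n * v * (n : G)⁻¹) * b₁⁻¹ =
        b₁ * n * (t * v) * (n : G)⁻¹ * b₁⁻¹ := by group
    rw [e3, e2, em]
    group
  have hsP : (n : G) * t * (n : G)⁻¹ ∈ D.P K := hTP (D.N_conj_T n ht)
  have hyP : (n : G) * v * (n : G)⁻¹ ∈ D.P K := by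
    have e2 : (n : G) * v * (n : G)⁻¹ =
        (n * t * (n : G)⁻¹)⁻¹ * (b₁⁻¹ * (m * t * m⁻¹) * b₁) := by
      rw [e1]
      group
    rw [e2]
    exact mul_mem (inv_mem hsP) (mul_mem (mul_mem (inv_mem (hBP hb₁)) (hm t ht)) (hBP hb₁))
  have hχy : χ ⟨(n : G) * v * (n : G)⁻¹, hyP⟩ = 1 := by
    obtain ⟨k, hk⟩ := D.unipotent v hv
    have h1 : (⟨(n : G) * v * (n : G)⁻¹, hyP⟩ : D.P K) ^ p ^ k = 1 := by
      apply Subtype.ext
      change ((n : G) * v * (n : G)⁻¹) ^ p ^ k = 1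
      rw [conj_pow, hk, mul_one, mul_inv_cancel]
    have h2 : (χ ⟨(n : G) * v * (n : G)⁻¹, hyP⟩) ^ p ^ k = 1 := by
      rw [← map_pow, h1, map_one]
    obtain ⟨t₀, ht₀⟩ := h.exists_T ⟨(n : G) * v * (n : G)⁻¹, hyP⟩
    obtain ⟨a, ha, hap, hta⟩ := D.T_torsion t₀.2
    have h3 : t₀ ^ a = 1 := Subtype.ext (by simpa using hta)
    have h4 : (χ ⟨(n : G) * v * (n : G)⁻¹, hyP⟩) ^ a = 1 := by
      rw [ht₀, ← map_pow, h3, map_one]
    have h5 : (χ ⟨(n : G) * v * (n : G)⁻¹, hyP⟩) ^ Nat.gcd (p ^ k) a = 1 := pow_gcd_eq_one.2 ⟨h2, h4⟩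
    rw [(Nat.Coprime.pow_left k hap.symm).gcd_eq_one, pow_one] at h5
    exact h5
  have e5 : χ ⟨m * t * m⁻¹, hm t ht⟩ = θ s := by
    have e6 : (⟨m * t * m⁻¹, hm t ht⟩ : D.P K) = ⟨b₁, hBP hb₁⟩ * ⟨n * t * (n : G)⁻¹, hsP⟩ *
        ⟨n * v * (n : G)⁻¹, hyP⟩ * (⟨b₁, hBP hb₁⟩)⁻¹ := by
      apply Subtype.ext
      exact e1
    rw [e6, map_mul, map_mul, map_mul, map_inv, hχy, mul_one, mul_comm (χ ⟨b₁, hBP hb₁⟩),
      mul_inv_cancel_right, h.apply_T _ hsP (D.N_conj_T n ht)]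
    exact congrArg θ (Subtype.ext hst.symm)
  rw [← e5, hcon t ht]
  rfl

end Datum

end Pool.Agent.Helper89.SX
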