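import Mathlib
import Pool.Agent.Helper89.SX.St.N1
import Pool.Agent.Helper89.SX.St.T1

/-!
# SX-K3a: small values (K3a below)

(K3a) `value_small`.  Let `g₁, g₂, g₀ ∈ G`.  For every `ε > 0` there is `m₁ > 0` such that for all
`m > 0` with `m₁ ∣ m` and all `v` with `RightEq`, `lt (h t h⁻¹) v = v` for the `t ∈ T ∩ G_m`, and
`‖res (Gm m) v‖² ≤ c #(P ∩ G_m)`: `‖v g₀‖ ≤ ε`.
Proof.  Let `H = {t | h t h⁻¹ g₀ ∈ g₀ P} = {t | (g₀⁻¹ h) t (g₀⁻¹ h)⁻¹ ∈ P}`, the preimage of `P`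
under conjugation.  Case `¬ T ≤ H`: take `N` with `c / N ≤ ε²` and `t : Fin N → G` from
`exists_distinct`, and `m₁` with `h, g₀, t j ∈ G_{m₁}` (`exists_level`).  For `m₁ ∣ m`: the
`x j = h (t j) h⁻¹ g₀ ∈ G_m` are in different cosets of `P`, `v (x j) = v g₀` (invariance for
`(t j)⁻¹`), so `N ‖v g₀‖² #(P ∩ G_m) ≤ ‖res v‖² ≤ c #(P ∩ G_m)` (`orbit_bound`, `Pm_card_pos`).
Case `T ≤ H`: by `exists_ne_one` (for `g₀⁻¹ h`) there is `t ∈ T` with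
`χ(g₀⁻¹ h t h⁻¹ g₀) ≠ 1`; `m₁` with `t, h, g₀ ∈ G_{m₁}`;
`v g₀ = v (h t h⁻¹ g₀) = v (g₀ (g₀⁻¹ h t h⁻¹ g₀)) = χ(…)⁻¹ v g₀`, so `v g₀ = 0`.
(K3) Let `x, y ∈ StQ`, `g₀ ∈ G`; show `b x y g₀ = 0`.  By linearity we may take `x = act g e`,
`y = act g' e` (span induction), or choose `m₀` with `x, y ∈ StM m₀`.  Take `m₀ > 0` with
`g, g' ∈ G_{m₀}` and `64 (#W)^4 ≤ q^{m₀} = #F_{m₀}` (replace `m₀` by a multiple; `card_fm`), `c` from
`bounded`.  `x = ∑_w ± δ (g rep(w))`, `y = ∑_{w'} ± δ (g' rep(w'))`, a finite sum over pairs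
`(g₁, g₂)`, `g₁ = g rep(w)`, `g₂ = g' rep(w')` in `G_{m₀}`.  For such a pair
`g₁⁻¹ g₂ = b rep(v) b'` (`finite_bruhat`), put `h = g₁ b ∈ G_{m₀}`: `δ g₁ = δ h`,
`δ g₂ = δ (h rep(v))`; for `t ∈ T ∩ G_m` (`m₀ ∣ m`): `act (h t h⁻¹)` fixes both, so
`lt (h t h⁻¹)` fixes `Z (δ g₁) (δ g₂)` (`equiv`).  Let `m₁` be a common multiple of `2 m₀` and of the
`m₁` of K3a for all pairs and `ε`; take `m = m₁`, `Z` from `exists_Z`; then
`‖b x y g₀‖ = ‖Z x y g₀‖ ≤ (#W)² ε`.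
-/

set_option autoImplicit false

namespace Pool.Agent.Helper89.SX

open Matrix MonoidAlgebra

namespace Datum

variable {p : ℕ} [Fact p.Prime] {F : Type*} [Field F] [CharP F p] {G : Type*} [Group G]
  {I : Type*} {C : CoxeterMatrix I} {W : Type*} [Group W] {cs : CoxeterSystem C W}
  (D : Datum p F G cs)

/-- **SX-K3a.** -/
theorem value_small [IsAlgClosed F] {θ : D.T →* ℂˣ} (hθ : θ ≠ 1) {K : Set I} {χ : D.P K →* ℂˣ}
    (hχ : D.Extends θ χ) (h g₀ : G) {c : ℝ} (hc : 0 ≤ c) {ε : ℝ} (hε : 0 < ε) :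
    ∃ m₁, 0 < m₁ ∧ ∀ m, 0 < m → m₁ ∣ m → ∀ v : G → ℂ, RightEq (D.P K) χ v →
      (∀ t ∈ D.T, t ∈ D.Gm m → lt (h * t * h⁻¹) v = v) →
      ‖res (D.Gm m) v‖ ^ 2 ≤ c * (D.Pm (D.P K) m).card → ‖v g₀‖ ≤ ε := by
  classical
  let H : Subgroup G := (D.P K).comap (MulAut.conj (g₀⁻¹ * h)).toMonoidHom
  have hH : ∀ t, t ∈ H ↔ g₀⁻¹ * h * t * (g₀⁻¹ * h)⁻¹ ∈ D.P K := fun t => Iff.rfl
  by_cases hT : D.T ≤ H
  · obtain ⟨t, ht, hne⟩ := D.exists_ne_one hθ hχ (g₀⁻¹ * h) (fun t ht => (hH t).1 (hT ht))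
    obtain ⟨m₁, hm₁, hS⟩ := D.exists_level {t}
    refine ⟨m₁, hm₁, fun m hm hd v hv hinv _ => ?_⟩
    have htm : t ∈ D.Gm m := D.Gm_mono hd hm (hS (Finset.mem_singleton_self t))
    have h1 := congrFun (hinv t ht htm) (h * t * h⁻¹ * g₀)
    have h2 : lt (h * t * h⁻¹) v (h * t * h⁻¹ * g₀) = v g₀ := by
      show v ((h * t * h⁻¹)⁻¹ * (h * t * h⁻¹ * g₀)) = v g₀
      rw [inv_mul_cancel_left]
    rw [h2] at h1
    have h3 : h * t * h⁻¹ * g₀ = g₀ * (g₀⁻¹ * h * t * (g₀⁻¹ * h)⁻¹) := by group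
    rw [h3, hv g₀ _ ((hH t).1 (hT ht))] at h1
    have h4 : v g₀ = 0 := by
      by_contra h0
      apply hne
      have h5 : (((χ ⟨g₀⁻¹ * h * t * (g₀⁻¹ * h)⁻¹, (hH t).1 (hT ht)⟩)⁻¹ : ℂˣ) : ℂ) = 1 := by
        have h6 : ((((χ ⟨g₀⁻¹ * h * t * (g₀⁻¹ * h)⁻¹, (hH t).1 (hT ht)⟩)⁻¹ : ℂˣ) : ℂ) - 1) *
            v g₀ = 0 := by linear_combination -h1
        rcases mul_eq_zero.1 h6 with h7 | h7
        · linear_combination h7
        · exact absurd h7 h0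
      have h8 := Units.val_eq_one.1 h5
      exact inv_eq_one.1 h8
    rw [h4, norm_zero]
    exact hε.le
  · obtain ⟨N, hN⟩ := exists_nat_gt (c / ε ^ 2)
    have hNpos : (0 : ℝ) < N := lt_of_le_of_lt (by positivity) hN
    obtain ⟨t, htT, htd⟩ := D.exists_distinct H hT N
    obtain ⟨m₁, hm₁, hS⟩ := D.exists_level (insert h (insert g₀ (Finset.univ.image t)))
    refine ⟨m₁, hm₁, fun m hm hd v hv hinv hb => ?_⟩
    have hsub : insert h (insert g₀ (Finset.univ.image t)) ⊆ D.Gm m := hS.trans (D.Gm_mono hd hm)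
    have hhm : h ∈ D.Gm m := hsub (by simp)
    have hgm : g₀ ∈ D.Gm m := hsub (by simp)
    have htm : ∀ j, t j ∈ D.Gm m := fun j => hsub (by simp)
    have hx : ∀ j, h * t j * h⁻¹ * g₀ ∈ D.Gm m := fun j =>
      D.mul_mem_Gm (D.mul_mem_Gm (D.mul_mem_Gm hhm (htm j)) (D.inv_mem_Gm hhm)) hgm
    have hob := D.orbit_bound (D.P K) χ hv hm (fun j => h * t j * h⁻¹ * g₀) hx (by
      intro i j hij hmem
      apply htd i j hij
      rw [hH]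
      have h3 : g₀⁻¹ * h * ((t i)⁻¹ * t j) * (g₀⁻¹ * h)⁻¹ =
          (h * t i * h⁻¹ * g₀)⁻¹ * (h * t j * h⁻¹ * g₀) := by group
      rw [h3]
      exact hmem)
    have hval : ∀ j, v (h * t j * h⁻¹ * g₀) = v g₀ := by
      intro j
      have h1 := congrFun (hinv (t j) (htT j) (htm j)) (h * t j * h⁻¹ * g₀)
      rw [← h1]
      show v ((h * t j * h⁻¹)⁻¹ * (h * t j * h⁻¹ * g₀)) = v g₀
      rw [inv_mul_cancel_left]
    simp only [hval, Finset.sum_const, Finset.card_univ, Fintype.card_fin, nsmul_eq_mul] at hob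
    have hpos : (0 : ℝ) < (D.Pm (D.P K) m).card := by exact_mod_cast D.Pm_card_pos (D.P K) hm
    have h5 : (N : ℝ) * ‖v g₀‖ ^ 2 ≤ c :=
      le_of_mul_le_mul_right (hob.trans hb) hpos
    have h6 : c < N * ε ^ 2 := by
      rw [div_lt_iff₀ (by positivity)] at hN
      exact hN
    have h7 : ‖v g₀‖ ^ 2 < ε ^ 2 := lt_of_mul_lt_mul_left (lt_of_le_of_lt h5 h6) hNpos.le
    exact (lt_of_pow_lt_pow_left₀ 2 hε.le h7).le

end Datum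

end Pool.Agent.Helper89.SX
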