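import Mathlib
import Pool.Agent.Helper89.SX.Defs3

/-!
# SX-Z1a: the projection

Proof.  Let `⟨x, y⟩ = ∑_c x(c) y(c)` on `X = (G ⧸ B →₀ ℚ)`, a positive definite symmetric form,
invariant under `act g`.  `StM m` is finite dimensional (spanned by a finite set), so
`X = StM m ⊕ (StM m)^⊥` (for a finite dimensional subspace `S`: the restriction of the form to `S` is
non-degenerate, so every functional `⟨x, ·⟩|_S` is `⟨s, ·⟩|_S`; or restrict to a finite set of
chambers and use `LinearMap.BilinForm.isCompl_orthogonal_of_restrict_nondegenerate`).  Let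
`π : X → StM m ≤ StQ` be the projection with kernel `(StM m)^⊥` (`Submodule.linearProjOfIsCompl`).
`π` commutes with `act g`, `g ∈ G_m` (both summands are stable).  Put `Z x y = b (π x) (π y)`.
* `agree`: `π x = x` on `StM m`.
* `panel`: the panel sum is orthogonal to `StM m`: `⟨panel m g i, act h e⟩ = 0` for `g, h ∈ G_m`.
  With `f(c) = ⟨…⟩`: `e = ∑_w (-1)^{ℓ(w)} δ (rep w)`, and `δ (rep (w s_i)) = δ (rep w * s_i)`
  (`ν_eq_iff`, `T ≤ B`); the sum over `w` cancels in pairs `w, w s_i` (`Finset.sum_involution` or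
  half sums), because the coefficient of the panel sum at `h rep(w) B` and at `h rep(w) s_i B` are
  equal (`panel_apply`: `g⁻¹ h rep(w) ∈ P {i}` iff `g⁻¹ h rep(w) s_i ∈ P {i}`; all these elements are
  in `G_m`).
-/

set_option autoImplicit false

namespace Pool.Agent.Helper89.SX

open Matrix MonoidAlgebra

namespace Datum

variable {p : ℕ} [Fact p.Prime] {F : Type*} [Field F] [CharP F p] {G : Type*} [Group G]
  {I : Type*} {C : CoxeterMatrix I} {W : Type*} [Group W] {cs : CoxeterSystem C W}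
  (D : Datum p F G cs)

/-- The standard form on the permutation module. -/
private noncomputable def Z1aForm : D.X →ₗ[ℚ] D.X →ₗ[ℚ] ℚ :=
  (Finsupp.bilinearCombination ℚ ℚ (α := G ⧸ D.B) (M := ℚ)) ∘ₗ Finsupp.lcoeFun

private theorem Z1aForm_apply (x y : D.X) : D.Z1aForm x y = ∑ᶠ c, x c * y c := by
  have h : D.Z1aForm x y = y.sum fun c a => a • x c := rfl
  rw [h, Finsupp.sum, finsum_eq_sum_of_support_subset]
  · refine Finset.sum_congr rfl fun c _ => ?_
    rw [smul_eq_mul, mul_comm]
  · intro c hc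
    rw [Function.mem_support] at hc
    rw [Finset.mem_coe, Finsupp.mem_support_iff]
    exact right_ne_zero_of_mul hc

private theorem Z1a_act_apply (g : G) (x : D.X) (c : G ⧸ D.B) : D.act g x (g • c) = x c := by
  unfold act
  rw [Finsupp.lmapDomain_apply]
  exact Finsupp.mapDomain_apply (MulAction.injective g) x c

private theorem Z1aForm_act (g : G) (x y : D.X) :
    D.Z1aForm (D.act g x) (D.act g y) = D.Z1aForm x y := by
  rw [Z1aForm_apply, Z1aForm_apply]
  rw [← finsum_comp_equiv (MulAction.toPerm g : Equiv.Perm (G ⧸ D.B))]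
  refine finsum_congr fun c => ?_
  rw [MulAction.toPerm_apply, Z1a_act_apply, Z1a_act_apply]

private theorem Z1aForm_self (x : D.X) (h : D.Z1aForm x x = 0) : x = 0 := by
  have h1 : D.Z1aForm x x = ∑ c ∈ x.support, x c * x c := rfl
  rw [h1] at h
  rw [Finset.sum_eq_zero_iff_of_nonneg (fun c _ => mul_self_nonneg (x c))] at h
  ext c
  by_cases hc : c ∈ x.support
  · exact mul_self_eq_zero.1 (h c hc)
  · exact Finsupp.notMem_support_iff.1 hc

/-- **SX-Z1a.** For a finite dimensional subspace of the permutation module stable under the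
`act g`, `g ∈ S`, an equivariant projection whose kernel is the orthogonal complement. -/
theorem exists_projection (V : Submodule ℚ D.X) [FiniteDimensional ℚ V] :
    ∃ π : D.X →ₗ[ℚ] D.X, (∀ x, π x ∈ V) ∧ (∀ x ∈ V, π x = x) ∧
      (∀ x, (∀ y ∈ V, ∑ᶠ c, x c * y c = 0) → π x = 0) ∧
      ∀ g : G, (∀ y ∈ V, D.act g y ∈ V) → (∀ y ∈ V, D.act g⁻¹ y ∈ V) →
        ∀ x, π (D.act g x) = D.act g (π x) := by
  set φ : V →ₗ[ℚ] Module.Dual ℚ V := (V.dualRestrict ∘ₗ D.Z1aForm) ∘ₗ V.subtype with hφ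
  have hinj : Function.Injective φ := by
    rw [← LinearMap.ker_eq_bot, LinearMap.ker_eq_bot']
    intro v hv
    have h1 : φ v v = 0 := by rw [hv]; rfl
    have h2 : D.Z1aForm (v : D.X) (v : D.X) = 0 := h1
    exact Subtype.ext (D.Z1aForm_self _ h2)
  set e : V ≃ₗ[ℚ] Module.Dual ℚ V :=
    LinearMap.linearEquivOfInjective φ hinj Subspace.dual_finrank_eq.symm with he
  have hφe : ∀ v : V, e v = φ v := fun v => LinearMap.linearEquivOfInjective_apply hinj _ v
  set π : D.X →ₗ[ℚ] D.X :=
    (V.subtype ∘ₗ e.symm.toLinearMap) ∘ₗ (V.dualRestrict ∘ₗ D.Z1aForm) with hπ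
  have hmem : ∀ x, π x ∈ V := fun x => (e.symm ((V.dualRestrict ∘ₗ D.Z1aForm) x)).2
  have hform : ∀ x, ∀ v ∈ V, D.Z1aForm (π x) v = D.Z1aForm x v := by
    intro x v hv
    have h1 : φ (e.symm ((V.dualRestrict ∘ₗ D.Z1aForm) x)) = (V.dualRestrict ∘ₗ D.Z1aForm) x := by
      rw [← hφe, LinearEquiv.apply_symm_apply]
    exact LinearMap.congr_fun h1 ⟨v, hv⟩
  have huniq : ∀ x, ∀ u ∈ V, (∀ v ∈ V, D.Z1aForm u v = D.Z1aForm x v) → π x = u := by
    intro x u hu huv
    have h1 : π x - u ∈ V := V.sub_mem (hmem x) hu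
    have h2 : D.Z1aForm (π x - u) (π x - u) = 0 := by
      have h3 : D.Z1aForm (π x - u) (π x - u)
          = D.Z1aForm (π x) (π x - u) - D.Z1aForm u (π x - u) := by
        exact LinearMap.map_sub₂ D.Z1aForm _ _ _
      rw [h3, hform x _ h1, huv _ h1, sub_self]
    exact sub_eq_zero.1 (D.Z1aForm_self _ h2)
  refine ⟨π, hmem, fun x hx => huniq x x hx fun v _ => rfl, fun x hx => ?_, ?_⟩
  · refine huniq x 0 V.zero_mem fun v hv => ?_
    rw [map_zero, LinearMap.zero_apply, Z1aForm_apply, hx v hv]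
  · intro g hg hg' x
    refine huniq _ _ (hg _ (hmem x)) fun v hv => ?_
    have h1 : D.act g (D.act g⁻¹ v) = v := by
      rw [← act_mul, mul_inv_cancel, act_one]
    rw [← h1, Z1aForm_act, Z1aForm_act]
    exact hform x _ (hg' v hv)

end Datum

end Pool.Agent.Helper89.SX
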