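import Mathlib
import Pool.Agent.Helper89.SX.St.T3

/-!
# SX-Z1b: panel sums are orthogonal to the Steinberg module

Proof.  Let `⟨x, y⟩ = ∑_c x(c) y(c)` on `X = (G ⧸ B →₀ ℚ)`, a positive definite symmetric form,
invariant under `act g`.  `StM m` is finite dimensional (spanned by a finite set), so
`X = StM m ⊕ (StM m)^⊥` (for a finite dimensional subspace `S`: the restriction of the form to `S` is
non-degenerate, so every functional `⟨x, ·⟩|_S` is `⟨s, ·⟩|_S`; or restrict to a finite set of
chambers and use `LinearMap.BilinForm.isCompl_orthogonal_of_restrict_nondegenerate`).  Let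
`π : X → StM m ≤ StQ` be the projection with kernel `(StM m)^⊥` (`Submodule.linearProjOfIsCompl`).
`π` commutes with `act g`, `g ∈ G_m` (both summands are stable).  Put `Z x y = b (π x) (π y)`.
* `agree`: `π x = x` on `StM m`.
* `panel`: the panel sum is orthogonal to `StM m`: `⟨panel m g i, act h e⟩ = 0` for `g, h ∈ G_m`.
  With `f(c) = ⟨…⟩`: `e = ∑_w (-1)^{ℓ(w)} δ (rep w)`, and `δ (rep (w s_i)) = δ (rep w * s_i)`
  (`ν_eq_iff`, `T ≤ B`); the sum over `w` cancels in pairs `w, w s_i` (`Finset.sum_involution` or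
  half sums), because the coefficient of the panel sum at `h rep(w) B` and at `h rep(w) s_i B` are
  equal (`panel_apply`: `g⁻¹ h rep(w) ∈ P {i}` iff `g⁻¹ h rep(w) s_i ∈ P {i}`; all these elements are
  in `G_m`).
-/

set_option autoImplicit false

namespace Pool.Agent.Helper89.SX

open Matrix MonoidAlgebra

namespace Datum

variable {p : ℕ} [Fact p.Prime] {F : Type*} [Field F] [CharP F p] {G : Type*} [Group G]
  {I : Type*} {C : CoxeterMatrix I} {W : Type*} [Group W] {cs : CoxeterSystem C W}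
  (D : Datum p F G cs) [Fintype W]

omit [Fintype W] in
private theorem neg_one_pow_length_mul_simple (w : W) (i : I) :
    (-1 : ℚ) ^ cs.length (w * cs.simple i) = -(-1 : ℚ) ^ cs.length w := by
  rcases cs.length_mul_simple w i with h | h
  · rw [h, pow_succ]; ring
  · rw [← h, pow_succ]; ring

omit [Fintype W] in
private theorem rep_mul_simple (w : W) (i : I) :
    ∃ t ∈ D.T, D.rep (w * cs.simple i) = D.rep w * D.s i * t := by
  have h : D.ν (⟨D.rep w, D.rep_mem w⟩ * ⟨D.s i, D.s_mem_N i⟩) =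
      D.ν ⟨D.rep (w * cs.simple i), D.rep_mem (w * cs.simple i)⟩ := by
    rw [map_mul, D.ν_rep, D.ν_rep]
    congr 1
    exact D.ν_wt i
  obtain ⟨t, ht, h'⟩ := (D.ν_eq_iff _ _).1 h
  exact ⟨t, ht, h'⟩

omit [Fintype W] in
private theorem panel_apply_rep_mul {m : ℕ} (hm : 0 < m) (i : I) {g h : G} (hg : g ∈ D.Gm m)
    (hh : h ∈ D.Gm m) (w : W) :
    D.panel m g i ((h * D.rep (w * cs.simple i) : G) : G ⧸ D.B) =
      D.panel m g i ((h * D.rep w : G) : G ⧸ D.B) := by
  classical
  rw [D.panel_apply hm i hg (D.mul_mem_Gm hh (D.rep_mem_Gm hm _)),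
    D.panel_apply hm i hg (D.mul_mem_Gm hh (D.rep_mem_Gm hm _))]
  have key : g⁻¹ * (h * D.rep (w * cs.simple i)) ∈ D.P {i} ↔ g⁻¹ * (h * D.rep w) ∈ D.P {i} := by
    obtain ⟨t, ht, h'⟩ := D.rep_mul_simple w i
    have h1 : g⁻¹ * (h * D.rep (w * cs.simple i)) = g⁻¹ * (h * D.rep w) * (D.s i * t) := by
      rw [h']; group
    rw [h1]
    exact Subgroup.mul_mem_cancel_right _ (Subgroup.mul_mem _ (D.s_mem_P (Set.mem_singleton i))
      (D.B_le_P {i} ((le_sup_left : D.T ≤ D.T ⊔ D.U) ht)))
  by_cases hc : g⁻¹ * (h * D.rep w) ∈ D.P {i}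
  · rw [if_pos hc, if_pos (key.2 hc)]
  · rw [if_neg hc, if_neg (fun h' => hc (key.1 h'))]

/-- **SX-Z1b.** -/
theorem panel_orthogonal {m : ℕ} (hm : 0 < m) (i : I) {g : G} (hg : g ∈ D.Gm m) {y : D.X}
    (hy : y ∈ D.StM m) : ∑ᶠ c, D.panel m g i c * y c = 0 := by
  classical
  set L : D.X →ₗ[ℚ] ℚ := Finsupp.linearCombination ℚ (fun c => D.panel m g i c) with hL
  have hsum : ∀ z : D.X, ∑ᶠ c, D.panel m g i c * z c = L z := by
    intro z
    rw [finsum_eq_sum_of_support_subset (s := z.support)]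
    · rw [hL, Finsupp.linearCombination_apply, Finsupp.sum]
      refine Finset.sum_congr rfl fun c _ => ?_
      rw [smul_eq_mul, mul_comm]
    · intro c hc
      rw [Function.mem_support] at hc
      simp only [Finset.mem_coe, Finsupp.mem_support_iff]
      intro h0
      exact hc (by rw [h0, mul_zero])
  rw [hsum]
  have hle : D.StM m ≤ LinearMap.ker L := by
    unfold StM
    rw [Submodule.span_le]
    rintro _ ⟨h, hh, rfl⟩
    have hh' : h ∈ D.Gm m := hh
    rw [SetLike.mem_coe, LinearMap.mem_ker]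
    have h1 : L (D.act h D.eQ) = ∑ w : W, (-1 : ℚ) ^ cs.length w *
        D.panel m g i ((h * D.rep w : G) : G ⧸ D.B) := by
      unfold eQ
      rw [map_sum, map_sum]
      refine Finset.sum_congr rfl fun w _ => ?_
      rw [map_smul, map_smul, act_δ, smul_eq_mul]
      congr 1
      rw [hL]
      unfold δ
      rw [Finsupp.linearCombination_single, one_smul]
    have h2 : L (D.act h D.eQ) = - L (D.act h D.eQ) := by
      rw [h1]
      conv_lhs => rw [← Equiv.sum_comp (Equiv.mulRight (cs.simple i))]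
      rw [← Finset.sum_neg_distrib]
      refine Finset.sum_congr rfl fun w _ => ?_
      rw [Equiv.coe_mulRight, neg_one_pow_length_mul_simple, D.panel_apply_rep_mul hm i hg hh' w]
      ring
    show L (D.act h D.eQ) = 0
    linarith
  exact hle hy

end Datum

end Pool.Agent.Helper89.SX
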