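import Mathlib
import Pool.Agent.Helper89.SX.St.Z1a
import Pool.Agent.Helper89.SX.St.Z1b

/-!
# SX-Z1c: existence of the form `Z` (`exists_projection` in `Z1a`, `panel_orthogonal` in `Z1b`)

Proof.  Let `⟨x, y⟩ = ∑_c x(c) y(c)` on `X = (G ⧸ B →₀ ℚ)`, a positive definite symmetric form,
invariant under `act g`.  `StM m` is finite dimensional (spanned by a finite set), so
`X = StM m ⊕ (StM m)^⊥` (for a finite dimensional subspace `S`: the restriction of the form to `S` is
non-degenerate, so every functional `⟨x, ·⟩|_S` is `⟨s, ·⟩|_S`; or restrict to a finite set of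
chambers and use `LinearMap.BilinForm.isCompl_orthogonal_of_restrict_nondegenerate`).  Let
`π : X → StM m ≤ StQ` be the projection with kernel `(StM m)^⊥` (`Submodule.linearProjOfIsCompl`).
`π` commutes with `act g`, `g ∈ G_m` (both summands are stable).  Put `Z x y = b (π x) (π y)`.
* `agree`: `π x = x` on `StM m`.
* `panel`: the panel sum is orthogonal to `StM m`: `⟨panel m g i, act h e⟩ = 0` for `g, h ∈ G_m`.
  With `f(c) = ⟨…⟩`: `e = ∑_w (-1)^{ℓ(w)} δ (rep w)`, and `δ (rep (w s_i)) = δ (rep w * s_i)`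
  (`ν_eq_iff`, `T ≤ B`); the sum over `w` cancels in pairs `w, w s_i` (`Finset.sum_involution` or
  half sums), because the coefficient of the panel sum at `h rep(w) B` and at `h rep(w) s_i B` are
  equal (`panel_apply`: `g⁻¹ h rep(w) ∈ P {i}` iff `g⁻¹ h rep(w) s_i ∈ P {i}`; all these elements are
  in `G_m`).
-/

set_option autoImplicit false

namespace Pool.Agent.Helper89.SX

open Matrix MonoidAlgebra

namespace Datum

variable {p : ℕ} [Fact p.Prime] {F : Type*} [Field F] [CharP F p] {G : Type*} [Group G]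
  {I : Type*} {C : CoxeterMatrix I} {W : Type*} [Group W] {cs : CoxeterSystem C W}
  (D : Datum p F G cs) [Fintype W]

/-- **SX-Z1c.** -/
theorem exists_Z (b : D.StQ →ₗ[ℚ] D.StQ →ₗ[ℚ] (G → ℂ)) (hb : D.IsEquiv b) {m : ℕ} (hm : 0 < m) :
    ∃ Z : D.X →ₗ[ℚ] D.X →ₗ[ℚ] (G → ℂ), D.IsZ b m Z := by
  classical
  have : FiniteDimensional ℚ (D.StM m) := by
    unfold StM
    exact FiniteDimensional.span_of_finite ℚ ((Finset.finite_toSet (D.Gm m)).image _)
  obtain ⟨π, hπ1, hπ2, hπ3, hπ4⟩ := D.exists_projection (D.StM m)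
  set πS : D.X →ₗ[ℚ] D.StQ := π.codRestrict D.StQ (fun x => D.StM_le m (hπ1 x)) with hπS
  have hstab : ∀ g ∈ D.Gm m, ∀ y ∈ D.StM m, D.act g y ∈ D.StM m := by
    intro g hg y hy
    have hle : D.StM m ≤ (D.StM m).comap (D.act g) := by
      conv_lhs => unfold StM
      rw [Submodule.span_le]
      rintro _ ⟨h, hh, rfl⟩
      refine Submodule.subset_span ⟨g * h, D.mul_mem_Gm hg hh, ?_⟩
      exact D.act_mul g h _
    exact hle hy
  have hcomm : ∀ g ∈ D.Gm m, ∀ x, πS (D.act g x) = D.actS g (πS x) := by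
    intro g hg x
    apply Subtype.ext
    show π (D.act g x) = D.act g (π x)
    exact hπ4 g (hstab g hg) (hstab g⁻¹ (D.inv_mem_Gm hg)) x
  have hpan : ∀ i, ∀ g ∈ D.Gm m, πS (D.panel m g i) = 0 := by
    intro i g hg
    apply Subtype.ext
    show π (D.panel m g i) = 0
    exact hπ3 _ fun y hy => D.panel_orthogonal hm i hg hy
  refine ⟨b.compl₁₂ πS πS, ?_⟩
  constructor
  · intro x y hx hy
    have hx' : πS x = ⟨x, D.StM_le m hx⟩ := Subtype.ext (hπ2 x hx)
    have hy' : πS y = ⟨y, D.StM_le m hy⟩ := Subtype.ext (hπ2 y hy)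
    rw [LinearMap.compl₁₂_apply, hx', hy']
  · intro g hg x y
    rw [LinearMap.compl₁₂_apply, LinearMap.compl₁₂_apply, hcomm g hg, hcomm g hg]
    exact hb g _ _
  · intro i g hg y
    rw [LinearMap.compl₁₂_apply, hpan i g hg, map_zero, LinearMap.zero_apply]
  · intro i g hg x
    rw [LinearMap.compl₁₂_apply, hpan i g hg, map_zero]
  · intro x y
    exact ⟨πS x, πS y, rfl⟩

end Datum

end Pool.Agent.Helper89.SX
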