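import Mathlib
import Pool.Agent.Helper89.SX.St.K2
import Pool.Agent.Helper89.SX.St.Z1
import Pool.Agent.Helper89.SX.St.K3a

/-!
# SX-K3: vanishing (`value_small` in `K3a`)

(K3a) `value_small`.  Let `g₁, g₂, g₀ ∈ G`.  For every `ε > 0` there is `m₁ > 0` such that for all
`m > 0` with `m₁ ∣ m` and all `v` with `RightEq`, `lt (h t h⁻¹) v = v` for the `t ∈ T ∩ G_m`, and
`‖res (Gm m) v‖² ≤ c #(P ∩ G_m)`: `‖v g₀‖ ≤ ε`.
Proof.  Let `H = {t | h t h⁻¹ g₀ ∈ g₀ P} = {t | (g₀⁻¹ h) t (g₀⁻¹ h)⁻¹ ∈ P}`, the preimage of `P`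
under conjugation.  Case `¬ T ≤ H`: take `N` with `c / N ≤ ε²` and `t : Fin N → G` from
`exists_distinct`, and `m₁` with `h, g₀, t j ∈ G_{m₁}` (`exists_level`).  For `m₁ ∣ m`: the
`x j = h (t j) h⁻¹ g₀ ∈ G_m` are in different cosets of `P`, `v (x j) = v g₀` (invariance for
`(t j)⁻¹`), so `N ‖v g₀‖² #(P ∩ G_m) ≤ ‖res v‖² ≤ c #(P ∩ G_m)` (`orbit_bound`, `Pm_card_pos`).
Case `T ≤ H`: by `exists_ne_one` (for `g₀⁻¹ h`) there is `t ∈ T` with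
`χ(g₀⁻¹ h t h⁻¹ g₀) ≠ 1`; `m₁` with `t, h, g₀ ∈ G_{m₁}`;
`v g₀ = v (h t h⁻¹ g₀) = v (g₀ (g₀⁻¹ h t h⁻¹ g₀)) = χ(…)⁻¹ v g₀`, so `v g₀ = 0`.
(K3) Let `x, y ∈ StQ`, `g₀ ∈ G`; show `b x y g₀ = 0`.  By linearity we may take `x = act g e`,
`y = act g' e` (span induction), or choose `m₀` with `x, y ∈ StM m₀`.  Take `m₀ > 0` with
`g, g' ∈ G_{m₀}` and `64 (#W)^4 ≤ q^{m₀} = #F_{m₀}` (replace `m₀` by a multiple; `card_fm`), `c` from
`bounded`.  `x = ∑_w ± δ (g rep(w))`, `y = ∑_{w'} ± δ (g' rep(w'))`, a finite sum over pairs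
`(g₁, g₂)`, `g₁ = g rep(w)`, `g₂ = g' rep(w')` in `G_{m₀}`.  For such a pair
`g₁⁻¹ g₂ = b rep(v) b'` (`finite_bruhat`), put `h = g₁ b ∈ G_{m₀}`: `δ g₁ = δ h`,
`δ g₂ = δ (h rep(v))`; for `t ∈ T ∩ G_m` (`m₀ ∣ m`): `act (h t h⁻¹)` fixes both, so
`lt (h t h⁻¹)` fixes `Z (δ g₁) (δ g₂)` (`equiv`).  Let `m₁` be a common multiple of `2 m₀` and of the
`m₁` of K3a for all pairs and `ε`; take `m = m₁`, `Z` from `exists_Z`; then
`‖b x y g₀‖ = ‖Z x y g₀‖ ≤ (#W)² ε`.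
-/

set_option autoImplicit false

namespace Pool.Agent.Helper89.SX

open Matrix MonoidAlgebra

namespace Datum

variable {p : ℕ} [Fact p.Prime] {F : Type*} [Field F] [CharP F p] {G : Type*} [Group G]
  {I : Type*} {C : CoxeterMatrix I} {W : Type*} [Group W] {cs : CoxeterSystem C W}
  (D : Datum p F G cs)

private theorem T_le_B {t : G} (ht : t ∈ D.T) : t ∈ D.B := (le_sup_left : D.T ≤ D.B) ht

/-- The torus `h T h⁻¹` fixes both chambers `g₁`, `g₂`. -/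
private theorem exists_h {m₀ : ℕ} (h₀ : 0 < m₀) {g₁ g₂ : G} (h₁ : g₁ ∈ D.Gm m₀)
    (h₂ : g₂ ∈ D.Gm m₀) : ∃ h ∈ D.Gm m₀, ∀ t ∈ D.T,
      D.δ (h * t * h⁻¹ * g₁) = D.δ g₁ ∧ D.δ (h * t * h⁻¹ * g₂) = D.δ g₂ := by
  obtain ⟨b, hb, hbm, b', hb', hk⟩ := D.finite_bruhat h₀ (D.mul_mem_Gm (D.inv_mem_Gm h₁) h₂)
  set v := D.pos (g₁⁻¹ * g₂) with hv
  refine ⟨g₁ * b, D.mul_mem_Gm h₁ hbm, fun t ht => ⟨?_, ?_⟩⟩
  · have e : g₁ * b * t * (g₁ * b)⁻¹ * g₁ = g₁ * (b * t * b⁻¹) := by group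
    rw [e, D.δ_mul_B]
    exact mul_mem (mul_mem hb (D.T_le_B ht)) (inv_mem hb)
  · have e2 : g₂ = g₁ * b * D.rep v * b' := by
      have : g₂ = g₁ * (g₁⁻¹ * g₂) := by group
      rw [this, hk]
      group
    have hT : (D.rep v)⁻¹ * t * D.rep v ∈ D.T := by
      have := D.N_conj_T (⟨D.rep v, D.rep_mem v⟩⁻¹ : D.N) ht
      simpa using this
    have e3 : g₁ * b * t * (g₁ * b)⁻¹ * g₂
        = g₂ * (b'⁻¹ * ((D.rep v)⁻¹ * t * D.rep v) * b') := by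
      rw [e2]
      group
    rw [e3, D.δ_mul_B]
    exact mul_mem (mul_mem (inv_mem hb') (D.T_le_B hT)) hb'

private theorem act_eQ [Fintype W] (g : G) :
    D.act g D.eQ = ∑ w : W, ((-1 : ℚ) ^ cs.length w) • D.δ (g * D.rep w) := by
  unfold eQ
  rw [map_sum]
  refine Finset.sum_congr rfl fun w _ => ?_
  rw [map_smul, D.act_δ]

omit [Group G] in
private theorem norm_sign (n : ℕ) (v : G → ℂ) (g₀ : G) :
    ‖(((-1 : ℚ) ^ n) • v) g₀‖ = ‖v g₀‖ := by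
  rcases neg_one_pow_eq_or ℚ n with h | h <;> rw [h] <;> simp

private theorem gen_eq_zero [IsAlgClosed F] [Fintype W] {θ : D.T →* ℂˣ} (hθ : θ ≠ 1) {K : Set I}
    {χ : D.P K →* ℂˣ} (hχ : D.Extends θ χ) (b : D.StQ →ₗ[ℚ] D.StQ →ₗ[ℚ] (G → ℂ))
    (hb : D.IsEquiv b) (hr : ∀ x y, RightEq (D.P K) χ (b x y))
    (hf : ∀ x y, FinMod (D.P K) (b x y)) (g g' : G) (hx : D.act g D.eQ ∈ D.StQ)
    (hy : D.act g' D.eQ ∈ D.StQ) (g₀ : G) : b ⟨_, hx⟩ ⟨_, hy⟩ g₀ = 0 := by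
  classical
  obtain ⟨m', hm', hS⟩ := D.exists_level {g, g'}
  have hg' : g ∈ D.Gm m' := hS (by simp)
  have hg'' : g' ∈ D.Gm m' := hS (by simp)
  have hW : 0 < Fintype.card W := Fintype.card_pos
  set k := 64 * Fintype.card W ^ 4 with hk
  have hk0 : 0 < k := by positivity
  set m₀ := m' * k with hm₀
  have h₀ : 0 < m₀ := Nat.mul_pos hm' hk0
  have hbig : 64 * Fintype.card W ^ 4 ≤ (D.fm m₀).card := by
    rw [D.card_fm h₀]
    calc k ≤ m' * k := Nat.le_mul_of_pos_left k hm'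
      _ ≤ D.q ^ m₀ := (Nat.lt_pow_self D.one_lt_q).le
  obtain ⟨c, hc, hbd⟩ := D.bounded b (D.P K) χ hr hf h₀ hbig
  have hg₀ : g ∈ D.Gm m₀ := D.Gm_mono (Dvd.intro _ rfl) h₀ hg'
  have hg₀' : g' ∈ D.Gm m₀ := D.Gm_mono (Dvd.intro _ rfl) h₀ hg''
  have hh : ∀ w w' : W, ∃ h ∈ D.Gm m₀, ∀ t ∈ D.T,
      D.δ (h * t * h⁻¹ * (g * D.rep w)) = D.δ (g * D.rep w) ∧
        D.δ (h * t * h⁻¹ * (g' * D.rep w')) = D.δ (g' * D.rep w') := fun w w' =>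
    D.exists_h h₀ (D.mul_mem_Gm hg₀ (D.rep_mem_Gm h₀ w)) (D.mul_mem_Gm hg₀' (D.rep_mem_Gm h₀ w'))
  choose h hhm hht using hh
  have key : ∀ ε : ℝ, 0 < ε →
      ‖b ⟨_, hx⟩ ⟨_, hy⟩ g₀‖ ≤ (Fintype.card W : ℝ) * ((Fintype.card W : ℝ) * ε) := by
    intro ε hε
    have hv := fun w w' : W => D.value_small hθ hχ (h w w') g₀ hc hε
    choose m₁ hm₁ hv using hv
    set m := 2 * m₀ * ∏ w : W, ∏ w' : W, m₁ w w' with hmdef
    have hprod : 0 < ∏ w : W, ∏ w' : W, m₁ w w' :=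
      Finset.prod_pos fun w _ => Finset.prod_pos fun w' _ => hm₁ w w'
    have hm : 0 < m := Nat.mul_pos (Nat.mul_pos two_pos h₀) hprod
    have hd0 : 2 * m₀ ∣ m := Dvd.intro _ rfl
    have hd1 : m₀ ∣ m := (Dvd.intro_left 2 rfl : m₀ ∣ 2 * m₀).trans hd0
    have hd2 : ∀ w w', m₁ w w' ∣ m := fun w w' =>
      ((Finset.dvd_prod_of_mem (fun w' => m₁ w w') (Finset.mem_univ w')).trans
        (Finset.dvd_prod_of_mem (fun w => ∏ w', m₁ w w') (Finset.mem_univ w))).trans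
        (Dvd.intro_left _ rfl)
    have up := D.Gm_mono hd1 hm
    obtain ⟨Z, hZ⟩ := D.exists_Z b hb hm
    have hag := hZ.agree (D.act g D.eQ) (D.act g' D.eQ)
      (Submodule.subset_span ⟨g, up hg₀, rfl⟩) (Submodule.subset_span ⟨g', up hg₀', rfl⟩)
    rw [← hag, D.act_eQ, D.act_eQ]
    have hval : ∀ w w' : W, ‖Z (D.δ (g * D.rep w)) (D.δ (g' * D.rep w')) g₀‖ ≤ ε := by
      intro w w'
      refine hv w w' m hm (hd2 w w') _ ?_ ?_ ?_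
      · obtain ⟨x', y', e⟩ := hZ.values (D.δ (g * D.rep w)) (D.δ (g' * D.rep w'))
        rw [e]
        exact hr x' y'
      · intro t ht htm
        have hmem : h w w' * t * (h w w')⁻¹ ∈ D.Gm m :=
          D.mul_mem_Gm (D.mul_mem_Gm (up (hhm w w')) htm) (D.inv_mem_Gm (up (hhm w w')))
        have e := hZ.equiv _ hmem (D.δ (g * D.rep w)) (D.δ (g' * D.rep w'))
        rw [← e, D.act_δ, D.act_δ, (hht w w' t ht).1, (hht w w' t ht).2]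
      · exact hbd m hm hd0 Z hZ _ (D.mul_mem_Gm (up hg₀) (D.rep_mem_Gm hm w)) _
          (D.mul_mem_Gm (up hg₀') (D.rep_mem_Gm hm w'))
    have hsum : Z (∑ w : W, ((-1 : ℚ) ^ cs.length w) • D.δ (g * D.rep w)) =
        ∑ w : W, Z (((-1 : ℚ) ^ cs.length w) • D.δ (g * D.rep w)) := map_sum _ _ _
    rw [hsum, LinearMap.sum_apply, Finset.sum_apply]
    refine (norm_sum_le _ _).trans ?_
    have h1 : ∀ w ∈ (Finset.univ : Finset W),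
        ‖(Z (((-1 : ℚ) ^ cs.length w) • D.δ (g * D.rep w)))
          (∑ w' : W, ((-1 : ℚ) ^ cs.length w') • D.δ (g' * D.rep w')) g₀‖
          ≤ (Fintype.card W : ℝ) * ε := by
      intro w _
      rw [map_smul, LinearMap.smul_apply, norm_sign, map_sum, Finset.sum_apply]
      refine (norm_sum_le _ _).trans ?_
      have h2 : ∀ w' ∈ (Finset.univ : Finset W),
          ‖(Z (D.δ (g * D.rep w))) (((-1 : ℚ) ^ cs.length w') • D.δ (g' * D.rep w')) g₀‖ ≤ ε := by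
        intro w' _
        rw [map_smul, norm_sign]
        exact hval w w'
      refine (Finset.sum_le_sum h2).trans ?_
      simp
    refine (Finset.sum_le_sum h1).trans ?_
    simp
  have hWr : (0 : ℝ) < Fintype.card W := by exact_mod_cast hW
  have hfin : ‖b ⟨_, hx⟩ ⟨_, hy⟩ g₀‖ ≤ 0 := by
    refine le_of_forall_pos_le_add fun ε hε => ?_
    have := key (ε / ((Fintype.card W : ℝ) * (Fintype.card W : ℝ))) (by positivity)
    rw [zero_add]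
    refine this.trans (le_of_eq ?_)
    field_simp
  exact norm_le_zero_iff.1 hfin

/-- **SX-K3.** -/
theorem form_eq_zero [IsAlgClosed F] [Fintype W] {θ : D.T →* ℂˣ} (hθ : θ ≠ 1) {K : Set I}
    {χ : D.P K →* ℂˣ} (hχ : D.Extends θ χ) (b : D.StQ →ₗ[ℚ] D.StQ →ₗ[ℚ] (G → ℂ))
    (hb : D.IsEquiv b) (hr : ∀ x y, RightEq (D.P K) χ (b x y))
    (hf : ∀ x y, FinMod (D.P K) (b x y)) : b = 0 := by
  have key : ∀ x (hx : x ∈ D.StQ), ∀ y (hy : y ∈ D.StQ), b ⟨x, hx⟩ ⟨y, hy⟩ = 0 := by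
    intro x hx
    refine Submodule.span_induction (p := fun x (hx : x ∈ D.StQ) =>
      ∀ y (hy : y ∈ D.StQ), b ⟨x, hx⟩ ⟨y, hy⟩ = 0) ?_ ?_ ?_ ?_ hx
    · rintro _ ⟨g, rfl⟩ y hy
      refine Submodule.span_induction (p := fun y (hy : y ∈ D.StQ) =>
        b ⟨_, Submodule.subset_span ⟨g, rfl⟩⟩ ⟨y, hy⟩ = 0) ?_ ?_ ?_ ?_ hy
      · rintro _ ⟨g', rfl⟩
        funext g₀
        exact D.gen_eq_zero hθ hχ b hb hr hf g g' _ _ g₀
      · exact map_zero _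
      · intro y₁ y₂ h₁ h₂ e₁ e₂
        have : (⟨y₁ + y₂, add_mem h₁ h₂⟩ : D.StQ) = ⟨y₁, h₁⟩ + ⟨y₂, h₂⟩ := rfl
        rw [this, map_add, e₁, e₂, add_zero]
      · intro a y₁ h₁ e₁
        have : (⟨a • y₁, Submodule.smul_mem _ a h₁⟩ : D.StQ) = a • ⟨y₁, h₁⟩ := rfl
        rw [this, map_smul, e₁, smul_zero]
    · intro y hy
      have : (⟨0, zero_mem _⟩ : D.StQ) = 0 := rfl
      rw [this, map_zero, LinearMap.zero_apply]
    · intro x₁ x₂ h₁ h₂ e₁ e₂ y hy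
      have : (⟨x₁ + x₂, add_mem h₁ h₂⟩ : D.StQ) = ⟨x₁, h₁⟩ + ⟨x₂, h₂⟩ := rfl
      rw [this, map_add, LinearMap.add_apply, e₁ y hy, e₂ y hy, add_zero]
    · intro a x₁ h₁ e₁ y hy
      have : (⟨a • x₁, Submodule.smul_mem _ a h₁⟩ : D.StQ) = a • ⟨x₁, h₁⟩ := rfl
      rw [this, map_smul, LinearMap.smul_apply, e₁ y hy, smul_zero]
  refine LinearMap.ext fun x => LinearMap.ext fun y => ?_
  exact key x.1 x.2 y.1 y.2

end Datum

end Pool.Agent.Helper89.SX
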