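import Mathlib

/-!
# SX-S2: transfer to the complex numbers

Proof.  `E₀` = the algebraic closure of `ℚ` in `k` (`algebraicClosure ℚ k`, or the subring
`integralClosure ℚ k`), a field, contains the roots of unity; `ι : E₀ → ℂ` by
`IsAlgClosed.lift`; a linear functional `f : k → E₀` over the field `E₀` with `f c ≠ 0`
(`exists_dual_forall_apply_eq_zero_iff`, `Module.exists_dual_…`, or extend `c` to a basis); `σ = ι ∘ f`.
-/

set_option autoImplicit false

namespace Pool.Agent.Helper89.SX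

/-- embedding of the relative algebraic closure (general base, so that instances agree) -/
private theorem S2_lift (K L M : Type*) [Field K] [Field L] [Algebra K L] [Field M]
    [IsAlgClosed M] [Algebra K M] : Nonempty (algebraicClosure K L →+* M) :=
  ⟨(IsAlgClosed.lift : algebraicClosure K L →ₐ[K] M).toRingHom⟩

/-- **SX-S2.** -/
theorem exists_transfer {k : Type*} [Field k] [CharZero k] (c : k) (hc : c ≠ 0) :
    ∃ (E₀ : Subring k) (ι : E₀ →+* ℂ) (σ : k →+ ℂ), Function.Injective ι ∧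
      (∀ x : k, (∃ n, 0 < n ∧ x ^ n = 1) → x ∈ E₀) ∧
      (∀ (a : E₀) (x : k), σ (a * x) = ι a * σ x) ∧ σ c ≠ 0 := by
  let E : IntermediateField ℚ k := algebraicClosure ℚ k
  obtain ⟨ι₀⟩ : Nonempty (E →+* ℂ) := S2_lift ℚ k ℂ
  obtain ⟨f, hf⟩ : ∃ f : Module.Dual E k, f c ≠ 0 := by
    by_contra hcon
    push Not at hcon
    exact hc ((Module.forall_dual_apply_eq_zero_iff E c).1 hcon)
  let ι : E.toSubring →+* ℂ := ι₀
  let σ : k →+ ℂ := ι₀.toAddMonoidHom.comp f.toAddMonoidHom
  have hinj : Function.Injective ι₀ := ι₀.injective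
  refine ⟨E.toSubring, ι, σ, hinj, ?_, ?_, ?_⟩
  · rintro x ⟨n, hn, hx⟩
    have : x ∈ E := by
      rw [mem_algebraicClosure_iff]
      refine ⟨Polynomial.X ^ n - 1, ?_, ?_⟩
      · exact Polynomial.X_pow_sub_C_ne_zero hn (1 : ℚ)
      · simp [hx]
    exact this
  · intro a x
    have h1 : f ((a : k) * x) = (⟨a.1, a.2⟩ : E) * f x := by
      have := f.map_smul (⟨a.1, a.2⟩ : E) x
      rw [smul_eq_mul] at this
      rw [← this]
      rfl
    change ι₀ (f ((a : k) * x)) = ι₀ ⟨a.1, a.2⟩ * ι₀ (f x)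
    rw [h1, map_mul]
  · intro h
    have h2 : ι₀ (f c) = ι₀ 0 := by
      rw [map_zero]
      exact h
    exact hf (hinj h2)

end Pool.Agent.Helper89.SX
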