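import Mathlib
import Pool.Agent.Helper89.SX.St.K3
import Pool.Agent.Helper89.SX.St.S2

/-!
# SX-S3: arbitrary coefficients of characteristic zero

Proof.  Suppose `c = β x y g ≠ 0`; take `E₀, ι, σ` from `exists_transfer`.  Every element of `G` has
finite order (`Fr_fixed`, `Fr_finite`), so the values of `χ` and `θ` are roots of unity, in `E₀`
(also their inverses).  Let `χ' = ι ∘ χ : P K → ℂˣ`, `θ' = ι ∘ θ`; `Extends θ' χ'`, `θ' ≠ 1` (`ι`
injective).  Put `b x y = σ ∘ β x y`, additive in both variables, so `ℚ`-bilinear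
(`AddMonoidHom.toRatLinearMap`).  It satisfies the hypotheses of `form_eq_zero`:
`σ (χ(g)⁻¹ z) = χ'(g)⁻¹ σ z`.  So `b = 0`, contradiction with `σ c ≠ 0`.
-/

set_option autoImplicit false

namespace Pool.Agent.Helper89.SX

open Matrix MonoidAlgebra

namespace Datum

variable {p : ℕ} [Fact p.Prime] {F : Type*} [Field F] [CharP F p] {G : Type*} [Group G]
  {I : Type*} {C : CoxeterMatrix I} {W : Type*} [Group W] {cs : CoxeterSystem C W}
  (D : Datum p F G cs)

include D in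
/-- Every element of `G` has finite order. -/
private theorem S3_finite_order (g : G) : ∃ n, 0 < n ∧ g ^ n = 1 := by
  obtain ⟨m, hm, hg⟩ := D.Fr_fixed g
  have h1 : ∀ k : ℕ, D.Fr^[m] (g ^ k) = g ^ k := by
    intro k
    rw [iterate_map_pow, hg]
  have h2 : (Submonoid.powers g : Set G).Finite := by
    refine (D.Fr_finite m hm).subset ?_
    rintro _ ⟨k, rfl⟩
    exact h1 k
  have h3 : IsOfFinOrder g := finite_powers.mp h2
  obtain ⟨n, hn, h⟩ := h3.exists_pow_eq_one
  exact ⟨n, hn, h⟩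

/-- Transport of a character with values in roots of unity. -/
private theorem S3_char {k : Type*} [Field k] {E₀ : Subring k} (ι : E₀ →+* ℂ)
    (hE : ∀ x : k, (∃ n, 0 < n ∧ x ^ n = 1) → x ∈ E₀) {H : Type*} [Group H] (f : H →* kˣ)
    (hH : ∀ h : H, ∃ n, 0 < n ∧ h ^ n = 1) :
    ∃ f' : H →* ℂˣ, ∀ h, ∃ hm : ((f h : kˣ) : k) ∈ E₀, ((f' h : ℂˣ) : ℂ) = ι ⟨_, hm⟩ := by
  have hm : ∀ h : H, ((f h : kˣ) : k) ∈ E₀ := by
    intro h
    obtain ⟨n, hn, e⟩ := hH h
    refine hE _ ⟨n, hn, ?_⟩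
    rw [← Units.val_pow_eq_pow_val, ← map_pow, e, map_one, Units.val_one]
  let f0 : H →* ℂ :=
    { toFun := fun h => ι ⟨_, hm h⟩
      map_one' := by
        have : (⟨((f 1 : kˣ) : k), hm 1⟩ : E₀) = 1 := by
          apply Subtype.ext
          simp
        rw [this, map_one]
      map_mul' := by
        intro a b
        have : (⟨((f (a * b) : kˣ) : k), hm (a * b)⟩ : E₀) = ⟨_, hm a⟩ * ⟨_, hm b⟩ := by
          apply Subtype.ext
          simp
        rw [this, map_mul] }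
  exact ⟨f0.toHomUnits, fun h => ⟨hm h, rfl⟩⟩

/-- **SX-S3.** -/
theorem bilinear_eq_zero [IsAlgClosed F] [Fintype W] {k : Type*} [Field k] [CharZero k]
    {θ : D.T →* kˣ} (hθ : θ ≠ 1) {K : Set I} {χ : D.P K →* kˣ} (hχ : D.Extends θ χ)
    (β : D.StQ →+ D.StQ →+ (G → k))
    (hβ : ∀ g x y, β (D.actS g x) (D.actS g y) = lt g (β x y))
    (hr : ∀ x y, RightEq (D.P K) χ (β x y)) (hf : ∀ x y, FinMod (D.P K) (β x y)) (x y : D.StQ) :
    β x y = 0 := by
  classical
  by_contra hne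
  obtain ⟨g, hg⟩ : ∃ g, β x y g ≠ 0 := by
    by_contra h
    push Not at h
    exact hne (funext h)
  obtain ⟨E₀, ι, σ, hι, hE, hσ, hσc⟩ := exists_transfer (β x y g) hg
  have hT : ∀ t : D.T, ∃ n, 0 < n ∧ t ^ n = 1 := by
    intro t
    obtain ⟨n, hn, e⟩ := S3_finite_order D (t : G)
    exact ⟨n, hn, Subtype.ext (by simpa using e)⟩
  have hP : ∀ t : D.P K, ∃ n, 0 < n ∧ t ^ n = 1 := by
    intro t
    obtain ⟨n, hn, e⟩ := S3_finite_order D (t : G)
    exact ⟨n, hn, Subtype.ext (by simpa using e)⟩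
  obtain ⟨θ', hθ'⟩ := S3_char ι hE θ hT
  obtain ⟨χ', hχ'⟩ := S3_char ι hE χ hP
  have hθ1 : θ' ≠ 1 := by
    intro h
    apply hθ
    ext t
    obtain ⟨hm, e⟩ := hθ' t
    rw [h] at e
    have e2 : ι ⟨_, hm⟩ = ι 1 := by
      rw [← e, map_one]
      simp
    have e3 := congrArg Subtype.val (hι e2)
    simpa using e3
  have hext : D.Extends θ' χ' := by
    refine ⟨fun t h h' => ?_, fun u h hu => ?_, fun i hi z h => ?_⟩
    · obtain ⟨hm, e⟩ := hθ' ⟨t, h'⟩
      obtain ⟨hm2, e2⟩ := hχ' ⟨t, h⟩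
      have e3 := hχ.apply_T t h h'
      apply Units.ext
      rw [e, e2]
      congr 1
      exact Subtype.ext (congrArg Units.val e3)
    · obtain ⟨hm2, e2⟩ := hχ' ⟨u, h⟩
      have e3 := hχ.apply_U u h hu
      apply Units.ext
      rw [e2]
      have : (⟨_, hm2⟩ : E₀) = 1 := Subtype.ext (by
        change ((χ _ : kˣ) : k) = 1
        rw [e3, Units.val_one])
      rw [this, map_one, Units.val_one]
    · obtain ⟨hm2, e2⟩ := hχ' ⟨D.φ i z, h⟩
      have e3 := hχ.apply_φ i hi z h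
      apply Units.ext
      rw [e2]
      have : (⟨_, hm2⟩ : E₀) = 1 := Subtype.ext (by
        change ((χ _ : kˣ) : k) = 1
        rw [e3, Units.val_one])
      rw [this, map_one, Units.val_one]
  let b1 : D.StQ → (D.StQ →ₗ[ℚ] (G → ℂ)) := fun x =>
    AddMonoidHom.toRatLinearMap
      { toFun := fun y g => σ (β x y g)
        map_zero' := by funext g; simp
        map_add' := by intro y z; funext g; simp }
  have hb1 : ∀ x y g, b1 x y g = σ (β x y g) := fun _ _ _ => rfl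
  let b0 : D.StQ →+ (D.StQ →ₗ[ℚ] (G → ℂ)) :=
    { toFun := b1
      map_zero' := by
        refine LinearMap.ext fun y => funext fun g => ?_
        rw [hb1]
        simp
      map_add' := by
        intro u v
        refine LinearMap.ext fun y => funext fun g => ?_
        rw [LinearMap.add_apply, Pi.add_apply, hb1, hb1, hb1]
        simp }
  let b : D.StQ →ₗ[ℚ] D.StQ →ₗ[ℚ] (G → ℂ) := b0.toRatLinearMap
  have hb : ∀ x y g, b x y g = σ (β x y g) := fun _ _ _ => rfl
  have hzero : b = 0 := by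
    refine D.form_eq_zero hθ1 hext b ?_ ?_ ?_
    · intro g x y
      funext h
      rw [hb, hβ]
      rfl
    · intro x y z g hg
      rw [hb, hb, hr x y z g hg]
      obtain ⟨hm, e⟩ := hχ' (⟨g, hg⟩⁻¹)
      have e1 : (((χ ⟨g, hg⟩)⁻¹ : kˣ) : k) = ((⟨_, hm⟩ : E₀) : k) := by
        rw [← map_inv]
      have e2 : (((χ' ⟨g, hg⟩)⁻¹ : ℂˣ) : ℂ) = ι ⟨_, hm⟩ := by
        rw [← map_inv, e]
      rw [e1, e2]
      exact hσ _ _
    · intro x y
      obtain ⟨S, hS⟩ := hf x y
      refine ⟨S, fun z hz => hS z fun h => hz ?_⟩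
      rw [hb, h, map_zero]
  apply hσc
  rw [← hb, hzero]
  rfl

end Datum

end Pool.Agent.Helper89.SX
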